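import Pool.Agent.T9h70.LG.Corr
import Pool.Agent.T9h89.LG.Far

/-!
# (FARP): orthogonality of the far pairs (helper70)
-/

set_option autoImplicit false

namespace Pool.Agent.T9h70.LG

open Pool.Agent.T9h44.LG MeasureTheory Real
open scoped ENNReal ComplexConjugate

lemma far_half {κ κh : ℝ → ℝ} (hκ : Kap κ κh) (m : ℕ) {G : ℝ × ℝ → ℂ} (hG : Nice G) (h : ℝ × ℝ)
    (γ₀ : ℝ) (I : Finset ℤ) (S : Finset (ℤ × ℤ)) (hS : S ⊆ I ×ˢ I)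
    (hrel : ∀ p ∈ S, ∀ p' ∈ S, ∀ ζ ζ', tt m G h p.1 p.2 ζ ≠ 0 → tt m G h p'.1 p'.2 ζ' ≠ 0 →
      |ph h ζ - ph h ζ'| < 1 / 4 ^ m → |p.1 - p'.1| ≤ 30 ∧ |p.2 - p'.2| ≤ 30) :
    ∫⁻ γ : ℝ, ENNReal.ofReal (κ ((γ - γ₀) / 4 ^ m)) *
        ‖∑ p ∈ S, cc (Gp m p.1 (Uo γ G)) (Gp m p.2 (Uo γ G)) h‖ₑ ^ 2 ≤
      3721 * ∑ i₁ ∈ I, ∑ i₂ ∈ I, ∫⁻ γ : ℝ, ENNReal.ofReal (κ ((γ - γ₀) / 4 ^ m)) *
        ‖cc (Gp m i₁ (Uo γ G)) (Gp m i₂ (Uo γ G)) h‖ₑ ^ 2 := by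
  classical
  have hcount : ∀ p : {x // x ∈ S}, Set.ncard {p' : {x // x ∈ S} | ∃ ζ ζ',
      tt m G h p.1.1 p.1.2 ζ ≠ 0 ∧ tt m G h p'.1.1 p'.1.2 ζ' ≠ 0 ∧
        |ph h ζ - ph h ζ'| < 1 / 4 ^ m} ≤ 3721 := by
    intro p
    have hcard : (Finset.Icc (p.1.1 - 30) (p.1.1 + 30) ×ˢ
        Finset.Icc (p.1.2 - 30) (p.1.2 + 30)).card = 3721 := by
      rw [Finset.card_product, Int.card_Icc, Int.card_Icc]
      have e1 : p.1.1 + 30 + 1 - (p.1.1 - 30) = 61 := by ring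
      have e2 : p.1.2 + 30 + 1 - (p.1.2 - 30) = 61 := by ring
      rw [e1, e2]
      rfl
    rw [← hcard, ← Set.ncard_coe_finset]
    refine Set.ncard_le_ncard_of_injOn (fun p' : {x // x ∈ S} => p'.1) ?_ ?_
      (Finset.finite_toSet _)
    · rintro p' ⟨ζ, ζ', h1, h2, h3⟩
      have h4 := hrel p.1 p.2 p'.1 p'.2 ζ ζ' h1 h2 h3
      rw [abs_le, abs_le] at h4
      simp only [Finset.coe_product, Set.mem_prod, Finset.coe_Icc, Set.mem_Icc]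
      omega
    · rintro p - q - heq
      exact Subtype.ext heq
  have key := ort_shift hκ (fun p : {x // x ∈ S} => tt m G h p.1.1 p.1.2) (ph h) (4 ^ m) γ₀ 3721
    (by positivity) (measurable_ph h) (fun p => tt_integrable m hG h _ _) hcount
  have e1 : ∀ γ : ℝ, ∑ p ∈ S, cc (Gp m p.1 (Uo γ G)) (Gp m p.2 (Uo γ G)) h =
      ∑ p : {x // x ∈ S}, ∫ ζ, ee (γ * ph h ζ) * tt m G h p.1.1 p.1.2 ζ := by
    intro γ
    rw [Finset.sum_coe_sort S (fun x => ∫ ζ, ee (γ * ph h ζ) * tt m G h x.1 x.2 ζ)]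
    exact Finset.sum_congr rfl fun p _ => cc_Uo m G h p.1 p.2 γ
  simp_rw [e1]
  refine key.trans ?_
  rw [Nat.cast_ofNat]
  refine mul_le_mul' le_rfl ?_
  rw [Finset.sum_coe_sort S (fun x => ∫⁻ γ : ℝ, ENNReal.ofReal (κ ((γ - γ₀) / 4 ^ m)) *
    ‖∫ ζ, ee (γ * ph h ζ) * tt m G h x.1 x.2 ζ‖ₑ ^ 2)]
  rw [← Finset.sum_product']
  simp_rw [cc_Uo]
  exact Finset.sum_le_sum_of_subset hS

lemma enorm_add_sq_le (x y : ℂ) : ‖x + y‖ₑ ^ 2 ≤ 2 * ‖x‖ₑ ^ 2 + 2 * ‖y‖ₑ ^ 2 := by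
  have h1 : ‖x + y‖ ^ 2 ≤ 2 * ‖x‖ ^ 2 + 2 * ‖y‖ ^ 2 := by
    have h2 := norm_add_le x y
    nlinarith [sq_nonneg (‖x‖ - ‖y‖), norm_nonneg (x + y), norm_nonneg x, norm_nonneg y]
  have h3 := ENNReal.ofReal_le_ofReal h1
  rw [ENNReal.ofReal_add (by positivity) (by positivity), ENNReal.ofReal_mul (by norm_num),
    ENNReal.ofReal_mul (by norm_num), ENNReal.ofReal_pow (norm_nonneg _),
    ENNReal.ofReal_pow (norm_nonneg _), ENNReal.ofReal_pow (norm_nonneg _), ofReal_norm,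
    ofReal_norm, ofReal_norm, ENNReal.ofReal_ofNat] at h3
  exact h3

theorem s_farp : S_farp := by
  classical
  intro κ κh hκ
  refine ⟨14884, by norm_num, ?_⟩
  intro a l G hl hG h γ₀ hh1 hh2
  set m := a + l with hm
  set I : Finset ℤ := Finset.Icc (-(9 * 2 ^ m) : ℤ) (9 * 2 ^ m) with hI
  set S₁ := (I ×ˢ I).filter (fun p : ℤ × ℤ => p.2 + 4 ≤ p.1) with hS₁
  set S₂ := (I ×ˢ I).filter (fun p : ℤ × ℤ => p.1 + 4 ≤ p.2) with hS₂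
  have b1 := far_half hκ m hG.1 h γ₀ I S₁ (Finset.filter_subset _ _) (by
    intro p hp p' hp' ζ ζ' h1 h2 h3
    rw [Finset.mem_filter] at hp hp'
    obtain ⟨u1, u2, u3, u4⟩ := tt_ne h1
    obtain ⟨v1, v2, v3, v4⟩ := tt_ne h2
    exact T9h89.LG.s_far a l hl h ζ ζ' (hG.2 _ u2) (hG.2 _ u1) (hG.2 _ v2) (hG.2 _ v1) hh1 hh2
      p.1 p.2 p'.1 p'.2 u3 u4 v3 v4 hp.2 hp'.2 h3)
  have b2 := far_half hκ m hG.1 h γ₀ I S₂ (Finset.filter_subset _ _) (by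
    intro p hp p' hp' ζ ζ' h1 h2 h3
    rw [Finset.mem_filter] at hp hp'
    obtain ⟨u1, u2, u3, u4⟩ := tt_ne h1
    obtain ⟨v1, v2, v3, v4⟩ := tt_ne h2
    have w : ∀ z : ℝ × ℝ, z + h + -h = z := fun z => add_neg_cancel_right z h
    have hn1 : |(-h).1| ≤ ((4 : ℝ) ^ a)⁻¹ := by rw [Prod.fst_neg, abs_neg]; exact hh1
    have hn2 : |(-h).2| ≤ ((4 : ℝ) ^ a)⁻¹ := by rw [Prod.snd_neg, abs_neg]; exact hh2
    have key := T9h89.LG.s_far a l hl (-h) (ζ + h) (ζ' + h) (hG.2 _ u1)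
      (by rw [w]; exact hG.2 _ u2) (hG.2 _ v1) (by rw [w]; exact hG.2 _ v2) hn1 hn2
      p.2 p.1 p'.2 p'.1 (by rw [w]; exact u4) u3 (by rw [w]; exact v4) v3 hp.2 hp'.2
      (by
        unfold ph at h3 ⊢
        rw [w, w, abs_sub_comm]
        have e0 : qq ζ' - qq (ζ' + h) - (qq ζ - qq (ζ + h)) =
          qq (ζ + h) - qq ζ - (qq (ζ' + h) - qq ζ') := by ring
        rw [e0]
        exact h3)
    exact ⟨key.2, key.1⟩)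
  -- the decomposition
  have hdec : ∀ γ : ℝ, ∑ i₁ ∈ I, ∑ i₂ ∈ I, (if |i₁ - i₂| ≤ 3 then (0 : ℂ) else 1) *
      cc (Gp m i₁ (Uo γ G)) (Gp m i₂ (Uo γ G)) h =
      ∑ p ∈ S₁, cc (Gp m p.1 (Uo γ G)) (Gp m p.2 (Uo γ G)) h +
        ∑ p ∈ S₂, cc (Gp m p.1 (Uo γ G)) (Gp m p.2 (Uo γ G)) h := by
    intro γ
    rw [← Finset.sum_product', hS₁, hS₂, Finset.sum_filter, Finset.sum_filter,
      ← Finset.sum_add_distrib]
    refine Finset.sum_congr rfl fun p _ => ?_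
    by_cases c0 : |p.1 - p.2| ≤ 3
    · rw [if_pos c0]
      rw [abs_le] at c0
      rw [if_neg (by omega), if_neg (by omega)]
      simp
    · rw [if_neg c0, one_mul]
      rcases le_total p.1 p.2 with c1 | c1
      · rw [abs_of_nonpos (by omega)] at c0
        rw [if_neg (by omega), if_pos (by omega), zero_add]
      · rw [abs_of_nonneg (by omega)] at c0
        rw [if_pos (by omega), if_neg (by omega), add_zero]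
  set T := ∑ i₁ ∈ I, ∑ i₂ ∈ I, ∫⁻ γ : ℝ, ENNReal.ofReal (κ ((γ - γ₀) / 4 ^ m)) *
        ‖cc (Gp m i₁ (Uo γ G)) (Gp m i₂ (Uo γ G)) h‖ₑ ^ 2 with hT
  have hcont : ∀ S : Finset (ℤ × ℤ),
      Continuous fun γ : ℝ => ∑ p ∈ S, cc (Gp m p.1 (Uo γ G)) (Gp m p.2 (Uo γ G)) h := by
    intro S
    refine continuous_finsetSum _ fun p _ => ?_
    simp_rw [cc_Uo]
    exact T9h89.LG.Ft_cont (measurable_ph h) (tt_integrable m hG.1 h p.1 p.2)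
  have hκm : Measurable fun γ : ℝ => ENNReal.ofReal (κ ((γ - γ₀) / 4 ^ m)) := by
    have h1 : Continuous κ := hκ.1
    exact ENNReal.measurable_ofReal.comp (h1.measurable.comp
      ((measurable_id.sub_const _).div_const _))
  have hmeas : ∀ S : Finset (ℤ × ℤ), Measurable fun γ : ℝ =>
      ENNReal.ofReal (κ ((γ - γ₀) / 4 ^ m)) *
        ‖∑ p ∈ S, cc (Gp m p.1 (Uo γ G)) (Gp m p.2 (Uo γ G)) h‖ₑ ^ 2 := fun S =>
    hκm.mul ((hcont S).measurable.enorm.pow_const 2)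
  simp_rw [hdec]
  calc ∫⁻ γ : ℝ, ENNReal.ofReal (κ ((γ - γ₀) / 4 ^ m)) *
        ‖∑ p ∈ S₁, cc (Gp m p.1 (Uo γ G)) (Gp m p.2 (Uo γ G)) h +
          ∑ p ∈ S₂, cc (Gp m p.1 (Uo γ G)) (Gp m p.2 (Uo γ G)) h‖ₑ ^ 2
      ≤ ∫⁻ γ : ℝ, (2 * (ENNReal.ofReal (κ ((γ - γ₀) / 4 ^ m)) *
          ‖∑ p ∈ S₁, cc (Gp m p.1 (Uo γ G)) (Gp m p.2 (Uo γ G)) h‖ₑ ^ 2) +
          2 * (ENNReal.ofReal (κ ((γ - γ₀) / 4 ^ m)) *
          ‖∑ p ∈ S₂, cc (Gp m p.1 (Uo γ G)) (Gp m p.2 (Uo γ G)) h‖ₑ ^ 2)) := by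
        refine lintegral_mono fun γ => ?_
        refine (mul_le_mul' le_rfl (enorm_add_sq_le _ _)).trans (le_of_eq ?_)
        ring
    _ = 2 * (∫⁻ γ : ℝ, ENNReal.ofReal (κ ((γ - γ₀) / 4 ^ m)) *
          ‖∑ p ∈ S₁, cc (Gp m p.1 (Uo γ G)) (Gp m p.2 (Uo γ G)) h‖ₑ ^ 2) +
        2 * (∫⁻ γ : ℝ, ENNReal.ofReal (κ ((γ - γ₀) / 4 ^ m)) *
          ‖∑ p ∈ S₂, cc (Gp m p.1 (Uo γ G)) (Gp m p.2 (Uo γ G)) h‖ₑ ^ 2) := by
        rw [lintegral_add_left ((hmeas S₁).const_mul 2), lintegral_const_mul _ (hmeas S₁),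
          lintegral_const_mul _ (hmeas S₂)]
    _ ≤ 2 * (3721 * T) + 2 * (3721 * T) :=
        add_le_add (mul_le_mul' le_rfl b1) (mul_le_mul' le_rfl b2)
    _ = ENNReal.ofReal 14884 * T := by
        rw [ENNReal.ofReal_ofNat, ← mul_assoc, ← add_mul]
        norm_num

end Pool.Agent.T9h70.LG
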