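import Pool.Agent.T9h44.LG.Spec

/-!
# (CNT): the maximal good dyadic intervals (helper70)
-/

set_option autoImplicit false

namespace Pool.Agent.T9h70.LG

open Pool.Agent.T9h44.LG MeasureTheory Real

/-- half the derivative of `pp h` -/
noncomputable def LL (h : ℝ × ℝ) (β : ℝ) : ℝ := h.2 - β * h.1

lemma pp_sub (h : ℝ × ℝ) (x y : ℝ) : pp h y - pp h x = (y - x) * (LL h x + LL h y) := by
  unfold pp LL; ring

lemma good_iff (m : ℕ) (h : ℝ × ℝ) (k : ℕ) (j : ℤ) : good m h k j ↔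
    |LL h (j / 2 ^ k)| ≤ 16 * 2 ^ k / 4 ^ m ∧ |LL h ((j + 1) / 2 ^ k)| ≤ 16 * 2 ^ k / 4 ^ m :=
  Iff.rfl

lemma half_cases (j : ℤ) : (j = 2 * (j / 2)) ∨ (j = 2 * (j / 2) + 1) := by omega

/-- the end points of the parent -/
lemma parent (h : ℝ × ℝ) (k : ℕ) (j : ℤ) :
    (LL h (((j / 2 : ℤ) : ℝ) / 2 ^ k) = LL h (j / 2 ^ (k + 1)) ∧
      LL h ((((j / 2 : ℤ) : ℝ) + 1) / 2 ^ k) =
        2 * LL h ((j + 1) / 2 ^ (k + 1)) - LL h (j / 2 ^ (k + 1))) ∨
    (LL h (((j / 2 : ℤ) : ℝ) / 2 ^ k) =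
        2 * LL h (j / 2 ^ (k + 1)) - LL h ((j + 1) / 2 ^ (k + 1)) ∧
      LL h ((((j / 2 : ℤ) : ℝ) + 1) / 2 ^ k) = LL h ((j + 1) / 2 ^ (k + 1))) := by
  have h2 : (2 : ℝ) ^ k ≠ 0 := by positivity
  rcases half_cases j with hj | hj
  · left
    have hj' : (j : ℝ) = 2 * ((j / 2 : ℤ) : ℝ) := by exact_mod_cast hj
    constructor
    · unfold LL
      rw [hj', pow_succ]
      field_simp
    · unfold LL
      rw [hj', pow_succ]
      field_simp
      ring
  · right
    have hj' : (j : ℝ) = 2 * ((j / 2 : ℤ) : ℝ) + 1 := by exact_mod_cast hj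
    constructor
    · unfold LL
      rw [hj', pow_succ]
      field_simp
      ring
    · unfold LL
      rw [hj', pow_succ]
      field_simp
      ring

/-- (GD) -/
theorem s_gd : S_gd := by
  intro m h k j hg
  rw [good_iff] at hg ⊢
  obtain ⟨h1, h2⟩ := hg
  have hpos : (0 : ℝ) ≤ 16 * 2 ^ k / 4 ^ m := by positivity
  have he : (16 : ℝ) * 2 ^ (k + 1) / 4 ^ m = 2 * (16 * 2 ^ k / 4 ^ m) := by rw [pow_succ]; ring
  rw [he]
  rcases parent h k j with ⟨e1, e2⟩ | ⟨e1, e2⟩
  · rw [e1] at h1; rw [e2] at h2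
    rw [abs_le] at h1 h2
    constructor
    · rw [abs_le]; constructor <;> linarith [h1.1, h1.2]
    · rw [abs_le]; constructor <;> linarith [h1.1, h1.2, h2.1, h2.2]
  · rw [e1] at h1; rw [e2] at h2
    rw [abs_le] at h1 h2
    constructor
    · rw [abs_le]; constructor <;> linarith [h1.1, h1.2, h2.1, h2.2]
    · rw [abs_le]; constructor <;> linarith [h2.1, h2.2]

lemma good_desc (m : ℕ) (h : ℝ × ℝ) (k : ℕ) : ∀ (d : ℕ) (j : ℤ), good m h k (j / 2 ^ d) →
    good m h (k + d) j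
  | 0, j, hg => by simpa using hg
  | d + 1, j, hg => by
    have h1 : j / 2 ^ (d + 1) = (j / 2) / 2 ^ d := by
      rw [pow_succ, mul_comm, Int.ediv_ediv_of_nonneg (by norm_num)]
    rw [h1] at hg
    exact s_gd m h (k + d) j (good_desc m h k d (j / 2) hg)

/-- two different maximal good intervals do not overlap -/
lemma disj (m : ℕ) (h : ℝ × ℝ) (k₁ k₂ : ℕ) (j₁ j₂ : ℤ) (h1 : gmax m h k₁ j₁) (h2 : gmax m h k₂ j₂)
    (hk : k₁ ≤ k₂) (hne : ¬ (k₁ = k₂ ∧ j₁ = j₂)) :
    ((j₁ : ℝ) + 1) / 2 ^ k₁ ≤ j₂ / 2 ^ k₂ ∨ ((j₂ : ℝ) + 1) / 2 ^ k₂ ≤ j₁ / 2 ^ k₁ := by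
  obtain ⟨d, rfl⟩ := Nat.exists_eq_add_of_le hk
  have hp : (0 : ℤ) < 2 ^ d := by positivity
  have hq1 : 2 ^ d * (j₂ / 2 ^ d) ≤ j₂ := Int.mul_ediv_self_le (by positivity)
  have hq2 : j₂ < 2 ^ d * (j₂ / 2 ^ d) + 2 ^ d := Int.lt_mul_ediv_self_add hp
  have hd : (0 : ℝ) < 2 ^ d := by positivity
  have hk1 : (0 : ℝ) < 2 ^ k₁ := by positivity
  rcases lt_trichotomy (j₂ / 2 ^ d) j₁ with hlt | heq | hgt
  · right
    have h3 : (j₂ : ℤ) + 1 ≤ 2 ^ d * j₁ := by
      have : j₂ / 2 ^ d + 1 ≤ j₁ := hlt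
      nlinarith
    have h3' : (j₂ : ℝ) + 1 ≤ 2 ^ d * j₁ := by exact_mod_cast h3
    rw [pow_add, div_le_div_iff₀ (by positivity) hk1]
    nlinarith
  · exfalso
    rcases Nat.eq_zero_or_pos d with rfl | hd0
    · apply hne
      simpa using heq.symm
    · obtain ⟨e, rfl⟩ : ∃ e, d = e + 1 := ⟨d - 1, by omega⟩
      have h3 : good m h (k₁ + e) (j₂ / 2) := by
        apply good_desc
        have h4 : (j₂ / 2) / 2 ^ e = j₁ := by
          rw [← heq, pow_succ, mul_comm, Int.ediv_ediv_of_nonneg (by norm_num)]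
        rw [h4]
        exact h1.2.1
      rcases h2.2.2 with h5 | h5
      · omega
      · exact h5 (by simpa using h3)
  · left
    have h3 : 2 ^ d * (j₁ + 1) ≤ j₂ := by
      have : j₁ + 1 ≤ j₂ / 2 ^ d := hgt
      nlinarith
    have h3' : (2 : ℝ) ^ d * (j₁ + 1) ≤ j₂ := by exact_mod_cast h3
    rw [pow_add, div_le_div_iff₀ hk1 (by positivity)]
    nlinarith

/-- lower bound for the variation of `pp h` -/
lemma lower (m : ℕ) (h : ℝ × ℝ) (k : ℕ) (j : ℤ) (hg : gmax m h k j) (hk : k ≠ 0) :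
    4 / 4 ^ m < (((j : ℝ) + 1) / 2 ^ k - j / 2 ^ k) *
      (|LL h (j / 2 ^ k)| + |LL h ((j + 1) / 2 ^ k)|) := by
  obtain ⟨e, rfl⟩ : ∃ e, k = e + 1 := ⟨k - 1, by omega⟩
  have hng : ¬ good m h e (j / 2) := by
    rcases hg.2.2 with h5 | h5
    · omega
    · simpa using h5
  set a := LL h (j / 2 ^ (e + 1))
  set b := LL h ((j + 1) / 2 ^ (e + 1))
  have key : 8 * 2 ^ e / 4 ^ m < |a| + |b| := by
    by_contra hcon
    push_neg at hcon
    apply hng
    rw [good_iff]
    have hpos : (0 : ℝ) ≤ 8 * 2 ^ e / 4 ^ m := by positivity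
    have he : (16 : ℝ) * 2 ^ e / 4 ^ m = 2 * (8 * 2 ^ e / 4 ^ m) := by ring
    rw [he]
    have ha := abs_nonneg a
    have hb := abs_nonneg b
    have t1 : |2 * b - a| ≤ 2 * |b| + |a| := by
      calc |2 * b - a| ≤ |2 * b| + |a| := abs_sub _ _
        _ = 2 * |b| + |a| := by rw [abs_mul, abs_of_pos (by norm_num : (0 : ℝ) < 2)]
    have t2 : |2 * a - b| ≤ 2 * |a| + |b| := by
      calc |2 * a - b| ≤ |2 * a| + |b| := abs_sub _ _
        _ = 2 * |a| + |b| := by rw [abs_mul, abs_of_pos (by norm_num : (0 : ℝ) < 2)]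
    rcases parent h e j with ⟨e1, e2⟩ | ⟨e1, e2⟩
    · rw [e1, e2]
      constructor <;> linarith
    · rw [e1, e2]
      constructor <;> linarith
  have hl : ((j : ℝ) + 1) / 2 ^ (e + 1) - j / 2 ^ (e + 1) = 1 / (2 * 2 ^ e) := by
    rw [pow_succ]; field_simp; ring
  rw [hl]
  have h2 : (0 : ℝ) < 1 / (2 * 2 ^ e) := by positivity
  calc (4 : ℝ) / 4 ^ m = 1 / (2 * 2 ^ e) * (8 * 2 ^ e / 4 ^ m) := by field_simp; norm_num
    _ < _ := mul_lt_mul_of_pos_left key h2

/-- the affine function is bounded on a good interval -/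
lemma LL_le (m : ℕ) (h : ℝ × ℝ) (k : ℕ) (j : ℤ) (hg : good m h k j) (β : ℝ)
    (h1 : (j : ℝ) / 2 ^ k ≤ β) (h2 : β ≤ ((j : ℝ) + 1) / 2 ^ k) :
    |LL h β| ≤ 16 * 2 ^ k / 4 ^ m := by
  rw [good_iff] at hg
  obtain ⟨g1, g2⟩ := hg
  rw [abs_le] at g1 g2 ⊢
  unfold LL at *
  rcases le_total 0 h.1 with h0 | h0
  · constructor
    · nlinarith [g2.1, mul_le_mul_of_nonneg_right h2 h0]
    · nlinarith [g1.2, mul_le_mul_of_nonneg_right h1 h0]
  · constructor
    · nlinarith [g1.1, mul_le_mul_of_nonpos_right h1 h0]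
    · nlinarith [g2.2, mul_le_mul_of_nonpos_right h2 h0]

/-- upper bound for the variation of `pp h` on a good interval -/
lemma upper (m : ℕ) (h : ℝ × ℝ) (k : ℕ) (j : ℤ) (hg : good m h k j) (β : ℝ)
    (h1 : (j : ℝ) / 2 ^ k ≤ β) (h2 : β ≤ ((j : ℝ) + 1) / 2 ^ k) :
    |pp h β - pp h (j / 2 ^ k)| ≤ 32 / 4 ^ m := by
  have hpos : (0 : ℝ) < 2 ^ k := by positivity
  have hb := LL_le m h k j hg β h1 h2
  have ha := hg.1
  change |LL h (j / 2 ^ k)| ≤ _ at ha
  rw [pp_sub, abs_mul]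
  have h3 : |β - j / 2 ^ k| ≤ 1 / 2 ^ k := by
    rw [abs_of_nonneg (by linarith)]
    have : ((j : ℝ) + 1) / 2 ^ k = j / 2 ^ k + 1 / 2 ^ k := by ring
    linarith
  have h4 : |LL h (j / 2 ^ k) + LL h β| ≤ 32 * 2 ^ k / 4 ^ m := by
    calc |LL h (j / 2 ^ k) + LL h β| ≤ |LL h (j / 2 ^ k)| + |LL h β| := abs_add_le _ _
      _ ≤ 16 * 2 ^ k / 4 ^ m + 16 * 2 ^ k / 4 ^ m := add_le_add ha hb
      _ = 32 * 2 ^ k / 4 ^ m := by ring
  calc |β - j / 2 ^ k| * |LL h (j / 2 ^ k) + LL h β| ≤ 1 / 2 ^ k * (32 * 2 ^ k / 4 ^ m) :=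
        mul_le_mul h3 h4 (abs_nonneg _) (by positivity)
    _ = 32 / 4 ^ m := by field_simp

/-- the affine function is affine -/
lemma LL_sub (h : ℝ × ℝ) (x y : ℝ) : LL h y - LL h x = -(y - x) * h.1 := by unfold LL; ring

open Classical in
/-- the code of an interval -/
noncomputable def code (m : ℕ) (h : ℝ × ℝ) (β₀ : ℝ) (τ : ℕ × ℤ) : ℕ × ℤ :=
  if τ.1 = 0 then (0, τ.2) else
    if 0 ≤ LL h (τ.2 / 2 ^ τ.1) ∧ 0 ≤ LL h ((τ.2 + 1) / 2 ^ τ.1) then
      (1, ⌊(pp h (τ.2 / 2 ^ τ.1) - pp h β₀) * (4 ^ m / 4)⌋) else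
    if LL h (τ.2 / 2 ^ τ.1) ≤ 0 ∧ LL h ((τ.2 + 1) / 2 ^ τ.1) ≤ 0 then
      (2, ⌊(pp h (τ.2 / 2 ^ τ.1) - pp h β₀) * (4 ^ m / 4)⌋) else (3, 0)

/-- ordered intervals have different codes -/
lemma code_ne (m : ℕ) (h : ℝ × ℝ) (β₀ : ℝ) (τ σ : ℕ × ℤ) (hτ : gmax m h τ.1 τ.2)
    (hσ : gmax m h σ.1 σ.2) (ho : ((τ.2 : ℝ) + 1) / 2 ^ τ.1 ≤ σ.2 / 2 ^ σ.1) :
    code m h β₀ τ ≠ code m h β₀ σ := by
  have hab : (τ.2 : ℝ) / 2 ^ τ.1 < ((τ.2 : ℝ) + 1) / 2 ^ τ.1 := by
    apply div_lt_div_of_pos_right _ (by positivity); linarith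
  have hcd : (σ.2 : ℝ) / 2 ^ σ.1 < ((σ.2 : ℝ) + 1) / 2 ^ σ.1 := by
    apply div_lt_div_of_pos_right _ (by positivity); linarith
  have hlow := lower m h τ.1 τ.2 hτ
  have hlow2 := lower m h σ.1 σ.2 hσ
  have hD : (0 : ℝ) < 4 ^ m := by positivity
  intro he
  by_cases k1 : τ.1 = 0
  · by_cases k2 : σ.1 = 0
    · have e1 : τ.2 = σ.2 := by
        have := congrArg Prod.snd he
        simpa [code, k1, k2] using this
      rw [k1, k2, e1] at ho
      norm_num at ho
    · have := congrArg Prod.fst he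
      unfold code at this
      rw [if_pos k1, if_neg k2] at this
      split_ifs at this <;> simp at this
  · by_cases k2 : σ.1 = 0
    · have := congrArg Prod.fst he
      unfold code at this
      rw [if_neg k1, if_pos k2] at this
      split_ifs at this <;> simp at this
    · have hl := hlow k1
      unfold code at he
      rw [if_neg k1, if_neg k2] at he
      set a := (τ.2 : ℝ) / 2 ^ τ.1 with ha
      set b := ((τ.2 : ℝ) + 1) / 2 ^ τ.1 with hb
      set c := (σ.2 : ℝ) / 2 ^ σ.1 with hc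
      set d := ((σ.2 : ℝ) + 1) / 2 ^ σ.1 with hd
      have s1 := LL_sub h a b
      have s2 := LL_sub h b c
      have s3 := LL_sub h c d
      have p1 := pp_sub h a b
      have p2 := pp_sub h b c
      by_cases c1 : 0 ≤ LL h a ∧ 0 ≤ LL h b
      · by_cases c2 : 0 ≤ LL h c ∧ 0 ≤ LL h d
        · rw [if_pos c1, if_pos c2] at he
          have e2 := congrArg Prod.snd he
          simp only at e2
          have hfl := Int.floor_eq_iff.mp e2
          rw [abs_of_nonneg c1.1, abs_of_nonneg c1.2] at hl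
          have q1 : 4 / 4 ^ m < pp h b - pp h a := by rw [p1]; exact hl
          have q2 : 0 ≤ pp h c - pp h b := by
            rw [p2]; exact mul_nonneg (by linarith) (add_nonneg c1.2 c2.1)
          have q3 : 1 < (pp h c - pp h a) * (4 ^ m / 4) := by
            have : 4 / 4 ^ m < pp h c - pp h a := by linarith
            calc (1 : ℝ) = 4 / 4 ^ m * (4 ^ m / 4) := by field_simp
              _ < _ := mul_lt_mul_of_pos_right this (by positivity)
          have f1 := Int.floor_le ((pp h c - pp h β₀) * (4 ^ m / 4))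
          have f2 := hfl.2
          have f3 := Int.lt_floor_add_one ((pp h a - pp h β₀) * (4 ^ m / 4))
          have f4 := Int.lt_floor_add_one ((pp h c - pp h β₀) * (4 ^ m / 4))
          have f5 : (pp h c - pp h β₀) * (4 ^ m / 4) - (pp h a - pp h β₀) * (4 ^ m / 4) =
            (pp h c - pp h a) * (4 ^ m / 4) := by ring
          have f6 := Int.floor_le ((pp h a - pp h β₀) * (4 ^ m / 4))
          rw [e2] at f3 f6
          linarith
        · rw [if_pos c1, if_neg c2] at he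
          split_ifs at he <;> simp at he
      · by_cases c1' : LL h a ≤ 0 ∧ LL h b ≤ 0
        · by_cases c2 : 0 ≤ LL h c ∧ 0 ≤ LL h d
          · rw [if_neg c1, if_pos c1', if_pos c2] at he
            simp at he
          · by_cases c2' : LL h c ≤ 0 ∧ LL h d ≤ 0
            · rw [if_neg c1, if_pos c1', if_neg c2, if_pos c2'] at he
              have e2 := congrArg Prod.snd he
              simp only at e2
              rw [abs_of_nonpos c1'.1, abs_of_nonpos c1'.2] at hl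
              have q1 : 4 / 4 ^ m < pp h a - pp h b := by
                have : pp h a - pp h b = (b - a) * (-LL h a + -LL h b) := by
                  rw [← neg_sub, p1]; ring
                rw [this]; exact hl
              have q2 : 0 ≤ pp h b - pp h c := by
                have : pp h b - pp h c = (c - b) * (-LL h b + -LL h c) := by
                  rw [← neg_sub, p2]; ring
                rw [this]
                exact mul_nonneg (by linarith) (by linarith [c1'.2, c2'.1])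
              have q3 : 1 < (pp h a - pp h c) * (4 ^ m / 4) := by
                have : 4 / 4 ^ m < pp h a - pp h c := by linarith
                calc (1 : ℝ) = 4 / 4 ^ m * (4 ^ m / 4) := by field_simp
                  _ < _ := mul_lt_mul_of_pos_right this (by positivity)
              have f3 := Int.lt_floor_add_one ((pp h a - pp h β₀) * (4 ^ m / 4))
              have f6 := Int.floor_le ((pp h a - pp h β₀) * (4 ^ m / 4))
              have f1 := Int.floor_le ((pp h c - pp h β₀) * (4 ^ m / 4))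
              have f5 : (pp h a - pp h β₀) * (4 ^ m / 4) - (pp h c - pp h β₀) * (4 ^ m / 4) =
                (pp h a - pp h c) * (4 ^ m / 4) := by ring
              rw [e2] at f3
              linarith
            · rw [if_neg c1, if_pos c1', if_neg c2, if_neg c2'] at he
              simp at he
        · by_cases c2 : 0 ≤ LL h c ∧ 0 ≤ LL h d
          · rw [if_neg c1, if_neg c1', if_pos c2] at he
            simp at he
          · by_cases c2' : LL h c ≤ 0 ∧ LL h d ≤ 0
            · rw [if_neg c1, if_neg c1', if_neg c2, if_pos c2'] at he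
              simp at he
            · -- both have opposite signs
              clear he
              have w1 : (b - a) * h.1 = LL h a - LL h b := by linarith
              have w2 : (c - b) * h.1 = LL h b - LL h c := by linarith
              have w3 : (d - c) * h.1 = LL h c - LL h d := by linarith
              rcases le_total 0 h.1 with h0 | h0
              · have v1 : 0 ≤ (b - a) * h.1 := mul_nonneg (by linarith) h0
                have v2 : 0 ≤ (c - b) * h.1 := mul_nonneg (by linarith) h0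
                have v3 : 0 ≤ (d - c) * h.1 := mul_nonneg (by linarith) h0
                have u1 : LL h b < 0 := by
                  by_contra hcon
                  push_neg at hcon
                  exact c1 ⟨by linarith, hcon⟩
                exact c2' ⟨by linarith, by linarith⟩
              · have v1 : (b - a) * h.1 ≤ 0 := mul_nonpos_of_nonneg_of_nonpos (by linarith) h0
                have v2 : (c - b) * h.1 ≤ 0 := mul_nonpos_of_nonneg_of_nonpos (by linarith) h0
                have v3 : (d - c) * h.1 ≤ 0 := mul_nonpos_of_nonneg_of_nonpos (by linarith) h0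
                have u1 : 0 < LL h b := by
                  by_contra hcon
                  push_neg at hcon
                  exact c1' ⟨by linarith, hcon⟩
                exact c2 ⟨by linarith, by linarith⟩

/-- (CNT) -/
theorem s_cnt : S_cnt := by
  refine ⟨(Finset.range 4 ×ˢ Finset.Icc (-50 : ℤ) 50).card, ?_⟩
  intro m h k j hg
  rw [← Set.ncard_coe_finset]
  have hD : (0 : ℝ) < 4 ^ m := by positivity
  apply Set.ncard_le_ncard_of_injOn (code m h (j / 2 ^ k))
  · rintro τ ⟨hτ, hτ2, β, β', b1, b2, b3, b4, b5⟩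
    have u1 := upper m h k j hg.2.1 β b1 b2
    have u2 := upper m h τ.1 τ.2 hτ.2.1 β' b3 b4
    have key : |pp h (τ.2 / 2 ^ τ.1) - pp h (j / 2 ^ k)| ≤ 165 / 4 ^ m := by
      have e1 : (165 : ℝ) / 4 ^ m = 32 / 4 ^ m + 101 / 4 ^ m + 32 / 4 ^ m := by ring
      rw [e1]
      rw [abs_le] at *
      constructor <;> linarith [u1.1, u1.2, u2.1, u2.2, b5.1, b5.2]
    have key2 : ⌊(pp h (τ.2 / 2 ^ τ.1) - pp h (j / 2 ^ k)) * (4 ^ m / 4)⌋ ∈
        Finset.Icc (-50 : ℤ) 50 := by
      rw [Finset.mem_Icc]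
      rw [abs_le] at key
      have e2 : (165 : ℝ) / 4 ^ m * (4 ^ m / 4) = 165 / 4 := by field_simp
      have k1 : (pp h (τ.2 / 2 ^ τ.1) - pp h (j / 2 ^ k)) * (4 ^ m / 4) ≤ 165 / 4 := by
        rw [← e2]; exact mul_le_mul_of_nonneg_right key.2 (by positivity)
      have k2 : -(165 / 4) ≤ (pp h (τ.2 / 2 ^ τ.1) - pp h (j / 2 ^ k)) * (4 ^ m / 4) := by
        rw [← e2, ← neg_mul]; exact mul_le_mul_of_nonneg_right key.1 (by positivity)
      constructor
      · rw [Int.le_floor]; push_cast; linarith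
      · have := Int.floor_le ((pp h (τ.2 / 2 ^ τ.1) - pp h (j / 2 ^ k)) * (4 ^ m / 4))
        have h3 : ((⌊(pp h (τ.2 / 2 ^ τ.1) - pp h (j / 2 ^ k)) * (4 ^ m / 4)⌋ : ℤ) : ℝ) ≤ (50 : ℤ) := by
          push_cast; linarith
        exact_mod_cast h3
    rw [Finset.mem_Icc] at key2
    simp only [Finset.coe_product, Set.mem_prod, Finset.coe_range, Set.mem_Iio, Finset.coe_Icc,
      Set.mem_Icc]
    unfold code
    split_ifs with i1 i2 i3
    · rw [i1] at hτ2
      norm_num at hτ2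
      rw [abs_le] at hτ2
      exact ⟨by norm_num, by simp only; omega, by simp only; omega⟩
    · exact ⟨by norm_num, key2.1, key2.2⟩
    · exact ⟨by norm_num, key2.1, key2.2⟩
    · exact ⟨by norm_num, by norm_num, by norm_num⟩
  · rintro τ ⟨hτ, -⟩ σ ⟨hσ, -⟩ he
    by_contra hne
    have hne' : ¬ (τ.1 = σ.1 ∧ τ.2 = σ.2) := fun hh => hne (Prod.ext hh.1 hh.2)
    rcases le_total τ.1 σ.1 with hle | hle
    · rcases disj m h τ.1 σ.1 τ.2 σ.2 hτ hσ hle hne' with ho | ho
      · exact code_ne m h _ τ σ hτ hσ ho he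
      · exact code_ne m h _ σ τ hσ hτ ho he.symm
    · rcases disj m h σ.1 τ.1 σ.2 τ.2 hσ hτ hle (fun hh => hne' ⟨hh.1.symm, hh.2.symm⟩) with ho | ho
      · exact code_ne m h _ σ τ hσ hτ ho he.symm
      · exact code_ne m h _ τ σ hτ hσ ho he

end Pool.Agent.T9h70.LG
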