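import Pool.Agent.T9h70.LG.Corr
import Pool.Agent.T9h70.LG.Cnt
import Pool.Agent.T9h89.LG.Ng

/-!
# (NEAR): orthogonality of the near pairs (helper70)
-/

set_option autoImplicit false

namespace Pool.Agent.T9h70.LG

open Pool.Agent.T9h44.LG MeasureTheory Real
open scoped ENNReal ComplexConjugate

lemma ediv_pow_succ (i : ℤ) (e : ℕ) : i / 2 ^ (e + 1) = (i / 2 ^ e) / 2 := by
  rw [pow_succ, Int.ediv_ediv_of_nonneg (by positivity)]

/-- the group of a good index -/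
lemma exists_group (m : ℕ) (h : ℝ × ℝ) (i : ℤ) (hg : good m h m i) :
    ∃ k ≤ m, gmax m h k (i / 2 ^ (m - k)) := by
  classical
  have hex : ∃ k, k ≤ m ∧ good m h k (i / 2 ^ (m - k)) := ⟨m, le_rfl, by simpa using hg⟩
  obtain ⟨hk1, hk2⟩ := Nat.find_spec hex
  refine ⟨Nat.find hex, hk1, hk1, hk2, ?_⟩
  by_contra hcon
  push Not at hcon
  obtain ⟨h0, hgd⟩ := hcon
  have h1 := Nat.find_min hex (m := Nat.find hex - 1) (by omega)
  apply h1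
  refine ⟨by omega, ?_⟩
  have e1 : m - (Nat.find hex - 1) = (m - Nat.find hex) + 1 := by omega
  rw [e1, ediv_pow_succ]
  exact hgd

lemma group_unique_aux (m : ℕ) (h : ℝ × ℝ) (i : ℤ) (k k' : ℕ) (hk : k < k')
    (h1 : gmax m h k (i / 2 ^ (m - k))) (h2 : gmax m h k' (i / 2 ^ (m - k'))) : False := by
  have hk' : k' ≤ m := h2.1
  rcases h2.2.2 with h3 | h3
  · omega
  · apply h3
    rw [← ediv_pow_succ]
    have e1 : k' - 1 = k + (k' - 1 - k) := by omega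
    rw [e1]
    apply good_desc
    have e2 : i / 2 ^ (m - k' + 1) / 2 ^ (k' - 1 - k) = i / 2 ^ (m - k) := by
      rw [Int.ediv_ediv_of_nonneg (by positivity), ← pow_add]
      congr 2
      omega
    rw [e2]
    exact h1.2.1

lemma group_unique (m : ℕ) (h : ℝ × ℝ) (i : ℤ) (k k' : ℕ)
    (h1 : gmax m h k (i / 2 ^ (m - k))) (h2 : gmax m h k' (i / 2 ^ (m - k'))) : k = k' := by
  rcases lt_trichotomy k k' with h3 | h3 | h3
  · exact (group_unique_aux m h i k k' h3 h1 h2).elim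
  · exact h3
  · exact (group_unique_aux m h i k' k h3 h2 h1).elim

lemma ediv_range (m k : ℕ) (hk : k ≤ m) (i : ℤ) (h1 : -(9 * 2 ^ m) ≤ i) (h2 : i ≤ 9 * 2 ^ m) :
    -(9 * 2 ^ k) ≤ i / 2 ^ (m - k) ∧ i / 2 ^ (m - k) ≤ 9 * 2 ^ k := by
  have hp : (0 : ℤ) < 2 ^ (m - k) := by positivity
  have e1 : (2 : ℤ) ^ m = 2 ^ k * 2 ^ (m - k) := by rw [← pow_add]; congr 1; omega
  constructor
  · rw [Int.le_ediv_iff_mul_le hp]
    rw [e1] at h1
    linarith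
  · have h3 : i / 2 ^ (m - k) * 2 ^ (m - k) ≤ i := Int.ediv_mul_le _ hp.ne'
    by_contra hcon
    push Not at hcon
    have h4 : (9 * 2 ^ k + 1) * 2 ^ (m - k) ≤ i / 2 ^ (m - k) * 2 ^ (m - k) :=
      mul_le_mul_of_nonneg_right hcon hp.le
    rw [e1] at h2
    linarith

/-- the index set of the groups -/
noncomputable def groups (m : ℕ) : Finset (Σ _ : ℕ, ℤ) :=
  (Finset.range (m + 1)).sigma fun k => Finset.Icc (-(9 * 2 ^ k) : ℤ) (9 * 2 ^ k)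

open Classical in
/-- the sum is the sum over the groups -/
lemma sum_groups (m : ℕ) (h : ℝ × ℝ) (f : ℤ → ℂ) (hf : ∀ i, f i ≠ 0 → good m h m i) :
    ∑ i ∈ Finset.Icc (-(9 * 2 ^ m) : ℤ) (9 * 2 ^ m), f i =
      ∑ x ∈ (groups m).filter (fun x => gmax m h x.1 x.2),
        ∑ i ∈ (Finset.Icc (-(9 * 2 ^ m) : ℤ) (9 * 2 ^ m)).filter
          (fun i => i / 2 ^ (m - x.1) = x.2), f i := by
  simp_rw [Finset.sum_filter (fun i : ℤ => _) (fun i : ℤ => f i)]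
  rw [Finset.sum_comm]
  refine Finset.sum_congr rfl fun i hi => ?_
  by_cases h0 : f i = 0
  · simp [h0]
  · obtain ⟨k, hk, hg⟩ := exists_group m h i (hf i h0)
    rw [Finset.mem_Icc] at hi
    have hr := ediv_range m k hk i hi.1 hi.2
    rw [Finset.sum_eq_single (⟨k, i / 2 ^ (m - k)⟩ : Σ _ : ℕ, ℤ)]
    · simp
    · rintro ⟨k', j'⟩ hx hne
      rw [Finset.mem_filter] at hx
      simp only
      split_ifs with hj
      · exfalso
        apply hne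
        subst hj
        have := group_unique m h i k k' hg hx.2
        subst this
        rfl
      · rfl
    · intro hx
      exfalso
      apply hx
      rw [Finset.mem_filter]
      refine ⟨?_, hg⟩
      unfold groups
      rw [Finset.mem_sigma]
      exact ⟨by simp only [Finset.mem_range]; omega, by
        simp only [Finset.mem_Icc]; exact hr⟩

lemma base_mem (m k : ℕ) (hk : k ≤ m) (i j : ℤ) (hj : i / 2 ^ (m - k) = j) :
    (j : ℝ) / 2 ^ k ≤ (i : ℝ) / 2 ^ m ∧ (i : ℝ) / 2 ^ m ≤ ((j : ℝ) + 1) / 2 ^ k := by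
  have hp : (0 : ℤ) < 2 ^ (m - k) := by positivity
  have h1 : j * 2 ^ (m - k) ≤ i := by rw [← hj]; exact Int.ediv_mul_le _ hp.ne'
  have h2 : i < (j + 1) * 2 ^ (m - k) := by
    rw [← hj]; exact Int.lt_ediv_add_one_mul_self _ hp
  have h1' : (j : ℝ) * 2 ^ (m - k) ≤ i := by exact_mod_cast h1
  have h2' : (i : ℝ) ≤ ((j : ℝ) + 1) * 2 ^ (m - k) := by exact_mod_cast h2.le
  have e1 : (2 : ℝ) ^ m = 2 ^ (m - k) * 2 ^ k := by rw [← pow_add]; congr 1; omega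
  have hk0 : (0 : ℝ) < 2 ^ k := by positivity
  have hmk : (0 : ℝ) < 2 ^ (m - k) := by positivity
  constructor
  · rw [div_le_div_iff₀ hk0 (by positivity), e1, ← mul_assoc]
    exact mul_le_mul_of_nonneg_right h1' hk0.le
  · rw [div_le_div_iff₀ (by positivity) hk0, e1, ← mul_assoc]
    exact mul_le_mul_of_nonneg_right h2' hk0.le

theorem s_near : S_near := by
  classical
  obtain ⟨M, hM⟩ := s_cnt
  intro κ κh hκ
  refine ⟨M + 1, by positivity, ?_⟩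
  intro m l G hl hG c hc hc3 h γ₀
  set I : Finset ℤ := Finset.Icc (-(9 * 2 ^ m) : ℤ) (9 * 2 ^ m) with hI
  set A : (Σ _ : ℕ, ℤ) → Finset ℤ := fun x => I.filter (fun i => i / 2 ^ (m - x.1) = x.2) with hA
  set P := (groups m).filter (fun x => gmax m h x.1 x.2) with hP
  -- facts on a nonzero term
  have hterm : ∀ i₁ i₂ ζ, c i₁ i₂ * tt m G h i₁ i₂ ζ ≠ 0 →
      good m h m i₁ ∧ |ph h ζ - pp h (i₁ / 2 ^ m)| ≤ 50 / 4 ^ m := by
    intro i₁ i₂ ζ hne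
    obtain ⟨h1, h2, h3, h4⟩ := tt_ne (right_ne_zero_of_mul hne)
    exact T9h89.LG.s_ng m l hl h ζ (hG.2 _ h2) (hG.2 _ h1) i₁ i₂ h3 h4
      (hc3 i₁ i₂ (left_ne_zero_of_mul hne))
  set a : (Σ _ : ℕ, ℤ) → ℝ × ℝ → ℂ := fun x ζ =>
    ∑ i₁ ∈ A x, ∑ i₂ ∈ I, c i₁ i₂ * tt m G h i₁ i₂ ζ with ha
  have haint : ∀ x, Integrable (a x) := fun x => sum_tt_integrable m hG.1 h (A x) I c
  -- the total sum
  have htot : ∀ γ : ℝ, ∑ i₁ ∈ I, ∑ i₂ ∈ I, c i₁ i₂ *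
      cc (Gp m i₁ (Uo γ G)) (Gp m i₂ (Uo γ G)) h =
      ∑ p : {x // x ∈ P}, ∫ ζ, ee (γ * ph h ζ) * a p.1 ζ := by
    intro γ
    rw [sum_cc m hG.1 h I I c γ]
    have e1 : ∀ ζ, ∑ i₁ ∈ I, ∑ i₂ ∈ I, c i₁ i₂ * tt m G h i₁ i₂ ζ = ∑ x ∈ P, a x ζ := by
      intro ζ
      apply sum_groups m h (fun i₁ => ∑ i₂ ∈ I, c i₁ i₂ * tt m G h i₁ i₂ ζ)
      intro i hi
      obtain ⟨i₂, -, h2⟩ := Finset.exists_ne_zero_of_sum_ne_zero hi
      exact (hterm i i₂ ζ h2).1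
    simp_rw [e1]
    rw [Finset.sum_coe_sort P (fun x => ∫ ζ, ee (γ * ph h ζ) * a x ζ),
      ← integral_finsetSum _ fun x _ => ee_mul_integrable (measurable_ph h) (haint x) γ]
    congr 1
    funext ζ
    rw [Finset.mul_sum]
  have hgrp : ∀ (x : Σ _ : ℕ, ℤ) (γ : ℝ), ∫ ζ, ee (γ * ph h ζ) * a x ζ =
      ∑ i₁ ∈ A x, ∑ i₂ ∈ I, c i₁ i₂ * cc (Gp m i₁ (Uo γ G)) (Gp m i₂ (Uo γ G)) h :=
    fun x γ => (sum_cc m hG.1 h (A x) I c γ).symm
  -- the base point of a nonzero group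
  have hbase : ∀ x ∈ P, ∀ ζ, a x ζ ≠ 0 → ∃ β : ℝ, (x.2 : ℝ) / 2 ^ x.1 ≤ β ∧
      β ≤ ((x.2 : ℝ) + 1) / 2 ^ x.1 ∧ |ph h ζ - pp h β| ≤ 50 / 4 ^ m := by
    intro x hx ζ hne
    obtain ⟨i₁, hi₁, h1⟩ := Finset.exists_ne_zero_of_sum_ne_zero hne
    obtain ⟨i₂, -, h2⟩ := Finset.exists_ne_zero_of_sum_ne_zero h1
    rw [Finset.mem_filter] at hx hi₁
    have h3 := base_mem m x.1 hx.2.1 i₁ x.2 hi₁.2
    exact ⟨_, h3.1, h3.2, (hterm i₁ i₂ ζ h2).2⟩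
  have hPmem : ∀ x ∈ P, x.1 ≤ m ∧ |x.2| ≤ 9 * 2 ^ x.1 ∧ gmax m h x.1 x.2 := by
    intro x hx
    rw [Finset.mem_filter] at hx
    obtain ⟨h1, h2⟩ := hx
    unfold groups at h1
    rw [Finset.mem_sigma] at h1
    have h3 := h1.2
    simp only [Finset.mem_Icc] at h3
    exact ⟨h2.1, abs_le.mpr h3, h2⟩
  -- the count
  have hcount : ∀ p : {x // x ∈ P}, Set.ncard {p' : {x // x ∈ P} | ∃ ζ ζ', a p.1 ζ ≠ 0 ∧
      a p'.1 ζ' ≠ 0 ∧ |ph h ζ - ph h ζ'| < 1 / 4 ^ m} ≤ M := by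
    intro p
    refine le_trans ?_ (hM m h p.1.1 p.1.2 (hPmem p.1 p.2).2.2)
    refine Set.ncard_le_ncard_of_injOn (fun p' : {x // x ∈ P} => ((p'.1.1, p'.1.2) : ℕ × ℤ))
      ?_ ?_ ?_
    · rintro p' ⟨ζ, ζ', h1, h2, h3⟩
      obtain ⟨β, b1, b2, b3⟩ := hbase p.1 p.2 ζ h1
      obtain ⟨β', b1', b2', b3'⟩ := hbase p'.1 p'.2 ζ' h2
      refine ⟨(hPmem p'.1 p'.2).2.2, (hPmem p'.1 p'.2).2.1, β, β', b1, b2, b1', b2', ?_⟩
      have e1 : (101 : ℝ) / 4 ^ m = 50 / 4 ^ m + 1 / 4 ^ m + 50 / 4 ^ m := by ring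
      rw [e1]
      rw [abs_lt] at h3
      rw [abs_le] at b3 b3' ⊢
      constructor <;> linarith [h3.1, h3.2, b3.1, b3.2, b3'.1, b3'.2]
    · rintro ⟨⟨k, j⟩, hp⟩ - ⟨⟨k', j'⟩, hp'⟩ - heq
      simp only [Prod.mk.injEq] at heq
      obtain ⟨rfl, rfl⟩ := heq
      rfl
    · apply Set.Finite.subset
        ((Finset.range (m + 1) ×ˢ Finset.Icc (-(9 * 2 ^ m) : ℤ) (9 * 2 ^ m)).finite_toSet)
      rintro ⟨k, j⟩ ⟨h1, h2, -⟩
      have hk : k ≤ m := h1.1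
      have h4 : (9 : ℤ) * 2 ^ k ≤ 9 * 2 ^ m :=
        mul_le_mul_of_nonneg_left (pow_le_pow_right₀ (by norm_num) hk) (by norm_num)
      rw [abs_le] at h2
      simp only [Finset.coe_product, Set.mem_prod, Finset.coe_range, Set.mem_Iio,
        Finset.coe_Icc, Set.mem_Icc]
      exact ⟨by omega, by linarith [h2.1], by linarith [h2.2]⟩
  have key := ort_shift hκ (fun p : {x // x ∈ P} => a p.1) (ph h) (4 ^ m) γ₀ M (by positivity)
    (measurable_ph h) (fun p => haint p.1) hcount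
  simp_rw [htot]
  refine key.trans ?_
  have e5 : (M : ℝ≥0∞) ≤ ENNReal.ofReal ((M : ℝ) + 1) := by
    rw [← ENNReal.ofReal_natCast]
    exact ENNReal.ofReal_le_ofReal (by linarith)
  refine mul_le_mul' e5 (le_of_eq ?_)
  rw [Finset.sum_coe_sort P (fun x => ∫⁻ γ : ℝ, ENNReal.ofReal (κ ((γ - γ₀) / 4 ^ m)) *
    ‖∫ ζ, ee (γ * ph h ζ) * a x ζ‖ₑ ^ 2), hP, Finset.sum_filter]
  unfold groups
  rw [Finset.sum_sigma]
  refine Finset.sum_congr rfl fun k _ => Finset.sum_congr rfl fun j _ => ?_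
  rw [Set.indicator_apply]
  simp only [hgrp, Set.mem_ofPred_eq]
  congr 1

end Pool.Agent.T9h70.LG
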