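import Pool.Agent.T9h44.LG.Spec3
import Pool.Agent.T9h82.LS.HI

/-!
# (HM): the multiplier of the link is bounded (helper70)
-/

set_option autoImplicit false

namespace Pool.Agent.T9h70.LG

open MeasureTheory Real Pool.Agent.T9h44.LG Pool.Agent.N303.LS Pool.Agent.N558.LS
  Pool.Agent.T9h44.LS4 Pool.Agent.T9h44.LS5
open Filter Topology Set
open scoped ENNReal SchwartzMap RealInnerProductSpace ContDiff Pointwise

variable {n : ℕ}

lemma Pb_zero (M : ℕ) : (Pb M).eval 0 = 1 := by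
  induction M with
  | zero => simp [Pb]
  | succ M ih => simp [Pb, ih]

lemma Pb_near (M : ℕ) : ∃ r : ℝ, 0 < r ∧ ∀ z : ℂ, ‖z‖ < r → (Pb M).eval z ≠ 0 := by
  have h1 : ContinuousAt (fun z : ℂ => (Pb M).eval z) 0 := (Pb M).continuous.continuousAt
  have h2 : ∀ᶠ z in 𝓝 (0 : ℂ), (Pb M).eval z ≠ 0 := by
    apply h1.eventually_ne
    rw [Pb_zero]
    exact one_ne_zero
  obtain ⟨r, hr, h⟩ := Metric.eventually_nhds_iff.1 h2
  exact ⟨r, hr, fun z hz => h (by rwa [dist_zero_right])⟩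

lemma tau_norm_ge' (y t : ℝ) : t ≤ ‖tau y t‖ := by
  calc t ≤ |(tau y t).re| := by
        have : (tau y t).re = t := by unfold tau; simp
        rw [this]
        exact le_abs_self t
    _ ≤ ‖tau y t‖ := Complex.abs_re_le_norm _

/-- the argument of the polynomial -/
noncomputable def zz (y Q t : ℝ) : ℂ := (y : ℂ) / (2 * π * Complex.I * (Real.sqrt Q : ℝ) * tau y t)

lemma zz_norm (y Q t : ℝ) (hQ : 1 / 16 ≤ Q) (ht : 1 / 2 < t) : ‖zz y Q t‖ ≤ 2 * |y| := by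
  unfold zz
  have hs : 1 / 4 ≤ Real.sqrt Q := by
    apply Real.le_sqrt_of_sq_le
    linarith
  have hτ := tau_norm_ge' y t
  rw [norm_div, norm_mul, norm_mul, norm_mul, norm_mul, Complex.norm_I, mul_one,
    Complex.norm_real, Complex.norm_real, Complex.norm_real, Complex.norm_ofNat,
    Real.norm_of_nonneg Real.pi_pos.le, Real.norm_of_nonneg (Real.sqrt_nonneg _),
    Real.norm_eq_abs]
  have hπ := Real.pi_gt_three
  have h1 : 1 / 2 ≤ 2 * π * Real.sqrt Q * ‖tau y t‖ := by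
    have h2 : 1 ≤ 2 * π * Real.sqrt Q := by nlinarith
    nlinarith
  rw [div_le_iff₀ (by linarith)]
  nlinarith [abs_nonneg y]

lemma Qd_lower {γ : Fin n → ℝ} (hγ : ∀ i, 1 / 4 < γ i) {η : E n} (h : 1 / 2 ≤ ‖η‖) :
    1 / 16 ≤ Qd γ η := by
  have h1 : (1 / 4) * ‖η‖ ^ 2 ≤ Qd γ η := by
    unfold Qd
    rw [EuclideanSpace.norm_sq_eq, Finset.mul_sum]
    refine Finset.sum_le_sum fun i _ => ?_
    rw [Real.norm_eq_abs, sq_abs]
    nlinarith [sq_nonneg (η i), hγ i]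
  nlinarith

/-- (HM) -/
theorem s_hm (n : ℕ) : S_hm n := by
  have hE3 : S_E3 n := Pool.Agent.T9h82.LS.e3 n (Pool.Agent.T9h82.LS.e2 n)
  intro M a b
  obtain ⟨r, hr, hPb⟩ := Pb_near M
  set U : Set (ℝ × (Fin n → ℝ) × ℝ × ℝ) :=
    {p | 1 / 2 < p.1 ∧ (∀ i, 1 / 4 < p.2.1 i) ∧ -(1 / 4) < p.2.2.1 ∧ |p.2.2.2| < r / 2} with hU
  set K : Set (ℝ × (Fin n → ℝ) × ℝ × ℝ) :=
    Icc (1 : ℝ) 2 ×ˢ ((Set.univ.pi fun _ => Icc (1 / 2 : ℝ) 1) ×ˢ (Icc (0 : ℝ) 1 ×ˢ
      Icc (0 : ℝ) (r / 4))) with hK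
  have hUo : IsOpen U := by
    have e : U = {p | 1 / 2 < p.1} ∩ ((⋂ i, {p | 1 / 4 < p.2.1 i}) ∩ ({p | -(1 / 4) < p.2.2.1} ∩
        {p | |p.2.2.2| < r / 2})) := by
      ext p
      simp [hU]
    rw [e]
    refine (isOpen_lt continuous_const continuous_fst).inter
      ((isOpen_iInter_of_finite fun i => ?_).inter (IsOpen.inter ?_ ?_))
    · exact isOpen_lt continuous_const (by fun_prop)
    · exact isOpen_lt continuous_const (by fun_prop)
    · exact isOpen_lt (by fun_prop) continuous_const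
  have hKc : IsCompact K :=
    isCompact_Icc.prod ((isCompact_univ_pi fun _ => isCompact_Icc).prod
      (isCompact_Icc.prod isCompact_Icc))
  have hKU : K ⊆ U := by
    rintro ⟨t, γ, κ, y⟩ ⟨ht, hγ, hκ, hy⟩
    refine ⟨?_, fun i => ?_, ?_, ?_⟩
    · have : (1 : ℝ) ≤ t := ht.1
      change 1 / 2 < t
      linarith
    · have := (hγ i (mem_univ i)).1
      change 1 / 4 < γ i
      linarith
    · have : (0 : ℝ) ≤ κ := hκ.1
      change -(1 / 4) < κ
      linarith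
    · have h1 : (0 : ℝ) ≤ y := hy.1
      have h2 : y ≤ r / 4 := hy.2
      change |y| < r / 2
      rw [abs_of_nonneg h1]
      linarith
  set Θ : (ℝ × (Fin n → ℝ) × ℝ × ℝ) × E n → ℂ := fun q =>
    ((Real.exp (2 * π / q.1.1 * Real.sqrt (Qd q.1.2.1 q.2)) * Qd q.1.2.1 q.2 ^ (-((M : ℝ) / 2)) *
        (Qd q.1.2.1 q.2 ^ b * (q.1.2.2.1 + 4 * π ^ 2 * ‖q.2‖ ^ 2) ^ a * psi n q.2) : ℝ) : ℂ) /
      (Pb M).eval (zz q.1.2.2.2 (Qd q.1.2.1 q.2) q.1.1) with hΘ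
  have hsm : ContDiffOn ℝ ∞ Θ (U ×ˢ univ) := by
    rintro ⟨⟨t, γ, κ, y⟩, η⟩ ⟨⟨ht, hγ, hκ, hy⟩, -⟩
    refine ContDiffAt.contDiffWithinAt ?_
    change 1 / 2 < t at ht
    change ∀ i, 1 / 4 < γ i at hγ
    change -(1 / 4) < κ at hκ
    change |y| < r / 2 at hy
    by_cases hη : ‖η‖ < 1 / 2
    · have hc : ContDiffAt ℝ ∞ (fun _ : (ℝ × (Fin n → ℝ) × ℝ × ℝ) × E n => (0 : ℂ))
          ((t, γ, κ, y), η) := contDiffAt_const
      refine hc.congr_of_eventuallyEq ?_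
      have ho : IsOpen {q : (ℝ × (Fin n → ℝ) × ℝ × ℝ) × E n | ‖q.2‖ < 1 / 2} :=
        isOpen_lt (by fun_prop) continuous_const
      filter_upwards [ho.mem_nhds hη] with q hq
      have hq' : ‖q.2‖ < 1 / 2 := hq
      rw [hΘ]
      beta_reduce
      rw [psi_low _ hq', mul_zero, mul_zero, Complex.ofReal_zero, zero_div]
    · have hη' : 1 / 2 ≤ ‖η‖ := not_lt.1 hη
      have hQ16 : 1 / 16 ≤ Qd γ η := Qd_lower hγ hη'
      have hQ : 0 < Qd γ η := by linarith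
      have hB : 0 < κ + 4 * π ^ 2 * ‖η‖ ^ 2 := by
        have hπ := Real.pi_gt_three
        have : (1 / 2 : ℝ) ^ 2 ≤ ‖η‖ ^ 2 := by gcongr
        nlinarith [mul_pos Real.pi_pos Real.pi_pos]
      have c1 : ContDiffAt ℝ ∞ (fun q : (ℝ × (Fin n → ℝ) × ℝ × ℝ) × E n => Qd q.1.2.1 q.2)
          ((t, γ, κ, y), η) := by
        have : ContDiff ℝ ∞ (fun q : (ℝ × (Fin n → ℝ) × ℝ × ℝ) × E n => (q.1.2.1, q.2)) := by
          fun_prop
        exact (Pool.Agent.T9h82.LS.contDiff_Qd.comp this).contDiffAt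
      have ct : ContDiffAt ℝ ∞ (fun q : (ℝ × (Fin n → ℝ) × ℝ × ℝ) × E n => q.1.1)
          ((t, γ, κ, y), η) := (contDiff_fst.comp contDiff_fst).contDiffAt
      have cy : ContDiffAt ℝ ∞ (fun q : (ℝ × (Fin n → ℝ) × ℝ × ℝ) × E n => q.1.2.2.2)
          ((t, γ, κ, y), η) := by
        have : ContDiff ℝ ∞ (fun q : (ℝ × (Fin n → ℝ) × ℝ × ℝ) × E n => q.1.2.2.2) := by fun_prop
        exact this.contDiffAt
      have ht0 : t ≠ 0 := by linarith
      have c2 : ContDiffAt ℝ ∞ (fun q : (ℝ × (Fin n → ℝ) × ℝ × ℝ) × E n => 2 * π / q.1.1)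
          ((t, γ, κ, y), η) := contDiffAt_const.div ct ht0
      have c3 : ContDiffAt ℝ ∞ (fun q : (ℝ × (Fin n → ℝ) × ℝ × ℝ) × E n =>
          q.1.2.2.1 + 4 * π ^ 2 * ‖q.2‖ ^ 2) ((t, γ, κ, y), η) := by
        have d1 : ContDiff ℝ ∞ (fun q : (ℝ × (Fin n → ℝ) × ℝ × ℝ) × E n => q.1.2.2.1) := by
          fun_prop
        have d2 : ContDiff ℝ ∞ (fun q : (ℝ × (Fin n → ℝ) × ℝ × ℝ) × E n => ‖q.2‖ ^ 2) :=
          (contDiff_norm_sq ℝ).comp contDiff_snd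
        exact (d1.add (contDiff_const.mul d2)).contDiffAt
      have c4 : ContDiffAt ℝ ∞ (fun q : (ℝ × (Fin n → ℝ) × ℝ × ℝ) × E n => psi n q.2)
          ((t, γ, κ, y), η) := (psi_smooth.comp contDiff_snd).contDiffAt
      have cs : ContDiffAt ℝ ∞ (fun q : (ℝ × (Fin n → ℝ) × ℝ × ℝ) × E n =>
          Real.sqrt (Qd q.1.2.1 q.2)) ((t, γ, κ, y), η) := c1.sqrt hQ.ne'
      have c5 : ContDiffAt ℝ ∞ (fun q : (ℝ × (Fin n → ℝ) × ℝ × ℝ) × E n =>
          Real.exp (2 * π / q.1.1 * Real.sqrt (Qd q.1.2.1 q.2)) *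
            Qd q.1.2.1 q.2 ^ (-((M : ℝ) / 2)) * (Qd q.1.2.1 q.2 ^ b *
            (q.1.2.2.1 + 4 * π ^ 2 * ‖q.2‖ ^ 2) ^ a * psi n q.2)) ((t, γ, κ, y), η) := by
        refine ContDiffAt.mul (ContDiffAt.mul ?_ ?_) (ContDiffAt.mul (ContDiffAt.mul ?_ ?_) c4)
        · exact (c2.mul cs).exp
        · exact c1.rpow_const_of_ne hQ.ne'
        · exact c1.rpow_const_of_ne hQ.ne'
        · exact c3.rpow_const_of_ne hB.ne'
      have hof : ∀ {f : (ℝ × (Fin n → ℝ) × ℝ × ℝ) × E n → ℝ},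
          ContDiffAt ℝ ∞ f ((t, γ, κ, y), η) →
          ContDiffAt ℝ ∞ (fun q => ((f q : ℝ) : ℂ)) ((t, γ, κ, y), η) := fun hf =>
        Complex.ofRealCLM.contDiff.contDiffAt.comp _ hf
      -- the denominator
      have cτ : ContDiffAt ℝ ∞ (fun q : (ℝ × (Fin n → ℝ) × ℝ × ℝ) × E n =>
          tau q.1.2.2.2 q.1.1) ((t, γ, κ, y), η) := by
        unfold tau
        exact (hof ct).add ((hof (cy.div ct ht0)).mul contDiffAt_const)
      have hτ0 : tau y t ≠ 0 := by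
        intro h
        have := tau_norm_ge' y t
        rw [h, norm_zero] at this
        linarith
      have hs0 : ((Real.sqrt (Qd γ η) : ℝ) : ℂ) ≠ 0 := by
        have : 0 < Real.sqrt (Qd γ η) := Real.sqrt_pos.2 hQ
        exact_mod_cast this.ne'
      have hπ0 : (π : ℂ) ≠ 0 := by exact_mod_cast Real.pi_ne_zero
      have cz : ContDiffAt ℝ ∞ (fun q : (ℝ × (Fin n → ℝ) × ℝ × ℝ) × E n =>
          zz q.1.2.2.2 (Qd q.1.2.1 q.2) q.1.1) ((t, γ, κ, y), η) := by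
        unfold zz
        simp only [div_eq_mul_inv]
        refine (hof cy).mul (ContDiffAt.inv ?_ ?_)
        · exact ((contDiffAt_const).mul (hof cs)).mul cτ
        · exact mul_ne_zero (mul_ne_zero (mul_ne_zero (mul_ne_zero two_ne_zero hπ0)
            Complex.I_ne_zero) hs0) hτ0
      have cP : ContDiff ℝ ∞ (fun z : ℂ => (Pb M).eval z) := by
        have : ContDiff ℂ ∞ (fun z : ℂ => (Pb M).eval z) := by
          simpa using (Pb M).contDiff_aeval (𝕜 := ℂ) ∞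
        exact this.restrict_scalars ℝ
      have cD : ContDiffAt ℝ ∞ (fun q : (ℝ × (Fin n → ℝ) × ℝ × ℝ) × E n =>
          (Pb M).eval (zz q.1.2.2.2 (Qd q.1.2.1 q.2) q.1.1)) ((t, γ, κ, y), η) :=
        cP.contDiffAt.comp _ cz
      have hD0 : (Pb M).eval (zz y (Qd γ η) t) ≠ 0 := by
        apply hPb
        have := zz_norm y (Qd γ η) t hQ16 ht
        linarith
      have c6 := (hof c5).mul (cD.inv hD0)
      refine c6.congr_of_eventuallyEq (Filter.Eventually.of_forall fun q => ?_)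
      rw [hΘ]
      exact div_eq_mul_inv _ _
  have hz : ∀ p ∈ U, ∀ ξ ∉ Metric.closedBall (0 : E n) 2, Θ (p, ξ) = 0 := by
    intro p _ ξ hξ
    have hξ' : 2 < ‖ξ‖ := by
      by_contra hcon
      exact hξ (by simpa using not_lt.1 hcon)
    rw [hΘ]
    beta_reduce
    rw [psi_high _ hξ', mul_zero, mul_zero, Complex.ofReal_zero, zero_div]
  obtain ⟨C, hC0, hC⟩ := hE3 _ U K hUo hKc hKU Θ hsm _ (isCompact_closedBall 0 2) hz
  refine ⟨r / 4, C, by positivity, hC0, fun p hp t ht g hg κ hκ y hy hy0 R hR => ⟨?_, ?_⟩⟩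
  · intro η hη
    have h1 : 1 / 2 ≤ ‖η‖ := by
      by_contra hcon
      push Not at hcon
      apply hη
      unfold mm
      rw [psi_low η hcon, mul_zero]
    have hQ := Qd_lower (γ := fun i => (g i)⁻¹) (fun i => by
      have := (inv_mem g hg i).1
      linarith) h1
    have h2 := zz_norm y _ t hQ (by linarith [ht.1])
    apply hPb (zz y (Qd (fun i => (g i)⁻¹) η) t)
    rw [abs_of_pos hy] at h2
    linarith
  · exact hC (t, fun i => (g i)⁻¹, κ, y) ⟨ht, fun i _ => inv_mem g hg i, hκ, hy.le, hy0⟩ R hR p hp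

end Pool.Agent.T9h70.LG
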