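import Pool.Agent.T9h44.LG.Spec3

/-!
# (HP): one shell of the wave, from the estimate of the kernels (helper70)
-/

set_option autoImplicit false

namespace Pool.Agent.T9h70.LG

open MeasureTheory Real Pool.Agent.T9h44.LG Pool.Agent.N303.LS Pool.Agent.N558.LS
  Pool.Agent.T9h44.LS4 Pool.Agent.T9h44.LS5
open scoped ENNReal SchwartzMap RealInnerProductSpace FourierTransform

variable {n : ℕ}

lemma norm_sq_eq' (η : E n) : ∑ i, η.ofLp i ^ 2 = ‖η‖ ^ 2 := by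
  rw [EuclideanSpace.norm_sq_eq]
  refine Finset.sum_congr rfl fun i _ => ?_
  rw [Real.norm_eq_abs, sq_abs]

lemma shl_one (η : E n) (h1 : 1 / 2 ≤ ‖η‖) (h2 : ‖η‖ ≤ 2) : shl η.ofLp = 1 := by
  unfold shl
  rw [norm_sq_eq']
  rw [Real.smoothTransition.one_of_one_le (by nlinarith),
    Real.smoothTransition.one_of_one_le (by nlinarith [norm_nonneg η]), mul_one]

lemma shl_ne (η : E n) (h : shl η.ofLp ≠ 0) : 1 / 4 ≤ ‖η‖ ∧ ‖η‖ ≤ 4 := by
  unfold shl at h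
  rw [norm_sq_eq'] at h
  constructor
  · by_contra hcon
    push Not at hcon
    apply h
    rw [Real.smoothTransition.zero_of_nonpos (by nlinarith [norm_nonneg η]), zero_mul]
  · by_contra hcon
    push Not at hcon
    apply h
    rw [Real.smoothTransition.zero_of_nonpos (x := (16 - ‖η‖ ^ 2) / 12) (by nlinarith), mul_zero]

lemma abs_shl_le (x : Fin n → ℝ) : |shl x| ≤ 1 := by
  unfold shl
  rw [abs_mul, abs_of_nonneg (Real.smoothTransition.nonneg _),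
    abs_of_nonneg (Real.smoothTransition.nonneg _)]
  exact mul_le_one₀ (Real.smoothTransition.le_one _) (Real.smoothTransition.nonneg _)
    (Real.smoothTransition.le_one _)

lemma measurable_shl : Measurable (shl : (Fin n → ℝ) → ℝ) := by
  unfold shl
  refine Measurable.mul ?_ ?_
  · exact Real.smoothTransition.continuous.measurable.comp (by fun_prop)
  · exact Real.smoothTransition.continuous.measurable.comp (by fun_prop)

lemma mm_ne {a b : ℝ} {g : Fin n → ℝ} {κ : ℝ} {η : E n} (h : mm a b g κ η ≠ 0) :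
    1 / 2 ≤ ‖η‖ ∧ ‖η‖ ≤ 2 := by
  unfold mm at h
  have h1 := right_ne_zero_of_mul h
  constructor
  · by_contra hcon
    push Not at hcon
    exact h1 (psi_low η hcon)
  · by_contra hcon
    push Not at hcon
    exact h1 (psi_high η hcon)

lemma Qd_pos {g : Fin n → ℝ} (hg : g ∈ box n) {η : E n} (h : 1 / 4 ≤ ‖η‖) :
    1 / 32 ≤ Qd (fun i => (g i)⁻¹) η := by
  have := Qd_ge g hg η
  nlinarith

lemma sixth {g : Fin n → ℝ} (hg : g ∈ box n) {η : E n} (h : 1 / 4 ≤ ‖η‖) :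
    1 / 6 ≤ Real.sqrt (Qd (fun i => (g i)⁻¹) η) := by
  apply Real.le_sqrt_of_sq_le
  have := Qd_pos hg h
  linarith

lemma Qd_le {g : Fin n → ℝ} (hg : g ∈ box n) (η : E n) :
    Qd (fun i => (g i)⁻¹) η ≤ ‖η‖ ^ 2 := by
  unfold Qd
  rw [EuclideanSpace.norm_sq_eq]
  refine Finset.sum_le_sum fun i _ => ?_
  have h := (inv_mem g hg i).2
  rw [Real.norm_eq_abs, sq_abs]
  nlinarith [sq_nonneg (η i)]

lemma tau_re (y t : ℝ) : (tau y t).re = t := by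
  unfold tau
  simp

lemma tau_norm_ge {y t : ℝ} (ht : 1 ≤ t) : 1 ≤ ‖tau y t‖ := by
  calc (1 : ℝ) ≤ t := ht
    _ = |(tau y t).re| := by rw [tau_re, abs_of_nonneg (by linarith)]
    _ ≤ ‖tau y t‖ := Complex.abs_re_le_norm _

/-- the symbol of the convolution -/
noncomputable def symb (M : ℕ) (g : Fin n → ℝ) (R t : ℝ) (ξ : E n) : ℂ :=
  (tau R⁻¹ t)⁻¹ ^ (M + 1) * ((Ng g ξ : ℝ) : ℂ) ^ M *
    Complex.exp (2 * π * Complex.I * (Ng g ξ : ℝ) * tau R⁻¹ t) *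
    (Pb M).eval (1 / (2 * π * Complex.I * (Ng g ξ : ℝ) * tau R⁻¹ t)) *
    ((shl (R⁻¹ • ξ.ofLp) : ℝ) : ℂ)

/-- the symbols agree -/
lemma symb_eq (M : ℕ) (a b : ℝ) (g : Fin n → ℝ) (hg : g ∈ box n) (R t : ℝ) (hR : 0 < R)
    (ht : 1 ≤ t) (ξ : E n) (f : ℂ)
    (hP : mm a b g (R⁻¹ ^ 2) (R⁻¹ • ξ) ≠ 0 → (Pb M).eval (R⁻¹ / (2 * π * Complex.I *
      (Real.sqrt (Qd (fun i => (g i)⁻¹) (R⁻¹ • ξ)) : ℝ) * tau R⁻¹ t)) ≠ 0) :
    Complex.exp (((2 * π * t * Ng g ξ : ℝ) : ℂ) * Complex.I) *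
        ((mm a b g (R⁻¹ ^ 2) (R⁻¹ • ξ) : ℝ) : ℂ) * f =
      ((tau R⁻¹ t) ^ (M + 1) * (((R⁻¹) ^ M : ℝ) : ℂ)) *
        (mh M a b R⁻¹ t g (R⁻¹ ^ 2) (R⁻¹ • ξ) * (symb M g R t ξ * f)) := by
  by_cases h0 : mm a b g (R⁻¹ ^ 2) (R⁻¹ • ξ) = 0
  · unfold mh
    rw [h0]
    simp
  · have hP' := hP h0
    obtain ⟨h1, h2⟩ := mm_ne h0
    have hq := sixth hg (show 1 / 4 ≤ ‖R⁻¹ • ξ‖ by linarith)
    have hQ : 0 < Qd (fun i => (g i)⁻¹) (R⁻¹ • ξ) := by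
      have := Qd_pos hg (show 1 / 4 ≤ ‖R⁻¹ • ξ‖ by linarith)
      linarith
    have hs : shl (R⁻¹ • ξ.ofLp) = 1 := shl_one (R⁻¹ • ξ) h1 h2
    have hQp : Qd (fun i => (g i)⁻¹) (R⁻¹ • ξ) ^ (-((M : ℝ) / 2)) =
        ((R⁻¹ * Ng g ξ) ^ M)⁻¹ := by
      rw [← Ng_scale g R hR ξ, Real.rpow_neg hQ.le]
      congr 1
      rw [Real.sqrt_eq_rpow, ← Real.rpow_natCast, ← Real.rpow_mul hQ.le]
      congr 1
      ring
    rw [Ng_scale g R hR ξ] at hq hP'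
    have hN : 0 < Ng g ξ := by
      by_contra hcon
      push Not at hcon
      have : R⁻¹ * Ng g ξ ≤ 0 := mul_nonpos_of_nonneg_of_nonpos (by positivity) hcon
      linarith
    have hτ : tau R⁻¹ t ≠ 0 := by
      intro h
      have := tau_norm_ge (y := R⁻¹) ht
      rw [h, norm_zero] at this
      linarith
    have hRc : (R : ℂ) ≠ 0 := by exact_mod_cast hR.ne'
    have hNc : ((Ng g ξ : ℝ) : ℂ) ≠ 0 := by exact_mod_cast hN.ne'
    have hπ : (π : ℂ) ≠ 0 := by exact_mod_cast Real.pi_ne_zero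
    have harg : ((R⁻¹ : ℝ) : ℂ) / (2 * π * Complex.I * ((R⁻¹ * Ng g ξ : ℝ) : ℂ) * tau R⁻¹ t) =
        1 / (2 * π * Complex.I * (Ng g ξ : ℝ) * tau R⁻¹ t) := by
      push_cast
      have hI := Complex.I_ne_zero
      field_simp
    rw [exp_split g R t hR (by linarith) ξ]
    unfold mh symb
    rw [hs, hQp, Ng_scale g R hR ξ, harg]
    rw [harg] at hP'
    set P := (Pb M).eval (1 / (2 * π * Complex.I * (Ng g ξ : ℝ) * tau R⁻¹ t)) with hPd
    set τ := tau R⁻¹ t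
    set m₀ := mm a b g (R⁻¹ ^ 2) (R⁻¹ • ξ)
    have e1 : τ ^ (M + 1) * τ⁻¹ ^ (M + 1) = 1 := by
      rw [← mul_pow, mul_inv_cancel₀ hτ, one_pow]
    have e2 : (((R⁻¹) ^ M : ℝ) : ℂ) * ((((R⁻¹ * Ng g ξ) ^ M)⁻¹ : ℝ) : ℂ) * ((Ng g ξ : ℝ) : ℂ) ^ M =
        1 := by
      push_cast
      rw [mul_pow]
      have hR1 : ((R : ℂ)⁻¹) ^ M ≠ 0 := pow_ne_zero _ (inv_ne_zero hRc)
      have hN1 : ((Ng g ξ : ℝ) : ℂ) ^ M ≠ 0 := pow_ne_zero _ hNc
      field_simp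
    have e3 : P * P⁻¹ = 1 := mul_inv_cancel₀ hP'
    rw [Complex.ofReal_mul, Complex.ofReal_mul, Complex.ofReal_one]
    set r : ℂ := (((R⁻¹) ^ M : ℝ) : ℂ)
    set q : ℂ := ((((R⁻¹ * Ng g ξ) ^ M)⁻¹ : ℝ) : ℂ)
    set x : ℂ := ((Real.exp (2 * π / t * (R⁻¹ * Ng g ξ)) : ℝ) : ℂ)
    set N : ℂ := ((Ng g ξ : ℝ) : ℂ)
    set X : ℂ := Complex.exp (2 * π * Complex.I * N * τ)
    have e4 : τ ^ (M + 1) * r * (x * q * (m₀ : ℂ) / P * (τ⁻¹ ^ (M + 1) * N ^ M * X * P * 1 * f)) =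
        x * X * (m₀ : ℂ) * f * ((τ ^ (M + 1) * τ⁻¹ ^ (M + 1)) * ((r * q * N ^ M) * (P * P⁻¹))) := by
      rw [div_eq_mul_inv]
      ring
    rw [e4, e1, e2, e3]
    ring

lemma exp_norm_le (g : Fin n → ℝ) (R t : ℝ) (hR : 0 < R) (ht : 0 < t) (ξ : E n) :
    ‖Complex.exp (2 * π * Complex.I * (Ng g ξ : ℝ) * tau R⁻¹ t)‖ ≤ 1 := by
  rw [Complex.norm_exp]
  have e : (2 * π * Complex.I * (Ng g ξ : ℝ) * tau R⁻¹ t).re =
      -(2 * π * Ng g ξ * (R⁻¹ / t)) := by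
    unfold tau
    have : (2 * π * Complex.I * (Ng g ξ : ℝ) * ((t : ℂ) + ((R⁻¹ / t : ℝ) : ℂ) *
        Complex.I)) = ((-(2 * π * Ng g ξ * (R⁻¹ / t)) : ℝ) : ℂ) +
        ((2 * π * Ng g ξ * t : ℝ) : ℂ) * Complex.I := by
      push_cast
      have hI : Complex.I * Complex.I = -1 := Complex.I_mul_I
      linear_combination (2 * (π : ℂ) * (Ng g ξ : ℂ) * ((R : ℂ)⁻¹ / (t : ℂ))) * hI
    rw [this]
    simp
  rw [e, Real.exp_le_one_iff]
  have := Ng_nonneg g ξ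
  have h3 : 0 ≤ 2 * π * Ng g ξ * (R⁻¹ / t) := by positivity
  linarith

lemma symb_meas (M : ℕ) (g : Fin n → ℝ) (R t : ℝ) : Measurable (symb M g R t) := by
  have hN := (continuous_Ng g).measurable
  have hNc : Measurable fun ξ : E n => ((Ng g ξ : ℝ) : ℂ) := Complex.measurable_ofReal.comp hN
  have h1 : Measurable fun ξ : E n => 2 * π * Complex.I * ((Ng g ξ : ℝ) : ℂ) * tau R⁻¹ t :=
    (hNc.const_mul _).mul_const _
  unfold symb
  refine Measurable.mul (Measurable.mul (Measurable.mul (Measurable.mul measurable_const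
    (hNc.pow_const M)) ?_) ?_) ?_
  · exact Complex.continuous_exp.measurable.comp h1
  · exact (Pb M).continuous.measurable.comp (h1.const_div 1)
  · refine Complex.measurable_ofReal.comp (measurable_shl.comp ?_)
    fun_prop

lemma symb_bdd (M : ℕ) (g : Fin n → ℝ) (hg : g ∈ box n) (R t : ℝ) (hR : 1 ≤ R) (ht : 1 ≤ t) :
    ∃ B : ℝ, ∀ ξ : E n, ‖symb M g R t ξ‖ ≤ B := by
  obtain ⟨B, hB⟩ := (isCompact_closedBall (0 : ℂ) 1).exists_bound_of_continuousOn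
    (Pb M).continuous.continuousOn
  have hR0 : 0 < R := by linarith
  refine ⟨(4 * R) ^ M * max B 0, fun ξ => ?_⟩
  by_cases h0 : shl (R⁻¹ • ξ.ofLp) = 0
  · unfold symb
    rw [h0]
    simp only [Complex.ofReal_zero, mul_zero, norm_zero]
    positivity
  · obtain ⟨h1, h2⟩ := shl_ne (R⁻¹ • ξ) h0
    have hq := sixth hg h1
    rw [Ng_scale g R hR0 ξ] at hq
    have hN1 : 1 / 6 ≤ Ng g ξ := by
      have h3 : R⁻¹ * Ng g ξ ≤ 1 * Ng g ξ :=
        mul_le_mul_of_nonneg_right (inv_le_one_of_one_le₀ hR) (Ng_nonneg g ξ)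
      linarith
    have hN2 : Ng g ξ ≤ 4 * R := by
      have h3 : Real.sqrt (Qd (fun i => (g i)⁻¹) (R⁻¹ • ξ)) ≤ 4 := by
        rw [Real.sqrt_le_left (by norm_num)]
        have := Qd_le hg (R⁻¹ • ξ)
        nlinarith [norm_nonneg (R⁻¹ • ξ)]
      rw [Ng_scale g R hR0 ξ, inv_mul_le_iff₀ hR0] at h3
      linarith
    have hτ := tau_norm_ge (y := R⁻¹) ht
    have hz : ‖1 / (2 * π * Complex.I * (Ng g ξ : ℝ) * tau R⁻¹ t)‖ ≤ 1 := by
      rw [norm_div, norm_one, norm_mul, norm_mul, norm_mul, norm_mul, Complex.norm_I, mul_one,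
        Complex.norm_real, Complex.norm_real, Real.norm_of_nonneg Real.pi_pos.le,
        Real.norm_of_nonneg (Ng_nonneg g ξ)]
      rw [Complex.norm_ofNat]
      apply div_le_one_of_le₀ _ (by positivity)
      have h4 := Real.pi_gt_three
      have h5 : 1 ≤ 2 * π * Ng g ξ := by nlinarith
      nlinarith
    have hPe : ‖(Pb M).eval (1 / (2 * π * Complex.I * (Ng g ξ : ℝ) * tau R⁻¹ t))‖ ≤ max B 0 := by
      refine (hB _ ?_).trans (le_max_left _ _)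
      rw [mem_closedBall_zero_iff]
      exact hz
    have hτi : ‖(tau R⁻¹ t)⁻¹ ^ (M + 1)‖ ≤ 1 := by
      rw [norm_pow, norm_inv]
      exact pow_le_one₀ (by positivity) (inv_le_one_of_one_le₀ hτ)
    have hNM : ‖((Ng g ξ : ℝ) : ℂ) ^ M‖ ≤ (4 * R) ^ M := by
      rw [norm_pow, Complex.norm_real, Real.norm_of_nonneg (Ng_nonneg g ξ)]
      exact pow_le_pow_left₀ (Ng_nonneg g ξ) hN2 M
    have hsh : ‖((shl (R⁻¹ • ξ.ofLp) : ℝ) : ℂ)‖ ≤ 1 := by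
      rw [Complex.norm_real, Real.norm_eq_abs]
      exact abs_shl_le _
    have hex := exp_norm_le g R t hR0 (by linarith) ξ
    unfold symb
    rw [norm_mul, norm_mul, norm_mul, norm_mul]
    calc ‖(tau R⁻¹ t)⁻¹ ^ (M + 1)‖ * ‖((Ng g ξ : ℝ) : ℂ) ^ M‖ *
          ‖Complex.exp (2 * π * Complex.I * (Ng g ξ : ℝ) * tau R⁻¹ t)‖ *
          ‖(Pb M).eval (1 / (2 * π * Complex.I * (Ng g ξ : ℝ) * tau R⁻¹ t))‖ *
          ‖((shl (R⁻¹ • ξ.ofLp) : ℝ) : ℂ)‖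
        ≤ 1 * (4 * R) ^ M * 1 * max B 0 * 1 := by gcongr
      _ = _ := by ring

/-- the constant of the link -/
lemma norm_cst (g : Fin n → ℝ) (hg : g ∈ box n) :
    ‖(((∏ i, g i) ^ (1 / 2 : ℝ) : ℝ) : ℂ) *
        Complex.exp (Complex.I * (π * ((n : ℝ) - 1) / 4 : ℝ))‖ ≤ ((2 : ℝ) ^ n) ^ (1 / 2 : ℝ) := by
  rw [norm_mul]
  have h1 : ‖Complex.exp (Complex.I * (π * ((n : ℝ) - 1) / 4 : ℝ))‖ = 1 := by
    rw [mul_comm]
    exact Complex.norm_exp_ofReal_mul_I _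
  have h0 : 0 ≤ ∏ i, g i := Finset.prod_nonneg fun i _ => by linarith [(hg i).1]
  have h2 : ∏ i, g i ≤ 2 ^ n := by
    calc ∏ i, g i ≤ ∏ i : Fin n, (2 : ℝ) :=
          Finset.prod_le_prod (fun i _ => by linarith [(hg i).1]) fun i _ => (hg i).2
      _ = _ := by simp
  rw [h1, mul_one, Complex.norm_real, Real.norm_of_nonneg (by positivity)]
  exact Real.rpow_le_rpow h0 h2 (by norm_num)

/-- one shell, `R ≥ 1/y₀` -/
theorem large (hLK : S_lk n) (hn : 1 ≤ n) (M : ℕ) (p e : ℝ) (hp : 1 ≤ p) (hRS : RS n M p e)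
    (a b y₀ C : ℝ) (hC : 0 < C)
    (hHM : ∀ p : ℝ, 1 ≤ p → ∀ t ∈ Set.Icc (1 : ℝ) 2,
      ∀ g ∈ box n, ∀ κ ∈ Set.Icc (0 : ℝ) 1, ∀ y : ℝ, 0 < y → y ≤ y₀ → ∀ R : ℝ, 0 < R →
      (∀ η : E n, mm a b g κ η ≠ 0 → (Pb M).eval (y / (2 * π * Complex.I *
        (Real.sqrt (Qd (fun i => (g i)⁻¹) η) : ℝ) * tau y t)) ≠ 0) ∧
      MulB C p fun ξ : E n => mh M a b y t g κ (R⁻¹ • ξ)) :
    ∃ K : ℝ, 0 < K ∧ ∀ (h : 𝓢(E n, ℂ)) (R : ℝ), 1 ≤ R → R⁻¹ ≤ y₀ →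
      ∫⁻ g in box n, ∫⁻ t in Set.Icc (1 : ℝ) 2, ∫⁻ x : E n,
        ‖inv (fun ξ => Complex.exp (((2 * π * t * Ng g ξ : ℝ) : ℂ) * Complex.I) *
          ((mm a b g ((R⁻¹) ^ 2) (R⁻¹ • ξ) : ℝ) : ℂ) * 𝓕 (h : E n → ℂ) ξ) x‖ₑ ^ p ≤
      ENNReal.ofReal (K * R ^ e) * ∫⁻ x : E n, ‖h x‖ₑ ^ p := by
  obtain ⟨C2, hC2, hRS⟩ := hRS
  have hp0 : 0 < p := by linarith
  set c0 : ℝ := ((2 : ℝ) ^ n) ^ (1 / 2 : ℝ) with hc0
  have hc0p : 0 < c0 := by positivity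
  refine ⟨(3 ^ (M + 1)) ^ p * C ^ p * c0 ^ p * C2, by positivity, ?_⟩
  intro h R hR1 hy0
  have hR0 : 0 < R := by linarith
  have hRi : R⁻¹ ≤ 1 := inv_le_one_of_one_le₀ hR1
  set F : (Fin n → ℝ) → ℂ := fun u => h (WithLp.toLp 2 u) with hF
  have hFm : Measurable F := h.continuous.measurable.comp (MeasurableEquiv.toLp 2 _).measurable
  have hFi : Integrable F :=
    (vp'.integrable_comp_emb (MeasurableEquiv.toLp 2 (Fin n → ℝ)).measurableEmbedding).2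
      h.integrable
  have hFb : ∃ B : ℝ, ∀ u, ‖F u‖ ≤ B := by
    obtain ⟨B, hB⟩ := h.decay 0 0
    refine ⟨B, fun u => ?_⟩
    have := hB.2 (WithLp.toLp 2 u)
    simpa using this
  have hFp : ∫⁻ u, ‖F u‖ₑ ^ p = ∫⁻ x : E n, ‖h x‖ₑ ^ p := lint_E' fun x => ‖h x‖ₑ ^ p
  have h1 := hRS R hR1 F hFm hFi hFb
  rw [hFp] at h1
  set c1 : ℝ := 3 ^ (M + 1) * (R⁻¹) ^ M with hc1
  have hc1p : 0 < c1 := by positivity
  calc ∫⁻ g in box n, ∫⁻ t in Set.Icc (1 : ℝ) 2, ∫⁻ x : E n,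
        ‖inv (fun ξ => Complex.exp (((2 * π * t * Ng g ξ : ℝ) : ℂ) * Complex.I) *
          ((mm a b g ((R⁻¹) ^ 2) (R⁻¹ • ξ) : ℝ) : ℂ) * 𝓕 (h : E n → ℂ) ξ) x‖ₑ ^ p
      ≤ ∫⁻ g in box n, ∫⁻ t in Set.Icc (1 : ℝ) 2, ENNReal.ofReal (c1 ^ p * C ^ p * c0 ^ p) *
          ∫⁻ x : Fin n → ℝ, ‖∫ u : Fin n → ℝ, KM M n R⁻¹ (t ^ 2 - R⁻¹ ^ 2 / t ^ 2) g (x - u) *
            Psi R F u‖ₑ ^ p := by
        refine setLIntegral_mono' measurableSet_box fun g hg => ?_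
        refine setLIntegral_mono' measurableSet_Icc fun t ht => ?_
        have ht0 : 0 < t := by linarith [ht.1]
        have hκ : (R⁻¹) ^ 2 ∈ Set.Icc (0 : ℝ) 1 := ⟨by positivity, by
          have : 0 ≤ R⁻¹ := by positivity
          nlinarith⟩
        obtain ⟨hne, hmul⟩ := hHM p hp t ht g hg ((R⁻¹) ^ 2) hκ R⁻¹ (by positivity) hy0 R hR0
        have h2 : (fun ξ => Complex.exp (((2 * π * t * Ng g ξ : ℝ) : ℂ) * Complex.I) *
            ((mm a b g ((R⁻¹) ^ 2) (R⁻¹ • ξ) : ℝ) : ℂ) * 𝓕 (h : E n → ℂ) ξ) =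
            fun ξ => ((tau R⁻¹ t) ^ (M + 1) * (((R⁻¹) ^ M : ℝ) : ℂ)) *
              (mh M a b R⁻¹ t g (R⁻¹ ^ 2) (R⁻¹ • ξ) * (symb M g R t ξ * 𝓕 (h : E n → ℂ) ξ)) := by
          funext ξ
          exact symb_eq M a b g hg R t hR0 ht.1 ξ _ fun hm => hne _ hm
        have hGi : Integrable fun ξ : E n => symb M g R t ξ * 𝓕 (h : E n → ℂ) ξ := by
          obtain ⟨B, hB⟩ := symb_bdd M g hg R t hR1 ht.1
          exact (fou_int h).bdd_mul (c := B) (symb_meas M g R t).aestronglyMeasurable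
            (Filter.Eventually.of_forall hB)
        have h3 := hmul _ hGi
        rw [h2]
        have h4 : ∀ x : E n, ‖inv (fun ξ => ((tau R⁻¹ t) ^ (M + 1) * (((R⁻¹) ^ M : ℝ) : ℂ)) *
            (mh M a b R⁻¹ t g (R⁻¹ ^ 2) (R⁻¹ • ξ) * (symb M g R t ξ * 𝓕 (h : E n → ℂ) ξ))) x‖ₑ ^ p ≤
            ENNReal.ofReal (c1 ^ p) * ‖inv (fun ξ => mh M a b R⁻¹ t g (R⁻¹ ^ 2) (R⁻¹ • ξ) *
              (symb M g R t ξ * 𝓕 (h : E n → ℂ) ξ)) x‖ₑ ^ p := by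
          intro x
          rw [inv_const_mul, enorm_mul, ENNReal.mul_rpow_of_nonneg _ _ hp0.le]
          refine mul_le_mul' ?_ le_rfl
          rw [← ENNReal.ofReal_rpow_of_nonneg hc1p.le hp0.le]
          refine ENNReal.rpow_le_rpow ?_ hp0.le
          rw [← ofReal_norm]
          apply ENNReal.ofReal_le_ofReal
          rw [norm_mul, norm_pow, Complex.norm_real, Real.norm_of_nonneg (by positivity), hc1]
          refine mul_le_mul_of_nonneg_right ?_ (by positivity)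
          exact pow_le_pow_left₀ (norm_nonneg _) (norm_tau R⁻¹ t (by positivity) hRi ht) _
        refine (lintegral_mono h4).trans ?_
        rw [lintegral_const_mul' _ _ ENNReal.ofReal_ne_top]
        refine (mul_le_mul' le_rfl h3).trans ?_
        have h5 : ∀ x : E n, ‖inv (fun ξ => symb M g R t ξ * 𝓕 (h : E n → ℂ) ξ) x‖ₑ ^ p ≤
            ENNReal.ofReal (c0 ^ p) * ‖∫ u : Fin n → ℝ, KM M n R⁻¹ (t ^ 2 - R⁻¹ ^ 2 / t ^ 2) g
              (x.ofLp - u) * Psi R F u‖ₑ ^ p := by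
          intro x
          have h6 := hLK hn M g hg R t hR1 ht h x
          have h7 : inv (fun ξ => symb M g R t ξ * 𝓕 (h : E n → ℂ) ξ) x =
              ((((∏ i, g i) ^ (1 / 2 : ℝ) : ℝ) : ℂ) *
                Complex.exp (Complex.I * (π * ((n : ℝ) - 1) / 4 : ℝ))) *
              ∫ u : Fin n → ℝ, KM M n R⁻¹ (t ^ 2 - R⁻¹ ^ 2 / t ^ 2) g (x.ofLp - u) *
                Psi R F u := h6
          rw [h7, enorm_mul, ENNReal.mul_rpow_of_nonneg _ _ hp0.le]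
          refine mul_le_mul' ?_ le_rfl
          rw [← ENNReal.ofReal_rpow_of_nonneg hc0p.le hp0.le]
          refine ENNReal.rpow_le_rpow ?_ hp0.le
          rw [← ofReal_norm]
          exact ENNReal.ofReal_le_ofReal (norm_cst g hg)
        refine (mul_le_mul' le_rfl (mul_le_mul' le_rfl (lintegral_mono h5))).trans ?_
        rw [lintegral_const_mul' _ _ ENNReal.ofReal_ne_top,
          lint_E fun x => ‖∫ u : Fin n → ℝ, KM M n R⁻¹ (t ^ 2 - R⁻¹ ^ 2 / t ^ 2) g (x - u) *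
            Psi R F u‖ₑ ^ p]
        rw [ENNReal.ofReal_mul (by positivity), ENNReal.ofReal_mul (by positivity)]
        exact le_of_eq (by ring)
    _ = ENNReal.ofReal (c1 ^ p * C ^ p * c0 ^ p) * ∫⁻ g in box n, ∫⁻ t in Set.Icc (1 : ℝ) 2,
          ∫⁻ x : Fin n → ℝ, ‖∫ u : Fin n → ℝ, KM M n R⁻¹ (t ^ 2 - R⁻¹ ^ 2 / t ^ 2) g (x - u) *
            Psi R F u‖ₑ ^ p := by
        rw [← lintegral_const_mul' _ _ ENNReal.ofReal_ne_top]
        refine lintegral_congr fun g => ?_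
        rw [← lintegral_const_mul' _ _ ENNReal.ofReal_ne_top]
    _ ≤ ENNReal.ofReal (c1 ^ p * C ^ p * c0 ^ p) * (ENNReal.ofReal (C2 * R ^ (M * p + e)) *
          ∫⁻ x : E n, ‖h x‖ₑ ^ p) := mul_le_mul' le_rfl h1
    _ = _ := by
        rw [← mul_assoc, ← ENNReal.ofReal_mul (by positivity)]
        congr 2
        have e1 : c1 ^ p = (3 ^ (M + 1)) ^ p * R ^ (-(M * p)) := by
          rw [hc1, Real.mul_rpow (by positivity) (by positivity)]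
          congr 1
          rw [inv_pow, Real.inv_rpow (by positivity), ← Real.rpow_natCast, ← Real.rpow_mul hR0.le,
            Real.rpow_neg hR0.le]
        have e2 : R ^ (-(M * p)) * R ^ (M * p + e) = R ^ e := by
          rw [← Real.rpow_add hR0]
          congr 1
          ring
        rw [e1]
        calc (3 ^ (M + 1)) ^ p * R ^ (-(M * p)) * C ^ p * c0 ^ p * (C2 * R ^ (M * p + e))
            = (3 ^ (M + 1)) ^ p * C ^ p * c0 ^ p * C2 * (R ^ (-(M * p)) * R ^ (M * p + e)) := by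
              ring
          _ = _ := by rw [e2]

lemma mix_univ (g₀ g : Fin n → ℝ) : mix Finset.univ g₀ g = g := by
  funext i
  unfold mix
  simp

/-- (HP) -/
theorem s_hp (n : ℕ) (hHM : S_hm n) (hLK : S_lk n) : S_hp n := by
  intro hn M p e hp hRS a b
  have hp1 : 1 ≤ p := by linarith
  obtain ⟨y₀, C, hy₀, hC, hHM⟩ := hHM M a b
  obtain ⟨K1, hK1, H1⟩ := large hLK hn M p e hp1 hRS a b y₀ C hC hHM
  -- the small `R`
  have hE3 := Pool.Agent.T9h82.LS.e3 n (Pool.Agent.T9h82.LS.e2 n)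
  obtain ⟨C', hC', hM'⟩ := mm_mul (Pool.Agent.T9h82.LS.hi n hE3) a b
  set e' : ℝ := ex n (Finset.univ : Finset (Fin n)).card p + 1 with he'
  obtain ⟨K2, hK2, H2⟩ := hi_plusI Finset.univ p hp1 e' (Pool.Agent.T9h82.LS.link n hn)
    (rough_all hn (Pool.Agent.T9h82.LS.kl1 hn) (fun p hp => Pool.Agent.T9h18.LS.inf p hp)
      Finset.univ p hp 1 one_pos) (mm a b) C' hC' (fun t ht g hg κ hκ R hR =>
        hM' p hp1 t ht g hg κ hκ R hR)
  set K3 : ℝ := (1 + y₀⁻¹) ^ |e' - e| with hK3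
  have hK3p : 0 < K3 := by positivity
  refine ⟨K1 + K2 * K3, by positivity, ?_⟩
  intro h R hR
  have hR0 : 0 < R := by linarith
  rcases le_total R⁻¹ y₀ with hy | hy
  · refine (H1 h R hR hy).trans (mul_le_mul' (ENNReal.ofReal_le_ofReal ?_) le_rfl)
    refine mul_le_mul_of_nonneg_right ?_ (by positivity)
    have : 0 ≤ K2 * K3 := by positivity
    linarith
  · have h1 := H2 (fun _ => 1) (fun i => ⟨le_rfl, by norm_num⟩) h R hR
    simp only [mix_univ] at h1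
    refine h1.trans (mul_le_mul' (ENNReal.ofReal_le_ofReal ?_) le_rfl)
    have h2 : R ≤ y₀⁻¹ := by
      rw [← inv_inv R]
      exact inv_anti₀ hy₀ hy
    have h3 : R ^ e' ≤ K3 * R ^ e := by
      have h4 : R ^ e' = R ^ (e' - e) * R ^ e := by
        rw [← Real.rpow_add hR0]; congr 1; ring
      rw [h4]
      refine mul_le_mul_of_nonneg_right ?_ (by positivity)
      calc R ^ (e' - e) ≤ R ^ |e' - e| := Real.rpow_le_rpow_of_exponent_le hR (le_abs_self _)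
        _ ≤ (1 + y₀⁻¹) ^ |e' - e| := Real.rpow_le_rpow hR0.le (by linarith) (abs_nonneg _)
    calc K2 * R ^ e' ≤ K2 * (K3 * R ^ e) := mul_le_mul_of_nonneg_left h3 hK2.le
      _ ≤ (K1 + K2 * K3) * R ^ e := by
        have : 0 ≤ K1 * R ^ e := by positivity
        nlinarith

end Pool.Agent.T9h70.LG
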