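import Pool.Agent.T9h44.LG.Spec4
import Pool.Agent.T9h70.LG.Hp

/-!
# (HPI): one shell of the wave, in the mean over the variables of `I` (helper70)
-/

set_option autoImplicit false

namespace Pool.Agent.T9h70.LG

open MeasureTheory Real Pool.Agent.T9h44.LG Pool.Agent.N303.LS Pool.Agent.N558.LS
  Pool.Agent.T9h44.LS4 Pool.Agent.T9h44.LS5
open scoped ENNReal SchwartzMap RealInnerProductSpace FourierTransform

variable {n : ℕ}

/-- one shell, `R ≥ 1/y₀` -/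
theorem largeI (hLK : S_lk n) (hn : 1 ≤ n) (M : ℕ) (I : Finset (Fin n)) (p e : ℝ) (hp : 1 ≤ p)
    (hRS : RSI n M I p e)
    (a b y₀ C : ℝ) (hC : 0 < C)
    (hHM : ∀ p : ℝ, 1 ≤ p → ∀ t ∈ Set.Icc (1 : ℝ) 2,
      ∀ g ∈ box n, ∀ κ ∈ Set.Icc (0 : ℝ) 1, ∀ y : ℝ, 0 < y → y ≤ y₀ → ∀ R : ℝ, 0 < R →
      (∀ η : E n, mm a b g κ η ≠ 0 → (Pb M).eval (y / (2 * π * Complex.I *
        (Real.sqrt (Qd (fun i => (g i)⁻¹) η) : ℝ) * tau y t)) ≠ 0) ∧
      MulB C p fun ξ : E n => mh M a b y t g κ (R⁻¹ • ξ)) :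
    ∃ K : ℝ, 0 < K ∧ ∀ g₀ ∈ box n, ∀ (h : 𝓢(E n, ℂ)) (R : ℝ), 1 ≤ R → R⁻¹ ≤ y₀ →
      ∫⁻ g in box n, ∫⁻ t in Set.Icc (1 : ℝ) 2, ∫⁻ x : E n,
        ‖inv (fun ξ => Complex.exp (((2 * π * t * Ng (mix I g₀ g) ξ : ℝ) : ℂ) * Complex.I) *
          ((mm a b (mix I g₀ g) ((R⁻¹) ^ 2) (R⁻¹ • ξ) : ℝ) : ℂ) * 𝓕 (h : E n → ℂ) ξ) x‖ₑ ^ p ≤
      ENNReal.ofReal (K * R ^ e) * ∫⁻ x : E n, ‖h x‖ₑ ^ p := by
  obtain ⟨C2, hC2, hRS⟩ := hRS
  have hp0 : 0 < p := by linarith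
  set c0 : ℝ := ((2 : ℝ) ^ n) ^ (1 / 2 : ℝ) with hc0
  have hc0p : 0 < c0 := by positivity
  refine ⟨(3 ^ (M + 1)) ^ p * C ^ p * c0 ^ p * C2, by positivity, ?_⟩
  intro g₀ hg₀ h R hR1 hy0
  have hR0 : 0 < R := by linarith
  have hRi : R⁻¹ ≤ 1 := inv_le_one_of_one_le₀ hR1
  set F : (Fin n → ℝ) → ℂ := fun u => h (WithLp.toLp 2 u) with hF
  have hFm : Measurable F := h.continuous.measurable.comp (MeasurableEquiv.toLp 2 _).measurable
  have hFi : Integrable F :=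
    (vp'.integrable_comp_emb (MeasurableEquiv.toLp 2 (Fin n → ℝ)).measurableEmbedding).2
      h.integrable
  have hFb : ∃ B : ℝ, ∀ u, ‖F u‖ ≤ B := by
    obtain ⟨B, hB⟩ := h.decay 0 0
    refine ⟨B, fun u => ?_⟩
    have := hB.2 (WithLp.toLp 2 u)
    simpa using this
  have hFp : ∫⁻ u, ‖F u‖ₑ ^ p = ∫⁻ x : E n, ‖h x‖ₑ ^ p := lint_E' fun x => ‖h x‖ₑ ^ p
  have h1 := hRS g₀ hg₀ R hR1 F hFm hFi hFb
  rw [hFp] at h1
  set c1 : ℝ := 3 ^ (M + 1) * (R⁻¹) ^ M with hc1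
  have hc1p : 0 < c1 := by positivity
  calc ∫⁻ g in box n, ∫⁻ t in Set.Icc (1 : ℝ) 2, ∫⁻ x : E n,
        ‖inv (fun ξ => Complex.exp (((2 * π * t * Ng (mix I g₀ g) ξ : ℝ) : ℂ) * Complex.I) *
          ((mm a b (mix I g₀ g) ((R⁻¹) ^ 2) (R⁻¹ • ξ) : ℝ) : ℂ) * 𝓕 (h : E n → ℂ) ξ) x‖ₑ ^ p
      ≤ ∫⁻ g in box n, ∫⁻ t in Set.Icc (1 : ℝ) 2, ENNReal.ofReal (c1 ^ p * C ^ p * c0 ^ p) *
          ∫⁻ x : Fin n → ℝ, ‖∫ u : Fin n → ℝ, KM M n R⁻¹ (t ^ 2 - R⁻¹ ^ 2 / t ^ 2) (mix I g₀ g)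
            (x - u) * Psi R F u‖ₑ ^ p := by
        refine setLIntegral_mono' measurableSet_box fun g' hg' => ?_
        have hg := mix_mem I g₀ g' hg₀ hg'
        set g := mix I g₀ g' with hgd
        refine setLIntegral_mono' measurableSet_Icc fun t ht => ?_
        have ht0 : 0 < t := by linarith [ht.1]
        have hκ : (R⁻¹) ^ 2 ∈ Set.Icc (0 : ℝ) 1 := ⟨by positivity, by
          have : 0 ≤ R⁻¹ := by positivity
          nlinarith⟩
        obtain ⟨hne, hmul⟩ := hHM p hp t ht g hg ((R⁻¹) ^ 2) hκ R⁻¹ (by positivity) hy0 R hR0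
        have h2 : (fun ξ => Complex.exp (((2 * π * t * Ng g ξ : ℝ) : ℂ) * Complex.I) *
            ((mm a b g ((R⁻¹) ^ 2) (R⁻¹ • ξ) : ℝ) : ℂ) * 𝓕 (h : E n → ℂ) ξ) =
            fun ξ => ((tau R⁻¹ t) ^ (M + 1) * (((R⁻¹) ^ M : ℝ) : ℂ)) *
              (mh M a b R⁻¹ t g (R⁻¹ ^ 2) (R⁻¹ • ξ) * (symb M g R t ξ * 𝓕 (h : E n → ℂ) ξ)) := by
          funext ξ
          exact symb_eq M a b g hg R t hR0 ht.1 ξ _ fun hm => hne _ hm
        have hGi : Integrable fun ξ : E n => symb M g R t ξ * 𝓕 (h : E n → ℂ) ξ := by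
          obtain ⟨B, hB⟩ := symb_bdd M g hg R t hR1 ht.1
          exact (fou_int h).bdd_mul (c := B) (symb_meas M g R t).aestronglyMeasurable
            (Filter.Eventually.of_forall hB)
        have h3 := hmul _ hGi
        rw [h2]
        have h4 : ∀ x : E n, ‖inv (fun ξ => ((tau R⁻¹ t) ^ (M + 1) * (((R⁻¹) ^ M : ℝ) : ℂ)) *
            (mh M a b R⁻¹ t g (R⁻¹ ^ 2) (R⁻¹ • ξ) * (symb M g R t ξ * 𝓕 (h : E n → ℂ) ξ))) x‖ₑ ^ p ≤
            ENNReal.ofReal (c1 ^ p) * ‖inv (fun ξ => mh M a b R⁻¹ t g (R⁻¹ ^ 2) (R⁻¹ • ξ) *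
              (symb M g R t ξ * 𝓕 (h : E n → ℂ) ξ)) x‖ₑ ^ p := by
          intro x
          rw [inv_const_mul, enorm_mul, ENNReal.mul_rpow_of_nonneg _ _ hp0.le]
          refine mul_le_mul' ?_ le_rfl
          rw [← ENNReal.ofReal_rpow_of_nonneg hc1p.le hp0.le]
          refine ENNReal.rpow_le_rpow ?_ hp0.le
          rw [← ofReal_norm]
          apply ENNReal.ofReal_le_ofReal
          rw [norm_mul, norm_pow, Complex.norm_real, Real.norm_of_nonneg (by positivity), hc1]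
          refine mul_le_mul_of_nonneg_right ?_ (by positivity)
          exact pow_le_pow_left₀ (norm_nonneg _) (norm_tau R⁻¹ t (by positivity) hRi ht) _
        refine (lintegral_mono h4).trans ?_
        rw [lintegral_const_mul' _ _ ENNReal.ofReal_ne_top]
        refine (mul_le_mul' le_rfl h3).trans ?_
        have h5 : ∀ x : E n, ‖inv (fun ξ => symb M g R t ξ * 𝓕 (h : E n → ℂ) ξ) x‖ₑ ^ p ≤
            ENNReal.ofReal (c0 ^ p) * ‖∫ u : Fin n → ℝ, KM M n R⁻¹ (t ^ 2 - R⁻¹ ^ 2 / t ^ 2) g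
              (x.ofLp - u) * Psi R F u‖ₑ ^ p := by
          intro x
          have h6 := hLK hn M g hg R t hR1 ht h x
          have h7 : inv (fun ξ => symb M g R t ξ * 𝓕 (h : E n → ℂ) ξ) x =
              ((((∏ i, g i) ^ (1 / 2 : ℝ) : ℝ) : ℂ) *
                Complex.exp (Complex.I * (π * ((n : ℝ) - 1) / 4 : ℝ))) *
              ∫ u : Fin n → ℝ, KM M n R⁻¹ (t ^ 2 - R⁻¹ ^ 2 / t ^ 2) g (x.ofLp - u) *
                Psi R F u := h6
          rw [h7, enorm_mul, ENNReal.mul_rpow_of_nonneg _ _ hp0.le]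
          refine mul_le_mul' ?_ le_rfl
          rw [← ENNReal.ofReal_rpow_of_nonneg hc0p.le hp0.le]
          refine ENNReal.rpow_le_rpow ?_ hp0.le
          rw [← ofReal_norm]
          exact ENNReal.ofReal_le_ofReal (norm_cst g hg)
        refine (mul_le_mul' le_rfl (mul_le_mul' le_rfl (lintegral_mono h5))).trans ?_
        rw [lintegral_const_mul' _ _ ENNReal.ofReal_ne_top,
          lint_E fun x => ‖∫ u : Fin n → ℝ, KM M n R⁻¹ (t ^ 2 - R⁻¹ ^ 2 / t ^ 2) g (x - u) *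
            Psi R F u‖ₑ ^ p]
        rw [ENNReal.ofReal_mul (by positivity), ENNReal.ofReal_mul (by positivity)]
        exact le_of_eq (by ring)
    _ = ENNReal.ofReal (c1 ^ p * C ^ p * c0 ^ p) * ∫⁻ g in box n, ∫⁻ t in Set.Icc (1 : ℝ) 2,
          ∫⁻ x : Fin n → ℝ, ‖∫ u : Fin n → ℝ, KM M n R⁻¹ (t ^ 2 - R⁻¹ ^ 2 / t ^ 2) (mix I g₀ g)
            (x - u) * Psi R F u‖ₑ ^ p := by
        rw [← lintegral_const_mul' _ _ ENNReal.ofReal_ne_top]
        refine lintegral_congr fun g => ?_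
        rw [← lintegral_const_mul' _ _ ENNReal.ofReal_ne_top]
    _ ≤ ENNReal.ofReal (c1 ^ p * C ^ p * c0 ^ p) * (ENNReal.ofReal (C2 * R ^ (M * p + e)) *
          ∫⁻ x : E n, ‖h x‖ₑ ^ p) := mul_le_mul' le_rfl h1
    _ = _ := by
        rw [← mul_assoc, ← ENNReal.ofReal_mul (by positivity)]
        congr 2
        have e1 : c1 ^ p = (3 ^ (M + 1)) ^ p * R ^ (-(M * p)) := by
          rw [hc1, Real.mul_rpow (by positivity) (by positivity)]
          congr 1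
          rw [inv_pow, Real.inv_rpow (by positivity), ← Real.rpow_natCast, ← Real.rpow_mul hR0.le,
            Real.rpow_neg hR0.le]
        have e2 : R ^ (-(M * p)) * R ^ (M * p + e) = R ^ e := by
          rw [← Real.rpow_add hR0]
          congr 1
          ring
        rw [e1]
        calc (3 ^ (M + 1)) ^ p * R ^ (-(M * p)) * C ^ p * c0 ^ p * (C2 * R ^ (M * p + e))
            = (3 ^ (M + 1)) ^ p * C ^ p * c0 ^ p * C2 * (R ^ (-(M * p)) * R ^ (M * p + e)) := by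
              ring
          _ = _ := by rw [e2]

/-- (HPI) -/
theorem s_hpI (n : ℕ) (hHM : S_hm n) (hLK : S_lk n) : S_hpI n := by
  intro hn M I p e hp hRS a b
  have hp1 : 1 ≤ p := by linarith
  obtain ⟨y₀, C, hy₀, hC, hHM⟩ := hHM M a b
  obtain ⟨K1, hK1, H1⟩ := largeI hLK hn M I p e hp1 hRS a b y₀ C hC hHM
  -- the small `R`
  have hE3 := Pool.Agent.T9h82.LS.e3 n (Pool.Agent.T9h82.LS.e2 n)
  obtain ⟨C', hC', hM'⟩ := mm_mul (Pool.Agent.T9h82.LS.hi n hE3) a b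
  set e' : ℝ := ex n I.card p + 1 with he'
  obtain ⟨K2, hK2, H2⟩ := hi_plusI I p hp1 e' (Pool.Agent.T9h82.LS.link n hn)
    (rough_all hn (Pool.Agent.T9h82.LS.kl1 hn) (fun p hp => Pool.Agent.T9h18.LS.inf p hp)
      I p hp 1 one_pos) (mm a b) C' hC' (fun t ht g hg κ hκ R hR =>
        hM' p hp1 t ht g hg κ hκ R hR)
  set K3 : ℝ := (1 + y₀⁻¹) ^ |e' - e| with hK3
  have hK3p : 0 < K3 := by positivity
  refine ⟨K1 + K2 * K3, by positivity, ?_⟩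
  intro g₀ hg₀ h R hR
  have hR0 : 0 < R := by linarith
  rcases le_total R⁻¹ y₀ with hy | hy
  · refine (H1 g₀ hg₀ h R hR hy).trans (mul_le_mul' (ENNReal.ofReal_le_ofReal ?_) le_rfl)
    refine mul_le_mul_of_nonneg_right ?_ (by positivity)
    have : 0 ≤ K2 * K3 := by positivity
    linarith
  · have h1 := H2 g₀ hg₀ h R hR
    refine h1.trans (mul_le_mul' (ENNReal.ofReal_le_ofReal ?_) le_rfl)
    have h2 : R ≤ y₀⁻¹ := by
      rw [← inv_inv R]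
      exact inv_anti₀ hy₀ hy
    have h3 : R ^ e' ≤ K3 * R ^ e := by
      have h4 : R ^ e' = R ^ (e' - e) * R ^ e := by
        rw [← Real.rpow_add hR0]; congr 1; ring
      rw [h4]
      refine mul_le_mul_of_nonneg_right ?_ (by positivity)
      calc R ^ (e' - e) ≤ R ^ |e' - e| := Real.rpow_le_rpow_of_exponent_le hR (le_abs_self _)
        _ ≤ (1 + y₀⁻¹) ^ |e' - e| := Real.rpow_le_rpow hR0.le (by linarith) (abs_nonneg _)
    calc K2 * R ^ e' ≤ K2 * (K3 * R ^ e) := mul_le_mul_of_nonneg_left h3 hK2.le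
      _ ≤ (K1 + K2 * K3) * R ^ e := by
        have : 0 ≤ K1 * R ^ e := by positivity
        nlinarith

end Pool.Agent.T9h70.LG
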