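import Pool.Agent.T9h81.LG.Fu
import Pool.Agent.T9h44.LG.Spec5

/-!
# Fubini and the change of variables `c_i = μ/(4 g_i)` (helper70), after helper81
-/

set_option autoImplicit false

namespace Pool.Agent.T9h70.LG

open MeasureTheory Real Pool.Agent.T9h44.LG Pool.Agent.T9h44.LS4 Pool.Agent.T9h44.LS5
open scoped ENNReal

variable {n : ℕ}

/-- one variable, scaled -/
theorem one_var_mul (μ : ℝ) (hμ : μ ∈ Set.Icc (1 : ℝ) 2) :
    (volume.restrict (Set.Icc (1 : ℝ) 2)).map (fun g : ℝ => μ / (4 * g)) ≤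
    (16 : ℝ≥0∞) • volume.restrict (Set.Icc (1 / 8 : ℝ) (1 / 2)) := by
  have hm : Measurable (fun g : ℝ => 1 / (4 * g)) := by fun_prop
  have hm2 : Measurable (fun x : ℝ => μ * x) := by fun_prop
  have e : (fun g : ℝ => μ / (4 * g)) = (fun x : ℝ => μ * x) ∘ fun g : ℝ => 1 / (4 * g) := by
    funext g
    simp only [Function.comp]
    rw [mul_one_div]
  rw [e, ← Measure.map_map hm2 hm]
  refine (Measure.map_mono T9h81.LG.one_var hm2).trans ?_
  rw [Measure.map_smul]
  rw [Measure.le_iff]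
  intro s hs
  rw [Measure.smul_apply, Measure.smul_apply, smul_eq_mul, smul_eq_mul,
    Measure.map_apply hm2 hs, Measure.restrict_apply (hm2 hs), Measure.restrict_apply hs]
  refine mul_le_mul' le_rfl ?_
  have hμ0 : μ ≠ 0 := by have := hμ.1; intro h; rw [h] at this; norm_num at this
  calc volume ((fun x : ℝ => μ * x) ⁻¹' s ∩ Set.Icc (1 / 8 : ℝ) (1 / 4))
      ≤ volume ((fun x : ℝ => μ * x) ⁻¹' (s ∩ Set.Icc (1 / 8 : ℝ) (1 / 2))) := by
        refine measure_mono ?_
        rintro x ⟨h1, h2, h3⟩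
        refine ⟨h1, ?_, ?_⟩
        · simp only
          nlinarith [hμ.1]
        · simp only
          nlinarith [hμ.2, hμ.1]
    _ = ENNReal.ofReal |μ⁻¹| * volume (s ∩ Set.Icc (1 / 8 : ℝ) (1 / 2)) :=
        Real.volume_preimage_mul_left hμ0 _
    _ ≤ 1 * volume (s ∩ Set.Icc (1 / 8 : ℝ) (1 / 2)) := by
        refine mul_le_mul' ?_ le_rfl
        rw [ENNReal.ofReal_le_one, abs_of_nonneg (by have := hμ.1; positivity)]
        exact inv_le_one_of_one_le₀ hμ.1
    _ = _ := one_mul _

/-- one `μ` -/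
theorem fu_one (H : (Fin n → ℝ) → ℝ≥0∞) (hf : Measurable H) (j : Fin n) (μ : ℝ)
    (hμ : μ ∈ Set.Icc (1 : ℝ) 2) :
    ∫⁻ g in box n, H (fun i => μ / (4 * g i)) ≤
      16 ^ n * (8⁻¹ * ∫⁻ b in Set.Icc (1 / 8 : ℝ) (1 / 2), ∫⁻ c in cubeC n,
        H (Function.update c j b)) := by
  obtain ⟨ν, hν⟩ : ∃ ν : Measure ℝ, ν = volume.restrict (Set.Icc (1 / 8 : ℝ) (1 / 2)) := ⟨_, rfl⟩
  obtain ⟨κ, hκ⟩ : ∃ κ : Measure ℝ, κ = volume.restrict (Set.Icc (-4 : ℝ) 4) := ⟨_, rfl⟩
  have : IsFiniteMeasure ν := by rw [hν]; infer_instance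
  have : IsFiniteMeasure κ := by rw [hκ]; infer_instance
  have hνκ : ν ≤ κ := by
    rw [hν, hκ]
    exact Measure.restrict_mono (Set.Icc_subset_Icc (by norm_num) (by norm_num)) le_rfl
  have hκu : κ Set.univ = 8 := by
    rw [hκ, Measure.restrict_apply_univ, Real.volume_Icc]
    norm_num
  -- the change of variables
  have hbox : box n = Set.univ.pi (fun _ : Fin n => Set.Icc (1 : ℝ) 2) := by
    ext g
    exact ⟨fun h i _ => h i, fun h i => h i (Set.mem_univ i)⟩
  have hcube : cubeC n = Set.univ.pi (fun _ : Fin n => Set.Icc (-4 : ℝ) 4) := by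
    ext g
    exact ⟨fun h i _ => h i, fun h i => h i (Set.mem_univ i)⟩
  have hm : Measurable (fun g : ℝ => μ / (4 * g)) := by fun_prop
  have hmn : Measurable (fun (g : Fin n → ℝ) (i : Fin n) => μ / (4 * g i)) := by fun_prop
  have : IsFiniteMeasure ((volume.restrict (Set.Icc (1 : ℝ) 2)).map (fun g : ℝ => μ / (4 * g))) :=
    Measure.isFiniteMeasure_map _ _
  have e1 : ∫⁻ g in box n, H (fun i => μ / (4 * g i)) =
      ∫⁻ c, H c ∂Measure.pi (fun _ : Fin n =>
        (volume.restrict (Set.Icc (1 : ℝ) 2)).map (fun g : ℝ => μ / (4 * g))) := by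
    rw [hbox, volume_pi, Measure.restrict_pi_pi,
      ← Measure.pi_map_pi (fun _ => hm.aemeasurable), lintegral_map hf hmn]
  have e2 : Measure.pi (fun _ : Fin n => (16 : ℝ≥0∞) • ν) =
      (16 : ℝ≥0∞) ^ n • Measure.pi (fun _ : Fin n => ν) := by
    have : SigmaFinite ((16 : ℝ≥0∞) • ν) := by
      have := Measure.smul_finite ν (show (16 : ℝ≥0∞) ≠ ⊤ by norm_num)
      infer_instance
    refine Measure.pi_eq fun s _ => ?_
    rw [Measure.smul_apply, Measure.pi_pi]
    simp only [Measure.smul_apply, smul_eq_mul]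
    rw [Finset.prod_mul_distrib, Finset.prod_const, Finset.card_univ, Fintype.card_fin]
  have e3 : Measure.pi (fun _ : Fin n =>
      (volume.restrict (Set.Icc (1 : ℝ) 2)).map (fun g : ℝ => μ / (4 * g))) ≤
      (16 : ℝ≥0∞) ^ n • Measure.pi (fun _ : Fin n => ν) := by
    rw [← e2]
    have : SigmaFinite ((16 : ℝ≥0∞) • ν) := by
      have := Measure.smul_finite ν (show (16 : ℝ≥0∞) ≠ ⊤ by norm_num)
      infer_instance
    exact T9h81.LG.pi_mono fun _ => by rw [hν]; exact one_var_mul μ hμ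
  -- the update
  obtain ⟨κ', hκ'⟩ : ∃ κ' : Fin n → Measure ℝ, κ' = Function.update (fun _ => κ) j ν := ⟨_, rfl⟩
  have hsf : ∀ i, SigmaFinite (κ' i) := by
    intro i
    rw [hκ']
    by_cases h : i = j
    · subst h
      rw [Function.update_self]
      infer_instance
    · rw [Function.update_of_ne h]
      infer_instance
  have hle : Measure.pi (fun _ : Fin n => ν) ≤ Measure.pi κ' := by
    refine T9h81.LG.pi_mono fun i => ?_
    rw [hκ']
    by_cases h : i = j
    · subst h
      rw [Function.update_self]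
    · rw [Function.update_of_ne h]
      exact hνκ
  have hmu : Measurable (fun p : ℝ × (Fin n → ℝ) => Function.update p.2 j p.1) :=
    measurable_update'.comp measurable_swap
  have e4 : Measure.pi κ' = ((8 : ℝ≥0∞)⁻¹) •
      (ν.prod (Measure.pi (fun _ : Fin n => κ))).map
        (fun p : ℝ × (Fin n → ℝ) => Function.update p.2 j p.1) := by
    refine Measure.pi_eq fun s hs => ?_
    rw [Measure.smul_apply, Measure.map_apply hmu (MeasurableSet.univ_pi hs)]
    have h1 : (fun p : ℝ × (Fin n → ℝ) => Function.update p.2 j p.1) ⁻¹' (Set.univ.pi s) =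
        s j ×ˢ (Set.univ.pi (Function.update s j Set.univ)) := by
      ext ⟨b, c⟩
      simp only [Set.mem_preimage, Set.mem_pi, Set.mem_univ, forall_true_left, Set.mem_prod]
      constructor
      · intro h
        refine ⟨by simpa using h j, fun i => ?_⟩
        by_cases hi : i = j
        · subst hi
          simp
        · have := h i
          rw [Function.update_of_ne hi] at this ⊢
          exact this
      · rintro ⟨h2, h3⟩ i
        by_cases hi : i = j
        · subst hi
          simpa using h2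
        · have := h3 i
          rw [Function.update_of_ne hi] at this ⊢
          exact this
    rw [h1, Measure.prod_prod, Measure.pi_pi, smul_eq_mul]
    have h2 : ∏ i, κ (Function.update s j Set.univ i) =
        8 * ∏ i ∈ Finset.univ.erase j, κ (s i) := by
      rw [← Finset.mul_prod_erase _ _ (Finset.mem_univ j), Function.update_self, hκu]
      congr 1
      refine Finset.prod_congr rfl fun i hi => ?_
      rw [Function.update_of_ne (Finset.ne_of_mem_erase hi)]
    have h3 : ∏ i, κ' i (s i) = ν (s j) * ∏ i ∈ Finset.univ.erase j, κ (s i) := by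
      rw [← Finset.mul_prod_erase _ _ (Finset.mem_univ j), hκ', Function.update_self]
      congr 1
      refine Finset.prod_congr rfl fun i hi => ?_
      rw [Function.update_of_ne (Finset.ne_of_mem_erase hi)]
    rw [h2, h3]
    rw [mul_left_comm (ν (s j)), ← mul_assoc (8 : ℝ≥0∞)⁻¹,
      ENNReal.inv_mul_cancel (by norm_num) (by norm_num), one_mul]
  have hfm : Measurable (fun p : ℝ × (Fin n → ℝ) => H (Function.update p.2 j p.1)) :=
    hf.comp hmu
  calc ∫⁻ g in box n, H (fun i => μ / (4 * g i))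
      = _ := e1
    _ ≤ ∫⁻ c, H c ∂((16 : ℝ≥0∞) ^ n • Measure.pi (fun _ : Fin n => ν)) := lintegral_mono' e3 le_rfl
    _ = 16 ^ n * ∫⁻ c, H c ∂(Measure.pi (fun _ : Fin n => ν)) := by
        rw [lintegral_smul_measure, smul_eq_mul]
    _ ≤ 16 ^ n * ∫⁻ c, H c ∂(Measure.pi κ') := by
        gcongr
    _ = _ := by
        rw [e4, lintegral_smul_measure, lintegral_map hf hmu, smul_eq_mul,
          lintegral_prod _ hfm.aemeasurable, hcube, volume_pi, Measure.restrict_pi_pi, ← hκ, ← hν]

lemma mix_update (I : Finset (Fin n)) (j : Fin n) (hj : j ∈ I) (a c : Fin n → ℝ) (b : ℝ) :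
    mix I a (Function.update c j b) = Function.update (mix I a c) j b := by
  funext i
  unfold mix
  by_cases h : i = j
  · subst h
    simp [hj]
  · rw [Function.update_of_ne h, Function.update_of_ne h]

lemma meas_mix2 {X : Type*} [MeasurableSpace X] (I : Finset (Fin n)) (a c : X → Fin n → ℝ)
    (ha : Measurable a) (hc : Measurable c) : Measurable fun x => mix I (a x) (c x) := by
  refine measurable_pi_lambda _ fun i => ?_
  unfold mix
  by_cases h : i ∈ I
  · simp only [h, if_true]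
    exact (measurable_pi_apply i).comp hc
  · simp only [h, if_false]
    exact (measurable_pi_apply i).comp ha

/-- Fubini, with `μ` -/
theorem fuJ (f : (Fin n → ℝ) → ℝ≥0∞) (hf : Measurable f) (I : Finset (Fin n)) (j : Fin n)
    (hj : j ∈ I) (c₀ : Fin n → ℝ) (B : ℝ≥0∞)
    (hB : ∀ b ∈ Set.Icc (1 / 8 : ℝ) (1 / 2), ∫⁻ μ in Set.Icc (1 : ℝ) 2, ∫⁻ c in cubeC n,
      f (Function.update (mix I (μ • c₀) c) j b) ≤ B) :
    ∫⁻ g in box n, ∫⁻ μ in Set.Icc (1 : ℝ) 2, f (mix I (μ • c₀) (fun i => μ / (4 * g i))) ≤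
      16 ^ n * B := by
  have hm1 : Measurable fun p : (Fin n → ℝ) × ℝ =>
      f (mix I (p.2 • c₀) (fun i => p.2 / (4 * p.1 i))) := by
    refine hf.comp (meas_mix2 I _ _ (by fun_prop) ?_)
    refine measurable_pi_lambda _ fun i => ?_
    exact measurable_snd.div (((measurable_pi_apply i).comp measurable_fst).const_mul 4)
  rw [lintegral_lintegral_swap hm1.aemeasurable]
  have hm2 : Measurable fun p : (ℝ × ℝ) × (Fin n → ℝ) =>
      f (Function.update (mix I (p.1.1 • c₀) p.2) j p.1.2) := by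
    refine hf.comp ?_
    have h1 : Measurable fun p : (ℝ × ℝ) × (Fin n → ℝ) => (mix I (p.1.1 • c₀) p.2, p.1.2) :=
      (meas_mix2 I _ _ (by fun_prop) (by fun_prop)).prodMk (by fun_prop)
    exact measurable_update'.comp h1
  have hm3 : Measurable fun p : ℝ × ℝ => ∫⁻ c in cubeC n,
      f (Function.update (mix I (p.1 • c₀) c) j p.2) := hm2.lintegral_prod_right'
  have hm4 : Measurable fun μ : ℝ => ∫⁻ b in Set.Icc (1 / 8 : ℝ) (1 / 2), ∫⁻ c in cubeC n,
      f (Function.update (mix I (μ • c₀) c) j b) := hm3.lintegral_prod_right'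
  calc ∫⁻ μ in Set.Icc (1 : ℝ) 2, ∫⁻ g in box n, f (mix I (μ • c₀) (fun i => μ / (4 * g i)))
      ≤ ∫⁻ μ in Set.Icc (1 : ℝ) 2, 16 ^ n * (8⁻¹ * ∫⁻ b in Set.Icc (1 / 8 : ℝ) (1 / 2),
          ∫⁻ c in cubeC n, f (Function.update (mix I (μ • c₀) c) j b)) := by
        refine setLIntegral_mono' measurableSet_Icc fun μ hμ => ?_
        have h1 := fu_one (fun c => f (mix I (μ • c₀) c))
          (hf.comp (meas_mix2 I _ _ measurable_const measurable_id)) j μ hμ
        refine h1.trans (le_of_eq ?_)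
        simp only [mix_update I j hj]
    _ = 16 ^ n * (8⁻¹ * ∫⁻ μ in Set.Icc (1 : ℝ) 2, ∫⁻ b in Set.Icc (1 / 8 : ℝ) (1 / 2),
          ∫⁻ c in cubeC n, f (Function.update (mix I (μ • c₀) c) j b)) := by
        rw [lintegral_const_mul _ (hm4.const_mul _), lintegral_const_mul _ hm4]
    _ = 16 ^ n * (8⁻¹ * ∫⁻ b in Set.Icc (1 / 8 : ℝ) (1 / 2), ∫⁻ μ in Set.Icc (1 : ℝ) 2,
          ∫⁻ c in cubeC n, f (Function.update (mix I (μ • c₀) c) j b)) := by
        rw [lintegral_lintegral_swap hm3.aemeasurable]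
    _ ≤ 16 ^ n * (1 * ∫⁻ b in Set.Icc (1 / 8 : ℝ) (1 / 2), B) := by
        refine mul_le_mul' le_rfl (mul_le_mul' (by norm_num) ?_)
        exact setLIntegral_mono' measurableSet_Icc hB
    _ ≤ 16 ^ n * B := by
        refine mul_le_mul' le_rfl ?_
        rw [one_mul, setLIntegral_const, Real.volume_Icc]
        calc B * ENNReal.ofReal (1 / 2 - 1 / 8) ≤ B * 1 := by
              refine mul_le_mul' le_rfl ?_
              rw [ENNReal.ofReal_le_one]
              norm_num
          _ = B := mul_one B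

end Pool.Agent.T9h70.LG
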