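import Pool.Agent.T9h70.LG.SmI
import Pool.Agent.T9h70.LG.FuJ

/-!
# (SMJ): the gain `min (|I|) (n-1)` (helper70)
-/

set_option autoImplicit false

namespace Pool.Agent.T9h70.LG

open Pool.Agent.T9h44.LG Pool.Agent.T9h44.LS4 Pool.Agent.T9h44.LS5 MeasureTheory Real
open scoped ENNReal ComplexConjugate

variable {n : ℕ}

/-- the sharper exponent of (SMI) -/
theorem smA (n : ℕ) (hit : S_itI n) (hfu : S_fuI n) (htr : S_tr n) (hkf : S_kf n) :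
    1 ≤ n → ∀ ε : ℝ, 0 < ε → ∃ M₀ : ℕ, ∀ M : ℕ, M₀ ≤ M → ∃ C : ℝ, 0 < C ∧
    ∀ (I : Finset (Fin n)) (j : Fin n), ∀ g₀ ∈ box n, ∀ R : ℝ, 1 ≤ R →
    ∀ G H : (Fin n → ℝ) → ℂ, NiceV G → NiceV H →
    (∀ ξ, G ξ = 2 * π * Complex.I * ξ j * H ξ) → (∀ ξ, G ξ ≠ 0 → ∀ i, |ξ i| ≤ 4 * R) →
    ∫⁻ g in box n, ∫⁻ w : ℝ, ∫⁻ x : Fin n → ℝ,
        ‖∫ u : Fin n → ℝ, KM M n R⁻¹ w (mix I g₀ g) (x - u) * ExV G u‖ₑ ^ 4 ≤
      ENNReal.ofReal (C * R ^ (4 * M + (ε + ((n : ℝ) - 1 - (I.erase j).card)))) *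
        ((∫⁻ x : Fin n → ℝ, ‖ExV G x‖ₑ ^ 4) +
          ENNReal.ofReal (R ^ 4) * ∫⁻ x : Fin n → ℝ, ‖ExV H x‖ₑ ^ 4) := by
  intro hn ε₀ hε₀
  obtain ⟨C₂, N, hC₂, hN, hit⟩ := hit ε₀ hε₀
  refine ⟨⌈8 + N⌉₊ + 2, fun M hM => ?_⟩
  have hM2 : 2 ≤ M := by omega
  have hMN : 8 + N ≤ 4 * (M : ℝ) := by
    have h1 : 8 + N ≤ (⌈8 + N⌉₊ : ℝ) := Nat.le_ceil _
    have h2 : ((⌈8 + N⌉₊ + 2 : ℕ) : ℝ) ≤ M := by exact_mod_cast hM
    push_cast at h2
    have h3 : (0 : ℝ) ≤ M := Nat.cast_nonneg _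
    linarith
  set K : ℕ := M + ⌈ε₀ + n⌉₊ with hKd
  have hK : 4 * (M : ℝ) + (ε₀ + n) ≤ 4 * (K : ℝ) := by
    have h1 : ε₀ + n ≤ (⌈ε₀ + n⌉₊ : ℝ) := Nat.le_ceil _
    have h2 : (0 : ℝ) ≤ n := Nat.cast_nonneg _
    rw [hKd]
    push_cast
    linarith
  obtain ⟨C₃, hC₃, htr⟩ := htr M K hM2
  obtain ⟨C₁, hC₁, hkf⟩ := hkf hn M
  refine ⟨C₁ ^ 4 * 1296 * 16 ^ n * (C₂ * C₃ * (16 * 8 ^ N)), by positivity, ?_⟩
  intro I j g₀ hg₀ R hR G H hG hH hGH hsupp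
  have hR0 : 0 < R := by linarith
  have hcard : ((I.erase j).card : ℝ) + 1 ≤ n := by
    have h1 : (I.erase j).card < Fintype.card (Fin n) := by
      rw [← Finset.card_univ]
      refine Finset.card_lt_card (Finset.ssubset_univ_iff.2 ?_)
      intro h
      have h2 := Finset.mem_univ j
      rw [← h] at h2
      exact Finset.notMem_erase j I h2
    rw [Fintype.card_fin] at h1
    exact_mod_cast h1
  set ε : ℝ := ε₀ + ((n : ℝ) - 1 - (I.erase j).card) with hεd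
  have hε : 0 < ε := by rw [hεd]; linarith
  replace hK : 4 * (M : ℝ) + ε ≤ 4 * (K : ℝ) := by
    have h3 : (0 : ℝ) ≤ (I.erase j).card := Nat.cast_nonneg _
    rw [hεd]; linarith
  set W : ℝ≥0∞ := (∫⁻ x : Fin n → ℝ, ‖ExV G x‖ₑ ^ 4) +
        ENNReal.ofReal (R ^ 4) * ∫⁻ x : Fin n → ℝ, ‖ExV H x‖ₑ ^ 4 with hW
  set D : ℝ := C₂ * C₃ * (16 * 8 ^ N) * R ^ (4 * (M : ℝ) + ε) with hD
  have hD0 : 0 ≤ D := by positivity
  set w : ℤ → ℝ≥0∞ := fun l => ENNReal.ofReal (wt R l) with hw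
  have hwpos : ∀ l, w l ≠ 0 := fun l => by
    rw [hw]; simp only [ne_eq, ENNReal.ofReal_eq_zero, not_le]; exact wt_pos hR0 l
  have hwtop : ∀ l, w l ≠ ∞ := fun l => ENNReal.ofReal_ne_top
  have hΛ : ∑' l, w l ≤ 6 := tsum_wt_le hR0
  set f : ℤ → (Fin n → ℝ) → ℝ≥0∞ := fun l c =>
    ∫⁻ p : ℝ × (Fin n → ℝ), ‖ExtN (UN c (FF M R l G)) p‖ₑ ^ 4 with hf
  have hFn : ∀ l, NiceN (FF M R l G) := fun l => FF_nice (by omega) hR0 l hG
  have hfm : ∀ l, Measurable (f l) := fun l => meas_f (hFn l).1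
  -- the bound of a piece
  have hB : ∀ l, ∫⁻ g in box n, f l (fun i => 1 / (4 * mix I g₀ g i)) ≤
      16 ^ n * (ENNReal.ofReal (C₂ * (1 + (2 : ℝ) ^ l / 2) ^ ε * (max 1 (8 * R / 2 ^ l)) ^ N) *
        (ENNReal.ofReal (C₃ * (((2 : ℝ) ^ l) ^ (M - 1) * (1 + 2 ^ l / R) ^ (-(K : ℤ)) * R) ^ 4) *
          W)) := by
    intro l
    have hp : (0 : ℝ) < 2 ^ l := by positivity
    refine hfu (f l) I j _ (hfm l) g₀ hg₀ fun c₀ hc₀ => ?_
    have h1 := hit (I.erase j) j (Finset.notMem_erase j I) c₀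
      (fun i => ⟨by linarith [(hc₀ i).1], by linarith [(hc₀ i).2]⟩)
      ((2 : ℝ) ^ l / 2) (max 1 (8 * R / 2 ^ l)) (by positivity) (le_max_left _ _)
      (FF M R l G) (hFn l) (by
        intro ζ hζ
        obtain ⟨a1, a2, a3⟩ := FF_ne hζ
        refine ⟨a1, by linarith, fun i => ?_⟩
        have a4 := hsupp _ a3 i
        have a5 : 4 * R ≤ 8 * R / 2 ^ l * ζ.1 := by
          rw [div_mul_eq_mul_div, le_div_iff₀ hp]
          nlinarith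
        have a6 : 8 * R / 2 ^ l * ζ.1 ≤ max 1 (8 * R / 2 ^ l) * ζ.1 :=
          mul_le_mul_of_nonneg_right (le_max_right _ _) (by linarith)
        linarith)
    refine h1.trans (mul_le_mul' le_rfl ?_)
    exact htr j (c₀ j) R l (hc₀ j) hR G H hG hH hGH
  -- pointwise
  have hpt : ∀ g ∈ box n, ∀ (v : ℝ) (x : Fin n → ℝ),
      ‖∫ u : Fin n → ℝ, KM M n R⁻¹ v g (x - u) * ExV G u‖ₑ ^ 4 ≤
        ENNReal.ofReal C₁ ^ 4 * (6 ^ 3 * ∑' l, ((w l)⁻¹) ^ 3 *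
          ‖ExtN (UN (fun i => 1 / (4 * g i)) (FF M R l G)) (v, x)‖ₑ ^ 4) := by
    intro g hg v x
    refine (pow_le_pow_left' (hkf g hg v R x hR G hG) 4).trans ?_
    rw [mul_pow]
    refine mul_le_mul' le_rfl ?_
    refine (tsum_pow_four_le _ w hwpos hwtop).trans ?_
    exact mul_le_mul' (pow_le_pow_left' hΛ 3) le_rfl
  calc ∫⁻ g in box n, ∫⁻ v : ℝ, ∫⁻ x : Fin n → ℝ,
        ‖∫ u : Fin n → ℝ, KM M n R⁻¹ v (mix I g₀ g) (x - u) * ExV G u‖ₑ ^ 4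
      ≤ ∫⁻ g in box n, ENNReal.ofReal C₁ ^ 4 * (6 ^ 3 * ∑' l, ((w l)⁻¹) ^ 3 *
          f l (fun i => 1 / (4 * mix I g₀ g i))) := by
        refine setLIntegral_mono' measurableSet_box fun g' hg' => ?_
        have hg := mix_mem I g₀ g' hg₀ hg'
        set g := mix I g₀ g' with hgd
        have hm1 : ∀ l, Measurable fun p : ℝ × (Fin n → ℝ) =>
            ((w l)⁻¹) ^ 3 * ‖ExtN (UN (fun i => 1 / (4 * g i)) (FF M R l G)) p‖ₑ ^ 4 := fun l =>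
          ((meas_p (hFn l).1 _).enorm.pow_const 4).const_mul _
        have hm2 : Measurable fun p : ℝ × (Fin n → ℝ) => ENNReal.ofReal C₁ ^ 4 *
            (6 ^ 3 * ∑' l, ((w l)⁻¹) ^ 3 *
              ‖ExtN (UN (fun i => 1 / (4 * g i)) (FF M R l G)) p‖ₑ ^ 4) :=
          ((Measurable.tsum hm1).const_mul _).const_mul _
        calc ∫⁻ v : ℝ, ∫⁻ x : Fin n → ℝ,
              ‖∫ u : Fin n → ℝ, KM M n R⁻¹ v g (x - u) * ExV G u‖ₑ ^ 4
            ≤ ∫⁻ v : ℝ, ∫⁻ x : Fin n → ℝ, ENNReal.ofReal C₁ ^ 4 *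
              (6 ^ 3 * ∑' l, ((w l)⁻¹) ^ 3 *
                ‖ExtN (UN (fun i => 1 / (4 * g i)) (FF M R l G)) (v, x)‖ₑ ^ 4) :=
              lintegral_mono fun v => lintegral_mono fun x => hpt g hg v x
          _ = ∫⁻ p : ℝ × (Fin n → ℝ), ENNReal.ofReal C₁ ^ 4 *
              (6 ^ 3 * ∑' l, ((w l)⁻¹) ^ 3 *
                ‖ExtN (UN (fun i => 1 / (4 * g i)) (FF M R l G)) p‖ₑ ^ 4) := by
              rw [Measure.volume_eq_prod, lintegral_prod _ hm2.aemeasurable]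
          _ = ENNReal.ofReal C₁ ^ 4 * (6 ^ 3 * ∑' l, ((w l)⁻¹) ^ 3 *
                f l (fun i => 1 / (4 * g i))) := by
              rw [lintegral_const_mul _ ((Measurable.tsum hm1).const_mul _),
                lintegral_const_mul _ (Measurable.tsum hm1),
                lintegral_tsum fun l => (hm1 l).aemeasurable]
              congr 3
              funext l
              rw [lintegral_const_mul _ ((meas_p (hFn l).1 _).enorm.pow_const 4)]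
    _ = ENNReal.ofReal C₁ ^ 4 * (6 ^ 3 * ∑' l, ((w l)⁻¹) ^ 3 *
          ∫⁻ g in box n, f l (fun i => 1 / (4 * mix I g₀ g i))) := by
        have hm3 : ∀ l, Measurable fun g : Fin n → ℝ => f l (fun i => 1 / (4 * mix I g₀ g i)) :=
          fun l => (hfm l).comp (meas_mixinv I g₀)
        have hm4 : ∀ l, Measurable fun g : Fin n → ℝ =>
            ((w l)⁻¹) ^ 3 * f l (fun i => 1 / (4 * mix I g₀ g i)) := fun l => (hm3 l).const_mul _
        rw [lintegral_const_mul _ ((Measurable.tsum hm4).const_mul _),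
          lintegral_const_mul _ (Measurable.tsum hm4),
          lintegral_tsum fun l => (hm4 l).aemeasurable]
        congr 3
        funext l
        rw [lintegral_const_mul _ (hm3 l)]
    _ ≤ ENNReal.ofReal C₁ ^ 4 * (6 ^ 3 * ∑' l, (ENNReal.ofReal D * 16 ^ n * W) * w l) := by
        refine mul_le_mul' le_rfl (mul_le_mul' le_rfl (ENNReal.tsum_le_tsum fun l => ?_))
        refine (mul_le_mul' le_rfl (hB l)).trans ?_
        have hwl := wt_pos hR0 l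
        have e1 : ((w l)⁻¹) ^ 3 = ENNReal.ofReal (((wt R l)⁻¹) ^ 3) := by
          rw [hw]
          simp only
          rw [← ENNReal.ofReal_inv_of_pos hwl, ENNReal.ofReal_pow (inv_nonneg.mpr hwl.le)]
        have hτ : (0 : ℝ) < 1 + 2 ^ l / R := by positivity
        have x0 : 0 ≤ ((wt R l)⁻¹) ^ 3 := by positivity
        have y0 : 0 ≤ C₂ * (1 + (2 : ℝ) ^ l / 2) ^ ε * (max 1 (8 * R / 2 ^ l)) ^ N := by positivity
        have z0 : 0 ≤ C₃ * (((2 : ℝ) ^ l) ^ (M - 1) * (1 + 2 ^ l / R) ^ (-(K : ℤ)) * R) ^ 4 := by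
          positivity
        rw [e1]
        calc ENNReal.ofReal (((wt R l)⁻¹) ^ 3) *
              (16 ^ n * (ENNReal.ofReal (C₂ * (1 + (2 : ℝ) ^ l / 2) ^ ε *
                (max 1 (8 * R / 2 ^ l)) ^ N) *
              (ENNReal.ofReal (C₃ * (((2 : ℝ) ^ l) ^ (M - 1) * (1 + 2 ^ l / R) ^ (-(K : ℤ)) *
                R) ^ 4) * W)))
            = ENNReal.ofReal (((wt R l)⁻¹) ^ 3 * (C₂ * (1 + (2 : ℝ) ^ l / 2) ^ ε *
                (max 1 (8 * R / 2 ^ l)) ^ N) *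
              (C₃ * (((2 : ℝ) ^ l) ^ (M - 1) * (1 + 2 ^ l / R) ^ (-(K : ℤ)) * R) ^ 4)) *
                16 ^ n * W := by
              rw [ENNReal.ofReal_mul (mul_nonneg x0 y0), ENNReal.ofReal_mul x0]
              ring
          _ ≤ ENNReal.ofReal (D * wt R l) * 16 ^ n * W := by
              refine mul_le_mul' (mul_le_mul' (ENNReal.ofReal_le_ofReal ?_) le_rfl) le_rfl
              exact piece hε hN hMN hK hC₂ hC₃ hR l
          _ = ENNReal.ofReal D * 16 ^ n * W * w l := by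
              rw [ENNReal.ofReal_mul hD0]
              ring
    _ = ENNReal.ofReal C₁ ^ 4 * (6 ^ 3 * ((ENNReal.ofReal D * 16 ^ n * W) * ∑' l, w l)) := by
        rw [ENNReal.tsum_mul_left]
    _ ≤ ENNReal.ofReal C₁ ^ 4 * (6 ^ 3 * ((ENNReal.ofReal D * 16 ^ n * W) * 6)) := by
        gcongr
    _ = ENNReal.ofReal (C₁ ^ 4 * 1296 * 16 ^ n * (C₂ * C₃ * (16 * 8 ^ N)) *
          R ^ (4 * (M : ℝ) + ε)) * W := by
        have e2 : C₁ ^ 4 * 1296 * 16 ^ n * (C₂ * C₃ * (16 * 8 ^ N)) * R ^ (4 * (M : ℝ) + ε) =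
            C₁ ^ 4 * 1296 * 16 ^ n * D := by rw [hD]; ring
        have e3 : ENNReal.ofReal (C₁ ^ 4 * 1296 * 16 ^ n * D) =
            ENNReal.ofReal C₁ ^ 4 * 1296 * 16 ^ n * ENNReal.ofReal D := by
          rw [ENNReal.ofReal_mul (by positivity), ENNReal.ofReal_mul (by positivity),
            ENNReal.ofReal_mul (by positivity), ENNReal.ofReal_pow hC₁.le,
            ENNReal.ofReal_pow (by norm_num), ENNReal.ofReal_ofNat, ENNReal.ofReal_ofNat]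
        rw [e2, e3]
        ring

/-! ### The kernel is homogeneous -/

lemma KM_scale (M n : ℕ) (y w μ : ℝ) (hμ : 0 < μ) (g z : Fin n → ℝ) :
    KM M n (y / μ) (w / μ) (μ⁻¹ • g) z =
      ((μ ^ (((n : ℝ) - 1) / 2 + M + 1) : ℝ) : ℂ) * KM M n y w g z := by
  unfold KM
  have h := integral_comp_mul_left_Ioi' (fun s : ℝ =>
    ((s ^ (((n : ℝ) - 1) / 2 + M) * Real.exp (-(2 * π * s * (y / μ))) : ℝ) : ℂ) *
      os s (q (μ⁻¹ • g) z - w / μ)) 0 hμ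
  rw [mul_zero] at h
  rw [← h, Complex.real_smul]
  have e1 : ∀ x ∈ Set.Ioi (0 : ℝ), (((μ * x) ^ (((n : ℝ) - 1) / 2 + M) *
      Real.exp (-(2 * π * (μ * x) * (y / μ))) : ℝ) : ℂ) * os (μ * x) (q (μ⁻¹ • g) z - w / μ) =
      ((μ ^ (((n : ℝ) - 1) / 2 + M) : ℝ) : ℂ) *
      (((x ^ (((n : ℝ) - 1) / 2 + M) * Real.exp (-(2 * π * x * y)) : ℝ) : ℂ) *
        os x (q g z - w)) := by
    intro x hx
    have hx0 : 0 < x := hx
    have e2 : os (μ * x) (q (μ⁻¹ • g) z - w / μ) = os x (q g z - w) := by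
      unfold os
      congr 3
      have e3 : q (μ⁻¹ • g) z = μ⁻¹ * q g z := by
        unfold q
        rw [Finset.mul_sum]
        refine Finset.sum_congr rfl fun i _ => ?_
        simp only [Pi.smul_apply, smul_eq_mul]
        ring
      rw [e3]
      field_simp
    rw [e2, Real.mul_rpow hμ.le hx0.le]
    have e4 : 2 * π * (μ * x) * (y / μ) = 2 * π * x * y := by field_simp
    rw [e4]
    push_cast
    ring
  rw [setIntegral_congr_fun measurableSet_Ioi e1, integral_const_mul, ← mul_assoc]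
  congr 1
  rw [← Complex.ofReal_mul]
  congr 1
  rw [Real.rpow_add hμ _ 1, Real.rpow_one]
  ring

lemma homog (M n : ℕ) (R μ : ℝ) (hμ : 1 ≤ μ) (g : Fin n → ℝ) (F : (Fin n → ℝ) → ℂ) :
    ∫⁻ w : ℝ, ∫⁻ x : Fin n → ℝ, ‖∫ u : Fin n → ℝ, KM M n R⁻¹ w g (x - u) * F u‖ₑ ^ 4 ≤
    ∫⁻ w : ℝ, ∫⁻ x : Fin n → ℝ,
      ‖∫ u : Fin n → ℝ, KM M n (R * μ)⁻¹ w (μ⁻¹ • g) (x - u) * F u‖ₑ ^ 4 := by
  have hμ0 : 0 < μ := by linarith
  set T : ℝ → ℝ≥0∞ := fun w => ∫⁻ x : Fin n → ℝ,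
      ‖∫ u : Fin n → ℝ, KM M n (R * μ)⁻¹ w (μ⁻¹ • g) (x - u) * F u‖ₑ ^ 4 with hT
  set k : ℝ := μ ^ (((n : ℝ) - 1) / 2 + M + 1) with hk
  have hexp : (1 / 2 : ℝ) ≤ ((n : ℝ) - 1) / 2 + M + 1 := by
    have h1 : (0 : ℝ) ≤ n := Nat.cast_nonneg _
    have h2 : (0 : ℝ) ≤ M := Nat.cast_nonneg _
    linarith
  have hk4 : μ ≤ k ^ 4 := by
    have h1 : k ^ 4 = μ ^ ((((n : ℝ) - 1) / 2 + M + 1) * 4) := by
      rw [hk, Real.rpow_mul hμ0.le]
      norm_cast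
    rw [h1]
    calc μ = μ ^ (1 : ℝ) := (Real.rpow_one μ).symm
      _ ≤ _ := Real.rpow_le_rpow_of_exponent_le hμ (by linarith)
  have hk0 : 0 ≤ k := by positivity
  -- the scaling in `w`
  have h1 : ∫⁻ w : ℝ, T (μ⁻¹ * w) = ENNReal.ofReal μ * ∫⁻ w : ℝ, T w := by
    have hne : μ⁻¹ ≠ 0 := by positivity
    rw [← (measurableEmbedding_mulLeft₀ hne).lintegral_map (fun w => T w),
      Real.map_volume_mul_left hne, lintegral_smul_measure, inv_inv, abs_of_pos hμ0, smul_eq_mul]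
  have h2 : ∀ w : ℝ, T (μ⁻¹ * w) = ENNReal.ofReal (k ^ 4) *
      ∫⁻ x : Fin n → ℝ, ‖∫ u : Fin n → ℝ, KM M n R⁻¹ w g (x - u) * F u‖ₑ ^ 4 := by
    intro w
    rw [hT]
    simp only
    rw [← lintegral_const_mul' _ _ ENNReal.ofReal_ne_top]
    refine lintegral_congr fun x => ?_
    have e1 : ∀ u, KM M n (R * μ)⁻¹ (μ⁻¹ * w) (μ⁻¹ • g) (x - u) * F u =
        ((k : ℝ) : ℂ) * (KM M n R⁻¹ w g (x - u) * F u) := by
      intro u
      have e2 : (R * μ)⁻¹ = R⁻¹ / μ := by rw [mul_inv]; rfl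
      have e3 : μ⁻¹ * w = w / μ := by rw [mul_comm]; rfl
      rw [e2, e3, KM_scale M n R⁻¹ w μ hμ0 g (x - u), mul_assoc]
    simp_rw [e1]
    rw [integral_const_mul, enorm_mul, mul_pow]
    congr 1
    rw [← ofReal_norm, Complex.norm_real, Real.norm_of_nonneg hk0, ENNReal.ofReal_pow hk0]
  simp_rw [h2] at h1
  rw [lintegral_const_mul' _ _ ENNReal.ofReal_ne_top] at h1
  have h3 : ENNReal.ofReal μ * ∫⁻ w : ℝ, ∫⁻ x : Fin n → ℝ,
      ‖∫ u : Fin n → ℝ, KM M n R⁻¹ w g (x - u) * F u‖ₑ ^ 4 ≤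
      ENNReal.ofReal μ * ∫⁻ w : ℝ, T w := by
    rw [← h1]
    exact mul_le_mul' (ENNReal.ofReal_le_ofReal hk4) le_rfl
  rwa [ENNReal.mul_le_mul_iff_right (by rw [Ne, ENNReal.ofReal_eq_zero, not_le]; exact hμ0)
    ENNReal.ofReal_ne_top] at h3

/-- the change of the amplitude -/
lemma FF_mul (M : ℕ) (R μ : ℝ) (hR : 0 < R) (hμ : 0 < μ) (l : ℤ) (G : (Fin n → ℝ) → ℂ) :
    FF M (R * μ) l G = fun ζ =>
      ((Real.exp (-(2 * π * (2 / (R * μ) - 1 / R) * ζ.1)) : ℝ) : ℂ) * FF M (2 * R) l G ζ := by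
  funext ζ
  unfold FF am
  have e1 : Real.exp (-(4 * π * ζ.1 / (R * μ))) =
      Real.exp (-(2 * π * (2 / (R * μ) - 1 / R) * ζ.1)) * Real.exp (-(4 * π * ζ.1 / (2 * R))) := by
    rw [← Real.exp_add]
    congr 1
    field_simp
    ring
  rw [e1]
  push_cast
  ring

lemma cc_eq (I : Finset (Fin n)) (g₀ g : Fin n → ℝ) (μ : ℝ) :
    (fun i => 1 / (4 * (μ⁻¹ • mix I g₀ g) i)) =
      mix I (μ • fun i => 1 / (4 * g₀ i)) (fun i => μ / (4 * g i)) := by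
  funext i
  unfold mix
  simp only [Pi.smul_apply, smul_eq_mul]
  by_cases h : i ∈ I
  · simp only [h, if_true]
    rw [one_div, mul_inv, mul_inv, inv_inv, div_eq_mul_inv, mul_inv]
    ring
  · simp only [h, if_false]
    rw [one_div, mul_inv, mul_inv, inv_inv, one_div, mul_inv]
    ring

/-- one `μ`, one `g` -/
lemma one_mu (hpo : S_po n) (M : ℕ) (hM : 1 ≤ M) (C₁ : ℝ)
    (hkf : ∀ g : Fin n → ℝ, (∀ i, g i ∈ Set.Icc (1 / 2 : ℝ) 2) →
    ∀ (w R : ℝ) (x : Fin n → ℝ), 1 ≤ R → ∀ G : (Fin n → ℝ) → ℂ, NiceV G →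
      ‖∫ u : Fin n → ℝ, KM M n R⁻¹ w g (x - u) * ExV G u‖ₑ ≤
        ENNReal.ofReal C₁ * ∑' l : ℤ, ‖ExtN (UN (fun i => 1 / (4 * g i)) fun ζ =>
          ((bet (ζ.1 / 2 ^ l) * am M R ζ.1 : ℝ) : ℂ) * G ζ.2) (w, x)‖ₑ)
    (I : Finset (Fin n)) (g₀ : Fin n → ℝ) (hg₀ : g₀ ∈ box n) (R₁ : ℝ) (hR₁ : 1 ≤ R₁)
    (G : (Fin n → ℝ) → ℂ) (hG : NiceV G) (w : ℤ → ℝ≥0∞) (hwpos : ∀ l, w l ≠ 0)
    (hwtop : ∀ l, w l ≠ ∞) (hΛ : ∑' l, w l ≤ 6)
    (g : Fin n → ℝ) (hg : g ∈ box n) (μ : ℝ) (hμ : μ ∈ Set.Icc (1 : ℝ) 2) :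
    ∫⁻ v : ℝ, ∫⁻ x : Fin n → ℝ,
        ‖∫ u : Fin n → ℝ, KM M n (R₁ * μ)⁻¹ v (μ⁻¹ • mix I g₀ g) (x - u) * ExV G u‖ₑ ^ 4 ≤
      ENNReal.ofReal C₁ ^ 4 * (6 ^ 3 * ∑' l, ((w l)⁻¹) ^ 3 *
        ∫⁻ p : ℝ × (Fin n → ℝ), ‖ExtN (UN (mix I (μ • fun i => 1 / (4 * g₀ i))
          (fun i => μ / (4 * g i))) (FF M (2 * R₁) l G)) p‖ₑ ^ 4) := by
  have hR₁0 : 0 < R₁ := by linarith
  have hR0 : 0 < 2 * R₁ := by linarith
  have hFn : ∀ l, NiceN (FF M (2 * R₁) l G) := fun l => FF_nice (by omega) hR0 l hG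
  have hμ0 : 0 < μ := by linarith [hμ.1]
  have hgm := mix_mem I g₀ g hg₀ hg
  have hc := cc_eq I g₀ g μ
  have hgm' : ∀ i, (μ⁻¹ • mix I g₀ g) i ∈ Set.Icc (1 / 2 : ℝ) 2 := by
    intro i
    have h1 := (hgm i).1
    have h2 := (hgm i).2
    have h3 : μ⁻¹ ≤ 1 := inv_le_one_of_one_le₀ hμ.1
    have h4 : (1 / 2 : ℝ) ≤ μ⁻¹ := by
      rw [one_div]; exact inv_anti₀ hμ0 hμ.2
    simp only [Pi.smul_apply, smul_eq_mul]
    constructor
    · nlinarith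
    · nlinarith
  have hRμ : 1 ≤ R₁ * μ := by nlinarith [hμ.1]
  have hF' : ∀ l, NiceN (FF M (R₁ * μ) l G) := fun l => FF_nice (by omega) (by positivity) l hG
  set c : Fin n → ℝ := mix I (μ • fun i => 1 / (4 * g₀ i)) (fun i => μ / (4 * g i)) with hcd
  have hm1 : ∀ l, Measurable fun p : ℝ × (Fin n → ℝ) =>
      ((w l)⁻¹) ^ 3 * ‖ExtN (UN c (FF M (R₁ * μ) l G)) p‖ₑ ^ 4 := fun l =>
    ((meas_p (hF' l).1 _).enorm.pow_const 4).const_mul _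
  have hm2 : Measurable fun p : ℝ × (Fin n → ℝ) => ENNReal.ofReal C₁ ^ 4 *
      (6 ^ 3 * ∑' l, ((w l)⁻¹) ^ 3 * ‖ExtN (UN c (FF M (R₁ * μ) l G)) p‖ₑ ^ 4) :=
    ((Measurable.tsum hm1).const_mul _).const_mul _
  calc ∫⁻ v : ℝ, ∫⁻ x : Fin n → ℝ,
        ‖∫ u : Fin n → ℝ, KM M n (R₁ * μ)⁻¹ v (μ⁻¹ • mix I g₀ g) (x - u) * ExV G u‖ₑ ^ 4
      ≤ ∫⁻ v : ℝ, ∫⁻ x : Fin n → ℝ, ENNReal.ofReal C₁ ^ 4 *
        (6 ^ 3 * ∑' l, ((w l)⁻¹) ^ 3 * ‖ExtN (UN c (FF M (R₁ * μ) l G)) (v, x)‖ₑ ^ 4) := by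
        refine lintegral_mono fun v => lintegral_mono fun x => ?_
        have h1 := hkf (μ⁻¹ • mix I g₀ g) hgm' v (R₁ * μ) x hRμ G hG
        rw [hc] at h1
        refine (pow_le_pow_left' h1 4).trans ?_
        rw [mul_pow]
        refine mul_le_mul' le_rfl ?_
        refine (tsum_pow_four_le _ w hwpos hwtop).trans ?_
        exact mul_le_mul' (pow_le_pow_left' hΛ 3) le_rfl
    _ = ∫⁻ p : ℝ × (Fin n → ℝ), ENNReal.ofReal C₁ ^ 4 *
        (6 ^ 3 * ∑' l, ((w l)⁻¹) ^ 3 * ‖ExtN (UN c (FF M (R₁ * μ) l G)) p‖ₑ ^ 4) := by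
        rw [Measure.volume_eq_prod, lintegral_prod _ hm2.aemeasurable]
    _ = ENNReal.ofReal C₁ ^ 4 * (6 ^ 3 * ∑' l, ((w l)⁻¹) ^ 3 *
          ∫⁻ p : ℝ × (Fin n → ℝ), ‖ExtN (UN c (FF M (R₁ * μ) l G)) p‖ₑ ^ 4) := by
        rw [lintegral_const_mul _ ((Measurable.tsum hm1).const_mul _),
          lintegral_const_mul _ (Measurable.tsum hm1),
          lintegral_tsum fun l => (hm1 l).aemeasurable]
        congr 3
        funext l
        rw [lintegral_const_mul _ ((meas_p (hF' l).1 _).enorm.pow_const 4)]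
    _ ≤ _ := by
        refine mul_le_mul' le_rfl (mul_le_mul' le_rfl (ENNReal.tsum_le_tsum fun l => ?_))
        refine mul_le_mul' le_rfl ?_
        have hτ : 0 ≤ 2 / (R₁ * μ) - 1 / R₁ := by
          rw [sub_nonneg, div_le_div_iff₀ hR₁0 (by positivity)]
          nlinarith [hμ.2]
        have h1 := hpo c (2 / (R₁ * μ) - 1 / R₁) hτ (FF M (2 * R₁) l G) (hFn l) (fun ζ hζ => by
          have := (FF_ne hζ).1
          have hp : (0 : ℝ) < 2 ^ l := by positivity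
          linarith)
        rw [FF_mul M R₁ μ hR₁0 hμ0 l G]
        exact h1

/-- interchange of the sum and the integrals -/
lemma exch (F : ℤ → (Fin n → ℝ) × ℝ → ℝ≥0∞) (hF : ∀ l, Measurable (F l)) (v : ℤ → ℝ≥0∞)
    (a : ℝ≥0∞) :
    ∫⁻ g in box n, ∫⁻ μ in Set.Icc (1 : ℝ) 2, a * (6 ^ 3 * ∑' l, v l * F l (g, μ)) =
      a * (6 ^ 3 * ∑' l, v l * ∫⁻ g in box n, ∫⁻ μ in Set.Icc (1 : ℝ) 2, F l (g, μ)) := by
  have hm4 : ∀ l, ∀ g : Fin n → ℝ, Measurable fun μ : ℝ => F l (g, μ) := fun l g =>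
    (hF l).comp (measurable_const.prodMk measurable_id)
  have hm5 : ∀ l, Measurable fun g : Fin n → ℝ => ∫⁻ μ in Set.Icc (1 : ℝ) 2, F l (g, μ) :=
    fun l => (hF l).lintegral_prod_right'
  have e1 : ∀ g : Fin n → ℝ, ∫⁻ μ in Set.Icc (1 : ℝ) 2, a * (6 ^ 3 * ∑' l, v l * F l (g, μ)) =
      a * (6 ^ 3 * ∑' l, v l * ∫⁻ μ in Set.Icc (1 : ℝ) 2, F l (g, μ)) := by
    intro g
    rw [lintegral_const_mul _ ((Measurable.tsum fun l => (hm4 l g).const_mul _).const_mul _),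
      lintegral_const_mul _ (Measurable.tsum fun l => (hm4 l g).const_mul _),
      lintegral_tsum fun l => ((hm4 l g).const_mul _).aemeasurable]
    congr 3
    funext l
    rw [lintegral_const_mul _ (hm4 l g)]
  rw [lintegral_congr e1]
  rw [lintegral_const_mul _ ((Measurable.tsum fun l => (hm5 l).const_mul _).const_mul _),
    lintegral_const_mul _ (Measurable.tsum fun l => (hm5 l).const_mul _),
    lintegral_tsum fun l => ((hm5 l).const_mul _).aemeasurable]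
  congr 3
  funext l
  rw [lintegral_const_mul _ (hm5 l)]

/-- the case `j ∈ I`, `i₁ ∉ I` -/
theorem smB (n : ℕ) (hit : S_itJ n) (hpo : S_po n) (htr : S_trJ n) (hkf : S_kfJ n) :
    1 ≤ n → ∀ ε : ℝ, 0 < ε → ∃ M₀ : ℕ, ∀ M : ℕ, M₀ ≤ M → ∃ C : ℝ, 0 < C ∧
    ∀ (I : Finset (Fin n)) (j i₁ : Fin n), j ∈ I → i₁ ∉ I → ∀ g₀ ∈ box n, ∀ R : ℝ, 1 ≤ R →
    ∀ G H : (Fin n → ℝ) → ℂ, NiceV G → NiceV H →
    (∀ ξ, G ξ = 2 * π * Complex.I * ξ j * H ξ) → (∀ ξ, G ξ ≠ 0 → ∀ i, |ξ i| ≤ 4 * R) →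
    ∫⁻ g in box n, ∫⁻ w : ℝ, ∫⁻ x : Fin n → ℝ,
        ‖∫ u : Fin n → ℝ, KM M n R⁻¹ w (mix I g₀ g) (x - u) * ExV G u‖ₑ ^ 4 ≤
      ENNReal.ofReal (C * R ^ (4 * M + (ε + ((n : ℝ) - 1 - I.card)))) *
        ((∫⁻ x : Fin n → ℝ, ‖ExV G x‖ₑ ^ 4) +
          ENNReal.ofReal (R ^ 4) * ∫⁻ x : Fin n → ℝ, ‖ExV H x‖ₑ ^ 4) := by
  intro hn ε₀ hε₀
  obtain ⟨C₂, N, hC₂, hN, hit⟩ := hit ε₀ hε₀
  refine ⟨⌈8 + N⌉₊ + 2, fun M hM => ?_⟩
  have hM2 : 2 ≤ M := by omega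
  have hMN : 8 + N ≤ 4 * (M : ℝ) := by
    have h1 : 8 + N ≤ (⌈8 + N⌉₊ : ℝ) := Nat.le_ceil _
    have h2 : ((⌈8 + N⌉₊ + 2 : ℕ) : ℝ) ≤ M := by exact_mod_cast hM
    push_cast at h2
    have h3 : (0 : ℝ) ≤ M := Nat.cast_nonneg _
    linarith
  set K : ℕ := M + ⌈ε₀ + n⌉₊ with hKd
  have hK : 4 * (M : ℝ) + (ε₀ + n) ≤ 4 * (K : ℝ) := by
    have h1 : ε₀ + n ≤ (⌈ε₀ + n⌉₊ : ℝ) := Nat.le_ceil _
    have h2 : (0 : ℝ) ≤ n := Nat.cast_nonneg _
    rw [hKd]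
    push_cast
    linarith
  obtain ⟨C₃, hC₃, htr⟩ := htr M K hM2
  obtain ⟨C₁, hC₁, hkf⟩ := hkf hn M
  refine ⟨C₁ ^ 4 * 1296 * 16 ^ n * (C₂ * C₃ * (16 * 8 ^ N)) * 2 ^ (4 * (M : ℝ) + (ε₀ + n)) * 16,
    by positivity, ?_⟩
  intro I j i₁ hj hi₁ g₀ hg₀ R₁ hR₁ G H hG hH hGH hsupp₁
  have hR₁0 : 0 < R₁ := by linarith
  set R : ℝ := 2 * R₁ with hRd
  have hR : 1 ≤ R := by linarith
  have hR0 : 0 < R := by linarith
  have hsupp : ∀ ξ, G ξ ≠ 0 → ∀ i, |ξ i| ≤ 4 * R := fun ξ hξ i => by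
    have := hsupp₁ ξ hξ i
    linarith
  have hcard : (I.card : ℝ) + 1 ≤ n := by
    have h1 : I.card < Fintype.card (Fin n) := by
      rw [← Finset.card_univ]
      refine Finset.card_lt_card (Finset.ssubset_univ_iff.2 ?_)
      intro h
      apply hi₁
      rw [h]
      exact Finset.mem_univ _
    rw [Fintype.card_fin] at h1
    exact_mod_cast h1
  set ε : ℝ := ε₀ + ((n : ℝ) - 1 - I.card) with hεd
  have hε : 0 < ε := by rw [hεd]; linarith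
  have hεn : ε ≤ ε₀ + n := by
    have h3 : (0 : ℝ) ≤ I.card := Nat.cast_nonneg _
    rw [hεd]; linarith
  replace hK : 4 * (M : ℝ) + ε ≤ 4 * (K : ℝ) := by linarith
  set c₀ : Fin n → ℝ := fun i => 1 / (4 * g₀ i) with hc₀
  have hc₀m : ∀ i, c₀ i ∈ Set.Icc (1 / 8 : ℝ) (1 / 4) := by
    intro i
    have h1 := (hg₀ i).1
    have h2 := (hg₀ i).2
    rw [hc₀]
    constructor
    · rw [div_le_div_iff₀ (by norm_num) (by linarith)]
      linarith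
    · rw [div_le_div_iff₀ (by linarith) (by norm_num)]
      linarith
  set W : ℝ≥0∞ := (∫⁻ x : Fin n → ℝ, ‖ExV G x‖ₑ ^ 4) +
        ENNReal.ofReal (R ^ 4) * ∫⁻ x : Fin n → ℝ, ‖ExV H x‖ₑ ^ 4 with hW
  set D : ℝ := C₂ * C₃ * (16 * 8 ^ N) * R ^ (4 * (M : ℝ) + ε) with hD
  have hD0 : 0 ≤ D := by positivity
  set w : ℤ → ℝ≥0∞ := fun l => ENNReal.ofReal (wt R l) with hw
  have hwpos : ∀ l, w l ≠ 0 := fun l => by
    rw [hw]; simp only [ne_eq, ENNReal.ofReal_eq_zero, not_le]; exact wt_pos hR0 l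
  have hwtop : ∀ l, w l ≠ ∞ := fun l => ENNReal.ofReal_ne_top
  have hΛ : ∑' l, w l ≤ 6 := tsum_wt_le hR0
  set f : ℤ → (Fin n → ℝ) → ℝ≥0∞ := fun l c =>
    ∫⁻ p : ℝ × (Fin n → ℝ), ‖ExtN (UN c (FF M R l G)) p‖ₑ ^ 4 with hf
  have hFn : ∀ l, NiceN (FF M R l G) := fun l => FF_nice (by omega) hR0 l hG
  have hfm : ∀ l, Measurable (f l) := fun l => meas_f (hFn l).1
  -- the bound of a piece
  have hB : ∀ l, ∫⁻ g in box n, ∫⁻ μ in Set.Icc (1 : ℝ) 2,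
        f l (mix I (μ • c₀) (fun i => μ / (4 * g i))) ≤
      16 ^ n * (ENNReal.ofReal (C₂ * (1 + (2 : ℝ) ^ l / 2) ^ ε * (max 1 (8 * R / 2 ^ l)) ^ N) *
        (ENNReal.ofReal (C₃ * (((2 : ℝ) ^ l) ^ (M - 1) * (1 + 2 ^ l / R) ^ (-(K : ℤ)) * R) ^ 4) *
          W)) := by
    intro l
    have hp : (0 : ℝ) < 2 ^ l := by positivity
    refine fuJ (f l) (hfm l) I j hj c₀ _ fun b hb => ?_
    have h1 := hit I j i₁ hj hi₁ c₀ hc₀m b hb
      ((2 : ℝ) ^ l / 2) (max 1 (8 * R / 2 ^ l)) (by positivity) (le_max_left _ _)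
      (FF M R l G) (hFn l) (by
        intro ζ hζ
        obtain ⟨a1, a2, a3⟩ := FF_ne hζ
        refine ⟨a1, by linarith, fun i => ?_⟩
        have a4 := hsupp _ a3 i
        have a5 : 4 * R ≤ 8 * R / 2 ^ l * ζ.1 := by
          rw [div_mul_eq_mul_div, le_div_iff₀ hp]
          nlinarith
        have a6 : 8 * R / 2 ^ l * ζ.1 ≤ max 1 (8 * R / 2 ^ l) * ζ.1 :=
          mul_le_mul_of_nonneg_right (le_max_right _ _) (by linarith)
        linarith)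
    refine h1.trans (mul_le_mul' le_rfl ?_)
    exact htr j b R l hb hR G H hG hH hGH
  have hpt : ∀ g ∈ box n, ∀ μ ∈ Set.Icc (1 : ℝ) 2,
      ∫⁻ v : ℝ, ∫⁻ x : Fin n → ℝ,
        ‖∫ u : Fin n → ℝ, KM M n (R₁ * μ)⁻¹ v (μ⁻¹ • mix I g₀ g) (x - u) * ExV G u‖ₑ ^ 4 ≤
      ENNReal.ofReal C₁ ^ 4 * (6 ^ 3 * ∑' l, ((w l)⁻¹) ^ 3 *
          f l (mix I (μ • c₀) (fun i => μ / (4 * g i)))) := fun g hg μ hμ =>
    one_mu hpo M (by omega) C₁ hkf I g₀ hg₀ R₁ hR₁ G hG w hwpos hwtop hΛ g hg μ hμ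
  calc ∫⁻ g in box n, ∫⁻ v : ℝ, ∫⁻ x : Fin n → ℝ,
        ‖∫ u : Fin n → ℝ, KM M n R₁⁻¹ v (mix I g₀ g) (x - u) * ExV G u‖ₑ ^ 4
      = ∫⁻ g in box n, ∫⁻ μ in Set.Icc (1 : ℝ) 2, ∫⁻ v : ℝ, ∫⁻ x : Fin n → ℝ,
        ‖∫ u : Fin n → ℝ, KM M n R₁⁻¹ v (mix I g₀ g) (x - u) * ExV G u‖ₑ ^ 4 := by
        refine lintegral_congr fun g => ?_
        rw [setLIntegral_const, Real.volume_Icc]
        norm_num
    _ ≤ ∫⁻ g in box n, ∫⁻ μ in Set.Icc (1 : ℝ) 2,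
          ENNReal.ofReal C₁ ^ 4 * (6 ^ 3 * ∑' l, ((w l)⁻¹) ^ 3 *
          f l (mix I (μ • c₀) (fun i => μ / (4 * g i)))) := by
        refine setLIntegral_mono' measurableSet_box fun g hg => ?_
        refine setLIntegral_mono' measurableSet_Icc fun μ hμ => ?_
        exact (homog M n R₁ μ hμ.1 (mix I g₀ g) (ExV G)).trans (hpt g hg μ hμ)
    _ = ENNReal.ofReal C₁ ^ 4 * (6 ^ 3 * ∑' l, ((w l)⁻¹) ^ 3 *
          ∫⁻ g in box n, ∫⁻ μ in Set.Icc (1 : ℝ) 2,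
            f l (mix I (μ • c₀) (fun i => μ / (4 * g i)))) := by
        have hm3 : ∀ l, Measurable fun p : (Fin n → ℝ) × ℝ =>
            f l (mix I (p.2 • c₀) (fun i => p.2 / (4 * p.1 i))) := fun l => by
          refine (hfm l).comp (meas_mix2 I _ _ (by fun_prop) ?_)
          refine measurable_pi_lambda _ fun i => ?_
          exact measurable_snd.div (((measurable_pi_apply i).comp measurable_fst).const_mul 4)
        exact exch (fun l p => f l (mix I (p.2 • c₀) (fun i => p.2 / (4 * p.1 i)))) hm3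
          (fun l => ((w l)⁻¹) ^ 3) (ENNReal.ofReal C₁ ^ 4)
    _ ≤ ENNReal.ofReal C₁ ^ 4 * (6 ^ 3 * ∑' l, (ENNReal.ofReal D * 16 ^ n * W) * w l) := by
        refine mul_le_mul' le_rfl (mul_le_mul' le_rfl (ENNReal.tsum_le_tsum fun l => ?_))
        refine (mul_le_mul' le_rfl (hB l)).trans ?_
        have hwl := wt_pos hR0 l
        have e1 : ((w l)⁻¹) ^ 3 = ENNReal.ofReal (((wt R l)⁻¹) ^ 3) := by
          rw [hw]
          simp only
          rw [← ENNReal.ofReal_inv_of_pos hwl, ENNReal.ofReal_pow (inv_nonneg.mpr hwl.le)]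
        have hτ : (0 : ℝ) < 1 + 2 ^ l / R := by positivity
        have x0 : 0 ≤ ((wt R l)⁻¹) ^ 3 := by positivity
        have y0 : 0 ≤ C₂ * (1 + (2 : ℝ) ^ l / 2) ^ ε * (max 1 (8 * R / 2 ^ l)) ^ N := by positivity
        rw [e1]
        calc ENNReal.ofReal (((wt R l)⁻¹) ^ 3) *
              (16 ^ n * (ENNReal.ofReal (C₂ * (1 + (2 : ℝ) ^ l / 2) ^ ε *
                (max 1 (8 * R / 2 ^ l)) ^ N) *
              (ENNReal.ofReal (C₃ * (((2 : ℝ) ^ l) ^ (M - 1) * (1 + 2 ^ l / R) ^ (-(K : ℤ)) *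
                R) ^ 4) * W)))
            = ENNReal.ofReal (((wt R l)⁻¹) ^ 3 * (C₂ * (1 + (2 : ℝ) ^ l / 2) ^ ε *
                (max 1 (8 * R / 2 ^ l)) ^ N) *
              (C₃ * (((2 : ℝ) ^ l) ^ (M - 1) * (1 + 2 ^ l / R) ^ (-(K : ℤ)) * R) ^ 4)) *
                16 ^ n * W := by
              rw [ENNReal.ofReal_mul (mul_nonneg x0 y0), ENNReal.ofReal_mul x0]
              ring
          _ ≤ ENNReal.ofReal (D * wt R l) * 16 ^ n * W := by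
              refine mul_le_mul' (mul_le_mul' (ENNReal.ofReal_le_ofReal ?_) le_rfl) le_rfl
              exact piece hε hN hMN hK hC₂ hC₃ hR l
          _ = ENNReal.ofReal D * 16 ^ n * W * w l := by
              rw [ENNReal.ofReal_mul hD0]
              ring
    _ = ENNReal.ofReal C₁ ^ 4 * (6 ^ 3 * ((ENNReal.ofReal D * 16 ^ n * W) * ∑' l, w l)) := by
        rw [ENNReal.tsum_mul_left]
    _ ≤ ENNReal.ofReal C₁ ^ 4 * (6 ^ 3 * ((ENNReal.ofReal D * 16 ^ n * W) * 6)) := by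
        gcongr
    _ = ENNReal.ofReal (C₁ ^ 4 * 1296 * 16 ^ n * (C₂ * C₃ * (16 * 8 ^ N)) *
          R ^ (4 * (M : ℝ) + ε)) * W := by
        have e2 : C₁ ^ 4 * 1296 * 16 ^ n * (C₂ * C₃ * (16 * 8 ^ N)) * R ^ (4 * (M : ℝ) + ε) =
            C₁ ^ 4 * 1296 * 16 ^ n * D := by rw [hD]; ring
        have e3 : ENNReal.ofReal (C₁ ^ 4 * 1296 * 16 ^ n * D) =
            ENNReal.ofReal C₁ ^ 4 * 1296 * 16 ^ n * ENNReal.ofReal D := by
          rw [ENNReal.ofReal_mul (by positivity), ENNReal.ofReal_mul (by positivity),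
            ENNReal.ofReal_mul (by positivity), ENNReal.ofReal_pow hC₁.le,
            ENNReal.ofReal_pow (by norm_num), ENNReal.ofReal_ofNat, ENNReal.ofReal_ofNat]
        rw [e2, e3]
        ring
    _ ≤ ENNReal.ofReal (C₁ ^ 4 * 1296 * 16 ^ n * (C₂ * C₃ * (16 * 8 ^ N)) *
          (2 ^ (4 * (M : ℝ) + (ε₀ + n)) * R₁ ^ (4 * (M : ℝ) + ε))) *
          (ENNReal.ofReal 16 * ((∫⁻ x : Fin n → ℝ, ‖ExV G x‖ₑ ^ 4) +
          ENNReal.ofReal (R₁ ^ 4) * ∫⁻ x : Fin n → ℝ, ‖ExV H x‖ₑ ^ 4)) := by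
        refine mul_le_mul' (ENNReal.ofReal_le_ofReal ?_) ?_
        · refine mul_le_mul_of_nonneg_left ?_ (by positivity)
          rw [hRd, Real.mul_rpow (by norm_num) hR₁0.le]
          refine mul_le_mul_of_nonneg_right ?_ (by positivity)
          exact Real.rpow_le_rpow_of_exponent_le (by norm_num) (by linarith)
        · rw [hW, mul_add]
          refine add_le_add ?_ ?_
          · calc ∫⁻ x : Fin n → ℝ, ‖ExV G x‖ₑ ^ 4
                = 1 * ∫⁻ x : Fin n → ℝ, ‖ExV G x‖ₑ ^ 4 := (one_mul _).symm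
              _ ≤ _ := by
                refine mul_le_mul' ?_ le_rfl
                rw [← ENNReal.ofReal_one]
                exact ENNReal.ofReal_le_ofReal (by norm_num)
          · rw [← mul_assoc, ← ENNReal.ofReal_mul (by norm_num)]
            refine mul_le_mul' (ENNReal.ofReal_le_ofReal (le_of_eq ?_)) le_rfl
            rw [hRd]; ring
    _ = _ := by
        rw [← mul_assoc, ← ENNReal.ofReal_mul (by positivity)]
        congr 2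
        ring

/-- (SMJ) -/
theorem s_smJ (n : ℕ) (hitI : S_itI n) (hitJ : S_itJ n) (hfu : S_fuI n) (hpo : S_po n)
    (htr : S_trJ n) (hkf : S_kfJ n) : S_smJ n := by
  intro hn ε hε
  have htr' : S_tr n := by
    intro M K hM
    obtain ⟨C, hC, h⟩ := htr M K hM
    exact ⟨C, hC, fun j b R l hb => h j b R l ⟨hb.1, hb.2.trans (by norm_num)⟩⟩
  have hkf' : S_kf n := by
    intro hn M
    obtain ⟨C, hC, h⟩ := hkf hn M
    exact ⟨C, hC, fun g hg => h g fun i => ⟨by linarith [(hg i).1], (hg i).2⟩⟩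
  obtain ⟨MA, hA⟩ := smA n hitI hfu htr' hkf' hn ε hε
  obtain ⟨MB, hB⟩ := smB n hitJ hpo htr hkf hn ε hε
  refine ⟨max MA MB, fun M hM => ?_⟩
  obtain ⟨CA, hCA, hA⟩ := hA M ((le_max_left _ _).trans hM)
  obtain ⟨CB, hCB, hB⟩ := hB M ((le_max_right _ _).trans hM)
  refine ⟨CA + CB, by positivity, ?_⟩
  intro I j g₀ hg₀ R hR G H hG hH hGH hsupp
  have hR0 : 0 < R := by linarith
  by_cases h : j ∈ I ∧ ∃ i₁, i₁ ∉ I
  · obtain ⟨hj, i₁, hi₁⟩ := h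
    have hc : I.card + 1 ≤ n := by
      have h1 : I.card < Fintype.card (Fin n) := by
        rw [← Finset.card_univ]
        refine Finset.card_lt_card (Finset.ssubset_univ_iff.2 ?_)
        intro h
        apply hi₁
        rw [h]
        exact Finset.mem_univ _
      rw [Fintype.card_fin] at h1
      omega
    have hmin : min I.card (n - 1) = I.card := by omega
    rw [hmin]
    refine (hB I j i₁ hj hi₁ g₀ hg₀ R hR G H hG hH hGH hsupp).trans ?_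
    refine mul_le_mul' (ENNReal.ofReal_le_ofReal ?_) le_rfl
    refine mul_le_mul_of_nonneg_right ?_ (by positivity)
    linarith
  · have hmin : (I.erase j).card = min I.card (n - 1) := by
      push Not at h
      by_cases hj : j ∈ I
      · have h1 : I = Finset.univ := by
          ext i
          simp [h hj i]
        rw [Finset.card_erase_of_mem hj, h1, Finset.card_univ, Fintype.card_fin]
        omega
      · rw [Finset.erase_eq_of_notMem hj]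
        have h1 : I.card < Fintype.card (Fin n) := by
          rw [← Finset.card_univ]
          refine Finset.card_lt_card (Finset.ssubset_univ_iff.2 ?_)
          intro h
          apply hj
          rw [h]
          exact Finset.mem_univ _
        rw [Fintype.card_fin] at h1
        omega
    rw [← hmin]
    refine (hA I j g₀ hg₀ R hR G H hG hH hGH hsupp).trans ?_
    refine mul_le_mul' (ENNReal.ofReal_le_ofReal ?_) le_rfl
    refine mul_le_mul_of_nonneg_right ?_ (by positivity)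
    linarith

end Pool.Agent.T9h70.LG
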