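import Pool.Agent.T9h70.LG.Spec2b
import Pool.Agent.T9h89.LG.Ort

/-!
# (SM): summation over the dyadic pieces (helper70)
-/

set_option autoImplicit false

namespace Pool.Agent.T9h70.LG

open Pool.Agent.T9h44.LG Pool.Agent.T9h44.LS4 MeasureTheory Real
open scoped ENNReal ComplexConjugate

variable {n : ℕ}

/-! ### Hölder for series -/

lemma tsum_pow_four_le (a w : ℤ → ℝ≥0∞) (h0 : ∀ l, w l ≠ 0) (ht : ∀ l, w l ≠ ∞) :
    (∑' l, a l) ^ 4 ≤ (∑' l, w l) ^ 3 * ∑' l, ((w l)⁻¹) ^ 3 * (a l) ^ 4 := by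
  have hpq : (4 / 3 : ℝ).HolderConjugate 4 := by
    rw [Real.holderConjugate_iff]; norm_num
  have key := ENNReal.lintegral_mul_le_Lp_mul_Lq (Measure.count : Measure ℤ) hpq
    (f := fun l => (w l) ^ (3 / 4 : ℝ)) (g := fun l => ((w l)⁻¹) ^ (3 / 4 : ℝ) * a l)
    (measurable_of_countable _).aemeasurable (measurable_of_countable _).aemeasurable
  rw [lintegral_count, lintegral_count, lintegral_count] at key
  have e1 : ∀ l, ((fun l => (w l) ^ (3 / 4 : ℝ)) * fun l => ((w l)⁻¹) ^ (3 / 4 : ℝ) * a l) l =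
      a l := by
    intro l
    simp only [Pi.mul_apply]
    rw [← mul_assoc, ← ENNReal.mul_rpow_of_nonneg _ _ (by norm_num),
      ENNReal.mul_inv_cancel (h0 l) (ht l), ENNReal.one_rpow, one_mul]
  have e2 : ∀ l, ((w l) ^ (3 / 4 : ℝ)) ^ (4 / 3 : ℝ) = w l := by
    intro l
    rw [← ENNReal.rpow_mul]
    norm_num
  have e3 : ∀ l, (((w l)⁻¹) ^ (3 / 4 : ℝ) * a l) ^ (4 : ℝ) = ((w l)⁻¹) ^ 3 * (a l) ^ 4 := by
    intro l
    rw [ENNReal.mul_rpow_of_nonneg _ _ (by norm_num), ← ENNReal.rpow_mul]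
    have h1 : (3 / 4 : ℝ) * 4 = ((3 : ℕ) : ℝ) := by norm_num
    have h2 : (4 : ℝ) = ((4 : ℕ) : ℝ) := by norm_num
    rw [h1, ENNReal.rpow_natCast]
    rw [h2, ENNReal.rpow_natCast]
  simp only [e1, e2, e3] at key
  calc (∑' l, a l) ^ 4 ≤ ((∑' l, w l) ^ (1 / (4 / 3) : ℝ) *
        (∑' l, ((w l)⁻¹) ^ 3 * (a l) ^ 4) ^ (1 / 4 : ℝ)) ^ 4 := pow_le_pow_left' key 4
    _ = (∑' l, w l) ^ 3 * ∑' l, ((w l)⁻¹) ^ 3 * (a l) ^ 4 := by
        rw [mul_pow, ← ENNReal.rpow_natCast, ← ENNReal.rpow_mul, ← ENNReal.rpow_natCast _ 4,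
          ← ENNReal.rpow_mul]
        norm_num

/-! ### The weights -/

/-- the weight -/
noncomputable def wt (R : ℝ) (l : ℤ) : ℝ := ((2 : ℝ) ^ l / R) / (((2 : ℝ) ^ l / R) ^ 2 + 1)

lemma wt_pos {R : ℝ} (hR : 0 < R) (l : ℤ) : 0 < wt R l := by
  have h1 : (0 : ℝ) < 2 ^ l / R := by positivity
  unfold wt
  positivity

lemma tsum_half : ∑' k : ℕ, ENNReal.ofReal ((1 / 2 : ℝ) ^ k) = 2 := by
  have e1 : ∀ k : ℕ, ENNReal.ofReal ((1 / 2 : ℝ) ^ k) = (2⁻¹ : ℝ≥0∞) ^ k := by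
    intro k
    rw [ENNReal.ofReal_pow (by norm_num)]
    congr 1
    rw [one_div, ENNReal.ofReal_inv_of_pos (by norm_num), ENNReal.ofReal_ofNat]
  simp_rw [e1]
  rw [ENNReal.tsum_geometric, ENNReal.one_sub_inv_two, inv_inv]

lemma tsum_wt_le {R : ℝ} (hR : 0 < R) : ∑' l : ℤ, ENNReal.ofReal (wt R l) ≤ 6 := by
  obtain ⟨l₀, hl₀⟩ := exists_mem_Ico_zpow hR (one_lt_two : (1 : ℝ) < 2)
  obtain ⟨h1, h2⟩ := hl₀
  rw [← (Equiv.addRight l₀).tsum_eq (fun l => ENNReal.ofReal (wt R l))]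
  have b1 : ∀ k : ℕ, ENNReal.ofReal (wt R ((k : ℤ) + l₀)) ≤ ENNReal.ofReal (2 * (1 / 2) ^ k) := by
    intro k
    apply ENNReal.ofReal_le_ofReal
    have hτ : (0 : ℝ) < 2 ^ ((k : ℤ) + l₀) / R := by positivity
    have h3 : (2 : ℝ) ^ k / 2 ≤ 2 ^ ((k : ℤ) + l₀) / R := by
      rw [zpow_add₀ (by norm_num), zpow_natCast, div_le_div_iff₀ (by norm_num) hR]
      have h4 : (2 : ℝ) ^ (l₀ + 1) = 2 ^ l₀ * 2 := by rw [zpow_add₀ (by norm_num), zpow_one]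
      rw [h4] at h2
      have h5 : (0 : ℝ) < 2 ^ k := by positivity
      nlinarith
    unfold wt
    rw [div_le_iff₀ (by positivity)]
    set τ := (2 : ℝ) ^ ((k : ℤ) + l₀) / R
    have h6 : (1 / 2 : ℝ) ^ k * 2 ^ k = 1 := by rw [← mul_pow]; norm_num
    have h7 : (0 : ℝ) < (1 / 2) ^ k := by positivity
    have h8 : 1 ≤ 2 * (1 / 2) ^ k * τ := by nlinarith
    nlinarith
  have b2 : ∀ k : ℕ, ENNReal.ofReal (wt R (-((k : ℤ) + 1) + l₀)) ≤ ENNReal.ofReal ((1 / 2) ^ k) := by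
    intro k
    apply ENNReal.ofReal_le_ofReal
    have hτ : (0 : ℝ) < 2 ^ (-((k : ℤ) + 1) + l₀) / R := by positivity
    have h3 : 2 ^ (-((k : ℤ) + 1) + l₀) / R ≤ (1 / 2 : ℝ) ^ k := by
      rw [div_le_iff₀ hR, zpow_add₀ (by norm_num)]
      have h5 : (2 : ℝ) ^ (-((k : ℤ) + 1)) = (1 / 2) ^ (k + 1) := by
        rw [zpow_neg, one_div, inv_pow]
        norm_cast
      rw [h5, pow_succ]
      have h7 : (0 : ℝ) < (1 / 2) ^ k := by positivity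
      have h8 : (0 : ℝ) < 2 ^ l₀ := by positivity
      nlinarith
    refine le_trans ?_ h3
    unfold wt
    apply div_le_self hτ.le
    nlinarith [sq_nonneg ((2 : ℝ) ^ (-((k : ℤ) + 1) + l₀) / R)]
  have key : HasSum (fun l : ℤ => ENNReal.ofReal (wt R (Equiv.addRight l₀ l)))
      ((∑' k : ℕ, ENNReal.ofReal (wt R ((k : ℤ) + l₀))) +
        ∑' k : ℕ, ENNReal.ofReal (wt R (-((k : ℤ) + 1) + l₀))) := by
    apply HasSum.of_nat_of_neg_add_one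
    · exact ENNReal.summable.hasSum
    · exact ENNReal.summable.hasSum
  rw [key.tsum_eq]
  calc (∑' k : ℕ, ENNReal.ofReal (wt R ((k : ℤ) + l₀))) +
        ∑' k : ℕ, ENNReal.ofReal (wt R (-((k : ℤ) + 1) + l₀))
      ≤ (∑' k : ℕ, ENNReal.ofReal (2 * (1 / 2) ^ k)) + ∑' k : ℕ, ENNReal.ofReal ((1 / 2) ^ k) :=
        add_le_add (ENNReal.tsum_le_tsum b1) (ENNReal.tsum_le_tsum b2)
    _ = 6 := by
        simp_rw [ENNReal.ofReal_mul (show (0 : ℝ) ≤ 2 by norm_num)]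
        rw [ENNReal.tsum_mul_left, tsum_half, ENNReal.ofReal_ofNat]
        norm_num

/-! ### The numerical inequality -/

lemma num (ε N : ℝ) (M K : ℕ) (hN : 0 < N) (hM : 8 + N ≤ 4 * (M : ℝ))
    (hK : 4 * (M : ℝ) + ε ≤ 4 * K) (τ : ℝ) (hτ : 0 < τ) :
    (τ / (τ ^ 2 + 1))⁻¹ ^ 4 * (τ ^ (M - 1)) ^ 4 * (max 1 (8 / τ)) ^ N *
      ((1 + τ) ^ (-(K : ℤ))) ^ 4 * (1 + τ) ^ ε ≤ 16 * 8 ^ N := by
  have hM1 : 1 ≤ M := by
    have : (1 : ℝ) ≤ M := by linarith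
    exact_mod_cast this
  have h1τ : (0 : ℝ) < 1 + τ := by linarith
  have e1 : ((1 + τ) ^ (-(K : ℤ))) ^ 4 * (1 + τ) ^ ε = (1 + τ) ^ (ε - 4 * K) := by
    rw [sub_eq_add_neg, Real.rpow_add h1τ, mul_comm]
    congr 1
    rw [zpow_neg, zpow_natCast, inv_pow, ← pow_mul, Real.rpow_neg h1τ.le]
    congr 1
    rw [← Real.rpow_natCast]
    congr 1
    push_cast
    ring
  have e2 : (τ / (τ ^ 2 + 1))⁻¹ ^ 4 * (τ ^ (M - 1)) ^ 4 * (max 1 (8 / τ)) ^ N *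
      ((1 + τ) ^ (-(K : ℤ))) ^ 4 * (1 + τ) ^ ε =
      (τ / (τ ^ 2 + 1))⁻¹ ^ 4 * (τ ^ (M - 1)) ^ 4 * (max 1 (8 / τ)) ^ N *
        (1 + τ) ^ (ε - 4 * K) := by
    rw [← e1]; ring
  rw [e2, inv_div]
  have h8 : (0 : ℝ) < 8 ^ N := by positivity
  rcases le_total 1 τ with h1 | h1
  · have f1 : ((τ ^ 2 + 1) / τ) ^ 4 ≤ 16 * (1 + τ) ^ 4 := by
      have : (τ ^ 2 + 1) / τ ≤ 2 * (1 + τ) := by
        rw [div_le_iff₀ hτ]; nlinarith
      calc ((τ ^ 2 + 1) / τ) ^ 4 ≤ (2 * (1 + τ)) ^ 4 := pow_le_pow_left₀ (by positivity) this 4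
        _ = 16 * (1 + τ) ^ 4 := by ring
    have f2 : (τ ^ (M - 1)) ^ 4 ≤ ((1 + τ) ^ (M - 1)) ^ 4 := by gcongr; linarith
    have f3 : (max 1 (8 / τ)) ^ N ≤ 8 ^ N := by
      apply Real.rpow_le_rpow (by positivity) _ hN.le
      apply max_le (by norm_num)
      rw [div_le_iff₀ hτ]; linarith
    have f4 : (1 + τ) ^ (ε - 4 * K) ≤ (1 + τ) ^ (-(4 * M : ℝ)) :=
      Real.rpow_le_rpow_of_exponent_le (by linarith) (by linarith)
    have f5 : (1 + τ) ^ 4 * ((1 + τ) ^ (M - 1)) ^ 4 * (1 + τ) ^ (-(4 * M : ℝ)) = 1 := by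
      have g1 : (1 + τ) ^ 4 * ((1 + τ) ^ (M - 1)) ^ 4 = (1 + τ) ^ (4 * M) := by
        rw [← pow_mul, ← pow_add]
        congr 1
        omega
      rw [g1, Real.rpow_neg h1τ.le, ← Real.rpow_natCast]
      push_cast
      exact mul_inv_cancel₀ (by positivity)
    calc ((τ ^ 2 + 1) / τ) ^ 4 * (τ ^ (M - 1)) ^ 4 * (max 1 (8 / τ)) ^ N * (1 + τ) ^ (ε - 4 * K)
        ≤ (16 * (1 + τ) ^ 4) * ((1 + τ) ^ (M - 1)) ^ 4 * 8 ^ N * (1 + τ) ^ (-(4 * M : ℝ)) := by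
          gcongr
      _ = 16 * 8 ^ N * ((1 + τ) ^ 4 * ((1 + τ) ^ (M - 1)) ^ 4 * (1 + τ) ^ (-(4 * M : ℝ))) := by
          ring
      _ = 16 * 8 ^ N := by rw [f5, mul_one]
  · have f1 : ((τ ^ 2 + 1) / τ) ^ 4 ≤ 16 * τ⁻¹ ^ 4 := by
      have : (τ ^ 2 + 1) / τ ≤ 2 * τ⁻¹ := by
        rw [div_le_iff₀ hτ, mul_assoc, inv_mul_cancel₀ hτ.ne']; nlinarith
      calc ((τ ^ 2 + 1) / τ) ^ 4 ≤ (2 * τ⁻¹) ^ 4 := pow_le_pow_left₀ (by positivity) this 4
        _ = 16 * τ⁻¹ ^ 4 := by ring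
    have f3 : (max 1 (8 / τ)) ^ N ≤ 8 ^ N * τ ^ (-N) := by
      have : max 1 (8 / τ) = 8 / τ := by
        apply max_eq_right
        rw [le_div_iff₀ hτ]; linarith
      rw [this, Real.div_rpow (by norm_num) hτ.le, Real.rpow_neg hτ.le]
      exact le_of_eq (div_eq_mul_inv _ _)
    have f4 : (1 + τ) ^ (ε - 4 * K) ≤ 1 := by
      apply Real.rpow_le_one_of_one_le_of_nonpos (by linarith)
      have : (0 : ℝ) ≤ M := Nat.cast_nonneg _
      linarith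
    have f5 : τ⁻¹ ^ 4 * (τ ^ (M - 1)) ^ 4 * τ ^ (-N) ≤ 1 := by
      have g1 : τ⁻¹ ^ 4 * (τ ^ (M - 1)) ^ 4 * τ ^ (-N) = τ ^ ((4 * M : ℝ) - 8 - N) := by
        have g2 : (τ ^ (M - 1)) ^ 4 = τ ^ ((4 * M : ℝ) - 4) := by
          rw [← pow_mul, ← Real.rpow_natCast]
          congr 1
          push_cast [Nat.cast_sub hM1]
          ring
        have g3 : τ⁻¹ ^ 4 = τ ^ (-(4 : ℝ)) := by
          rw [Real.rpow_neg hτ.le, inv_pow]
          norm_num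
        rw [g2, g3, ← Real.rpow_add hτ, ← Real.rpow_add hτ]
        congr 1
        ring
      rw [g1]
      apply Real.rpow_le_one hτ.le h1
      linarith
    calc ((τ ^ 2 + 1) / τ) ^ 4 * (τ ^ (M - 1)) ^ 4 * (max 1 (8 / τ)) ^ N * (1 + τ) ^ (ε - 4 * K)
        ≤ (16 * τ⁻¹ ^ 4) * (τ ^ (M - 1)) ^ 4 * (8 ^ N * τ ^ (-N)) * 1 := by gcongr
      _ = 16 * 8 ^ N * (τ⁻¹ ^ 4 * (τ ^ (M - 1)) ^ 4 * τ ^ (-N)) := by ring
      _ ≤ 16 * 8 ^ N * 1 := by gcongr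
      _ = 16 * 8 ^ N := mul_one _

/-! ### The pieces -/

/-- the dyadic piece -/
noncomputable def FF (M : ℕ) (R : ℝ) (l : ℤ) (G : (Fin n → ℝ) → ℂ) (ζ : ℝ × (Fin n → ℝ)) : ℂ :=
  ((bet (ζ.1 / 2 ^ l) * am M R ζ.1 : ℝ) : ℂ) * G ζ.2

lemma bet_ne {x : ℝ} (h : bet x ≠ 0) : 1 / 2 ≤ x ∧ x ≤ 2 := by
  unfold bet at h
  constructor
  · by_contra hcon
    push Not at hcon
    apply h
    rw [Real.smoothTransition.zero_of_nonpos (by linarith),
      Real.smoothTransition.zero_of_nonpos (by linarith), sub_self]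
  · by_contra hcon
    push Not at hcon
    apply h
    rw [Real.smoothTransition.one_of_one_le (by linarith),
      Real.smoothTransition.one_of_one_le (by linarith), sub_self]

lemma abs_bet_le (x : ℝ) : |bet x| ≤ 1 := by
  unfold bet
  have h1 := Real.smoothTransition.nonneg (2 * x - 1)
  have h2 := Real.smoothTransition.nonneg (x - 1)
  have h3 := Real.smoothTransition.le_one (2 * x - 1)
  have h4 := Real.smoothTransition.le_one (x - 1)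
  rw [abs_le]; constructor <;> linarith

lemma continuous_bet : Continuous bet := by
  unfold bet
  exact (Real.smoothTransition.continuous.comp (by fun_prop)).sub
    (Real.smoothTransition.continuous.comp (by fun_prop))

lemma measurable_am (M : ℕ) (R : ℝ) : Measurable (am M R) := by
  unfold am
  exact (measurable_id.pow_const _).mul (by fun_prop)

lemma FF_ne {M : ℕ} {R : ℝ} {l : ℤ} {G : (Fin n → ℝ) → ℂ} {ζ : ℝ × (Fin n → ℝ)}
    (h : FF M R l G ζ ≠ 0) : (2 : ℝ) ^ l / 2 ≤ ζ.1 ∧ ζ.1 ≤ 2 * 2 ^ l ∧ G ζ.2 ≠ 0 := by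
  unfold FF at h
  have h1 := left_ne_zero_of_mul h
  have h2 : bet (ζ.1 / 2 ^ l) ≠ 0 := by
    intro h0
    apply h1
    rw [h0, zero_mul, Complex.ofReal_zero]
  have hp : (0 : ℝ) < 2 ^ l := by positivity
  obtain ⟨h3, h4⟩ := bet_ne h2
  rw [le_div_iff₀ hp] at h3
  rw [div_le_iff₀ hp] at h4
  exact ⟨by linarith, h4, right_ne_zero_of_mul h⟩

lemma FF_nice {M : ℕ} (hM : 1 ≤ M) {R : ℝ} (hR : 0 < R) (l : ℤ) {G : (Fin n → ℝ) → ℂ}
    (hG : NiceV G) : NiceN (FF M R l G) := by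
  obtain ⟨h1, ⟨B, hB⟩, r, hr⟩ := hG
  have hp : (0 : ℝ) < 2 ^ l := by positivity
  have hM' : (1 : ℝ) ≤ M := by exact_mod_cast hM
  refine ⟨?_, ⟨(2 * 2 ^ l) ^ ((M : ℝ) - 1 / 2) * B, fun ζ => ?_⟩, max (2 * 2 ^ l) r, fun ζ hζ => ?_⟩
  · unfold FF
    refine Measurable.mul ?_ (h1.comp measurable_snd)
    refine Complex.measurable_ofReal.comp (Measurable.mul ?_ ((measurable_am M R).comp measurable_fst))
    exact continuous_bet.measurable.comp (measurable_fst.div_const _)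
  · by_cases h0 : FF M R l G ζ = 0
    · rw [h0, norm_zero]
      have : 0 ≤ B := (norm_nonneg _).trans (hB 0)
      positivity
    · obtain ⟨h2, h3, -⟩ := FF_ne h0
      have h4 : 0 < ζ.1 := by linarith
      unfold FF
      rw [norm_mul, Complex.norm_real, Real.norm_eq_abs, abs_mul]
      have h5 : |am M R ζ.1| ≤ (2 * 2 ^ l) ^ ((M : ℝ) - 1 / 2) := by
        unfold am
        rw [abs_mul, abs_of_nonneg (Real.rpow_nonneg h4.le _), abs_of_pos (Real.exp_pos _)]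
        have h6 : Real.exp (-(4 * π * ζ.1 / R)) ≤ 1 := by
          rw [Real.exp_le_one_iff]
          have : 0 ≤ 4 * π * ζ.1 / R := by positivity
          linarith
        calc ζ.1 ^ ((M : ℝ) - 1 / 2) * Real.exp (-(4 * π * ζ.1 / R))
            ≤ (2 * 2 ^ l) ^ ((M : ℝ) - 1 / 2) * 1 :=
              mul_le_mul (Real.rpow_le_rpow h4.le h3 (by linarith)) h6 (Real.exp_pos _).le
                (by positivity)
          _ = _ := mul_one _
      calc |bet (ζ.1 / 2 ^ l)| * |am M R ζ.1| * ‖G ζ.2‖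
          ≤ 1 * (2 * 2 ^ l) ^ ((M : ℝ) - 1 / 2) * B := by
            refine mul_le_mul (mul_le_mul (abs_bet_le _) h5 (abs_nonneg _) (by norm_num)) (hB _)
              (norm_nonneg _) (by positivity)
        _ = _ := by rw [one_mul]
  · obtain ⟨h2, h3, h4⟩ := FF_ne hζ
    refine ⟨?_, fun i => (hr _ h4 i).trans (le_max_right _ _)⟩
    rw [abs_of_pos (by linarith)]
    exact h3.trans (le_max_left _ _)

lemma measurable_ee : Measurable ee := T9h89.LG.continuous_ee.measurable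

lemma meas_ExtN {F : ℝ × (Fin n → ℝ) → ℂ} (hF : Measurable F) :
    Measurable (fun cp : (Fin n → ℝ) × (ℝ × (Fin n → ℝ)) => ExtN (UN cp.1 F) cp.2) := by
  have h1 : Measurable (fun z : ((Fin n → ℝ) × (ℝ × (Fin n → ℝ))) × (ℝ × (Fin n → ℝ)) =>
      ee (z.1.2.1 * z.2.1 + ∑ i, z.1.2.2 i * z.2.2 i) *
        (ee ((∑ i, z.1.1 i * z.2.2 i ^ 2) / z.2.1) * F z.2)) := by
    refine Measurable.mul (measurable_ee.comp ?_) (Measurable.mul (measurable_ee.comp ?_)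
      (hF.comp measurable_snd))
    · fun_prop
    · refine Measurable.div ?_ (by fun_prop)
      fun_prop
  exact (h1.stronglyMeasurable.integral_prod_right').measurable

lemma meas_f {F : ℝ × (Fin n → ℝ) → ℂ} (hF : Measurable F) :
    Measurable (fun c : Fin n → ℝ => ∫⁻ p : ℝ × (Fin n → ℝ), ‖ExtN (UN c F) p‖ₑ ^ 4) := by
  have h1 := (meas_ExtN hF).enorm.pow_const 4
  exact h1.lintegral_prod_right'

lemma meas_p {F : ℝ × (Fin n → ℝ) → ℂ} (hF : Measurable F) (c : Fin n → ℝ) :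
    Measurable (fun p : ℝ × (Fin n → ℝ) => ExtN (UN c F) p) :=
  (meas_ExtN hF).comp (measurable_const.prodMk measurable_id)

lemma meas_inv : Measurable (fun g : Fin n → ℝ => fun i => 1 / (4 * g i)) := by
  refine measurable_pi_lambda _ fun i => ?_
  exact ((measurable_pi_apply i).const_mul 4).const_div 1

/-- the real inequality of a piece -/
lemma piece {ε N C₂ C₃ R : ℝ} {M K : ℕ} (hε : 0 < ε) (hN : 0 < N) (hM : 8 + N ≤ 4 * (M : ℝ))
    (hK : 4 * (M : ℝ) + ε ≤ 4 * K) (hC₂ : 0 < C₂) (hC₃ : 0 < C₃) (hR : 1 ≤ R) (l : ℤ) :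
    ((wt R l)⁻¹) ^ 3 * (C₂ * (1 + (2 : ℝ) ^ l / 2) ^ ε * (max 1 (8 * R / 2 ^ l)) ^ N) *
      (C₃ * (((2 : ℝ) ^ l) ^ (M - 1) * (1 + 2 ^ l / R) ^ (-(K : ℤ)) * R) ^ 4) ≤
    (C₂ * C₃ * (16 * 8 ^ N) * R ^ (4 * M + ε)) * wt R l := by
  have hR0 : 0 < R := by linarith
  have hM1 : 1 ≤ M := by
    have : (1 : ℝ) ≤ M := by linarith
    exact_mod_cast this
  have hτ : (0 : ℝ) < 2 ^ l / R := by positivity
  have hn := num ε N M K hN hM hK _ hτ
  have hw := wt_pos hR0 l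
  have e0 : (2 : ℝ) ^ l / R / (((2 : ℝ) ^ l / R) ^ 2 + 1) = wt R l := rfl
  rw [e0] at hn
  set τ := (2 : ℝ) ^ l / R with hτd
  have e1 : (2 : ℝ) ^ l = R * τ := by rw [hτd]; field_simp
  have e2 : 8 * R / 2 ^ l = 8 / τ := by rw [e1]; field_simp
  have e3 : (1 + (2 : ℝ) ^ l / 2) ^ ε ≤ R ^ ε * (1 + τ) ^ ε := by
    rw [← Real.mul_rpow hR0.le (by linarith)]
    apply Real.rpow_le_rpow (by positivity) _ hε.le
    rw [e1]
    nlinarith [mul_pos hR0 hτ]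
  have e4 : (((2 : ℝ) ^ l) ^ (M - 1) * (1 + τ) ^ (-(K : ℤ)) * R) ^ 4 =
      R ^ (4 * M) * ((τ ^ (M - 1)) ^ 4 * ((1 + τ) ^ (-(K : ℤ))) ^ 4) := by
    rw [e1, mul_pow R τ]
    have : R ^ (4 * M) = (R ^ (M - 1) * R) ^ 4 := by
      rw [← pow_succ, ← pow_mul]
      congr 1
      omega
    rw [this]
    ring
  have e5 : R ^ (4 * (M : ℝ) + ε) = R ^ (4 * M) * R ^ ε := by
    rw [Real.rpow_add hR0]
    congr 1
    rw [← Real.rpow_natCast]
    congr 1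
    push_cast
    ring
  rw [e2, e4, e5]
  have hA : (0 : ℝ) ≤ (max 1 (8 / τ)) ^ N := by positivity
  calc ((wt R l)⁻¹) ^ 3 * (C₂ * (1 + (2 : ℝ) ^ l / 2) ^ ε * (max 1 (8 / τ)) ^ N) *
      (C₃ * (R ^ (4 * M) * ((τ ^ (M - 1)) ^ 4 * ((1 + τ) ^ (-(K : ℤ))) ^ 4)))
      ≤ ((wt R l)⁻¹) ^ 3 * (C₂ * (R ^ ε * (1 + τ) ^ ε) * (max 1 (8 / τ)) ^ N) *
      (C₃ * (R ^ (4 * M) * ((τ ^ (M - 1)) ^ 4 * ((1 + τ) ^ (-(K : ℤ))) ^ 4))) := by
        gcongr
    _ = C₂ * C₃ * (R ^ (4 * M) * R ^ ε) * wt R l * (((wt R l)⁻¹) ^ 4 * (τ ^ (M - 1)) ^ 4 *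
        (max 1 (8 / τ)) ^ N * ((1 + τ) ^ (-(K : ℤ))) ^ 4 * (1 + τ) ^ ε) := by
        have : ((wt R l)⁻¹) ^ 3 = wt R l * ((wt R l)⁻¹) ^ 4 := by
          field_simp
        rw [this]
        ring
    _ ≤ C₂ * C₃ * (R ^ (4 * M) * R ^ ε) * wt R l * (16 * 8 ^ N) := by
        gcongr
    _ = _ := by ring

/-- (SM), with the parentheses around the first integral -/
theorem s_sm (n : ℕ) (hit : S_it n) (hfu : S_fu n) (htr : TrP n) (hkf : S_kf n) : SmP n := by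
  intro hn ε hε
  obtain ⟨C₂, N, hC₂, hN, hit⟩ := hit ε hε
  refine ⟨⌈8 + N⌉₊ + 2, fun M hM => ?_⟩
  have hM2 : 2 ≤ M := by omega
  have hMN : 8 + N ≤ 4 * (M : ℝ) := by
    have h1 : 8 + N ≤ (⌈8 + N⌉₊ : ℝ) := Nat.le_ceil _
    have h2 : ((⌈8 + N⌉₊ + 2 : ℕ) : ℝ) ≤ M := by exact_mod_cast hM
    push_cast at h2
    have h3 : (0 : ℝ) ≤ M := Nat.cast_nonneg _
    linarith
  set K : ℕ := M + ⌈ε⌉₊ with hKd
  have hK : 4 * (M : ℝ) + ε ≤ 4 * (K : ℝ) := by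
    have h1 : ε ≤ (⌈ε⌉₊ : ℝ) := Nat.le_ceil _
    rw [hKd]
    push_cast
    linarith
  obtain ⟨C₃, hC₃, htr⟩ := htr M K hM2
  obtain ⟨C₁, hC₁, hkf⟩ := hkf hn M
  refine ⟨C₁ ^ 4 * 1296 * 16 ^ n * (C₂ * C₃ * (16 * 8 ^ N)), by positivity, ?_⟩
  intro j R hR G H hG hH hGH hsupp
  have hR0 : 0 < R := by linarith
  set W : ℝ≥0∞ := (∫⁻ x : Fin n → ℝ, ‖ExV G x‖ₑ ^ 4) +
        ENNReal.ofReal (R ^ 4) * ∫⁻ x : Fin n → ℝ, ‖ExV H x‖ₑ ^ 4 with hW
  set D : ℝ := C₂ * C₃ * (16 * 8 ^ N) * R ^ (4 * (M : ℝ) + ε) with hD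
  have hD0 : 0 ≤ D := by positivity
  set w : ℤ → ℝ≥0∞ := fun l => ENNReal.ofReal (wt R l) with hw
  have hwpos : ∀ l, w l ≠ 0 := fun l => by
    rw [hw]; simp only [ne_eq, ENNReal.ofReal_eq_zero, not_le]; exact wt_pos hR0 l
  have hwtop : ∀ l, w l ≠ ∞ := fun l => ENNReal.ofReal_ne_top
  have hΛ : ∑' l, w l ≤ 6 := tsum_wt_le hR0
  set f : ℤ → (Fin n → ℝ) → ℝ≥0∞ := fun l c =>
    ∫⁻ p : ℝ × (Fin n → ℝ), ‖ExtN (UN c (FF M R l G)) p‖ₑ ^ 4 with hf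
  have hFn : ∀ l, NiceN (FF M R l G) := fun l => FF_nice (by omega) hR0 l hG
  have hfm : ∀ l, Measurable (f l) := fun l => meas_f (hFn l).1
  -- the bound of a piece
  have hB : ∀ l, ∫⁻ g in box n, f l (fun i => 1 / (4 * g i)) ≤
      16 ^ n * (ENNReal.ofReal (C₂ * (1 + (2 : ℝ) ^ l / 2) ^ ε * (max 1 (8 * R / 2 ^ l)) ^ N) *
        (ENNReal.ofReal (C₃ * (((2 : ℝ) ^ l) ^ (M - 1) * (1 + 2 ^ l / R) ^ (-(K : ℤ)) * R) ^ 4) *
          W)) := by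
    intro l
    have hp : (0 : ℝ) < 2 ^ l := by positivity
    refine hfu (f l) j _ (hfm l) fun b hb => ?_
    have h1 := hit j b ((2 : ℝ) ^ l / 2) (max 1 (8 * R / 2 ^ l)) (by positivity) (le_max_left _ _)
      (FF M R l G) (hFn l) (by
        intro ζ hζ
        obtain ⟨a1, a2, a3⟩ := FF_ne hζ
        refine ⟨a1, by linarith, fun i => ?_⟩
        have a4 := hsupp _ a3 i
        have a5 : 4 * R ≤ 8 * R / 2 ^ l * ζ.1 := by
          rw [div_mul_eq_mul_div, le_div_iff₀ hp]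
          nlinarith
        have a6 : 8 * R / 2 ^ l * ζ.1 ≤ max 1 (8 * R / 2 ^ l) * ζ.1 :=
          mul_le_mul_of_nonneg_right (le_max_right _ _) (by linarith)
        linarith)
    refine h1.trans (mul_le_mul' le_rfl ?_)
    exact htr j b R l hb hR G H hG hH hGH
  -- pointwise
  have hpt : ∀ g ∈ box n, ∀ (v : ℝ) (x : Fin n → ℝ),
      ‖∫ u : Fin n → ℝ, KM M n R⁻¹ v g (x - u) * ExV G u‖ₑ ^ 4 ≤
        ENNReal.ofReal C₁ ^ 4 * (6 ^ 3 * ∑' l, ((w l)⁻¹) ^ 3 *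
          ‖ExtN (UN (fun i => 1 / (4 * g i)) (FF M R l G)) (v, x)‖ₑ ^ 4) := by
    intro g hg v x
    refine (pow_le_pow_left' (hkf g hg v R x hR G hG) 4).trans ?_
    rw [mul_pow]
    refine mul_le_mul' le_rfl ?_
    refine (tsum_pow_four_le _ w hwpos hwtop).trans ?_
    exact mul_le_mul' (pow_le_pow_left' hΛ 3) le_rfl
  calc ∫⁻ g in box n, ∫⁻ v : ℝ, ∫⁻ x : Fin n → ℝ,
        ‖∫ u : Fin n → ℝ, KM M n R⁻¹ v g (x - u) * ExV G u‖ₑ ^ 4
      ≤ ∫⁻ g in box n, ENNReal.ofReal C₁ ^ 4 * (6 ^ 3 * ∑' l, ((w l)⁻¹) ^ 3 *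
          f l (fun i => 1 / (4 * g i))) := by
        refine setLIntegral_mono' measurableSet_box fun g hg => ?_
        have hm1 : ∀ l, Measurable fun p : ℝ × (Fin n → ℝ) =>
            ((w l)⁻¹) ^ 3 * ‖ExtN (UN (fun i => 1 / (4 * g i)) (FF M R l G)) p‖ₑ ^ 4 := fun l =>
          ((meas_p (hFn l).1 _).enorm.pow_const 4).const_mul _
        have hm2 : Measurable fun p : ℝ × (Fin n → ℝ) => ENNReal.ofReal C₁ ^ 4 *
            (6 ^ 3 * ∑' l, ((w l)⁻¹) ^ 3 *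
              ‖ExtN (UN (fun i => 1 / (4 * g i)) (FF M R l G)) p‖ₑ ^ 4) :=
          ((Measurable.tsum hm1).const_mul _).const_mul _
        calc ∫⁻ v : ℝ, ∫⁻ x : Fin n → ℝ,
              ‖∫ u : Fin n → ℝ, KM M n R⁻¹ v g (x - u) * ExV G u‖ₑ ^ 4
            ≤ ∫⁻ v : ℝ, ∫⁻ x : Fin n → ℝ, ENNReal.ofReal C₁ ^ 4 *
              (6 ^ 3 * ∑' l, ((w l)⁻¹) ^ 3 *
                ‖ExtN (UN (fun i => 1 / (4 * g i)) (FF M R l G)) (v, x)‖ₑ ^ 4) :=
              lintegral_mono fun v => lintegral_mono fun x => hpt g hg v x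
          _ = ∫⁻ p : ℝ × (Fin n → ℝ), ENNReal.ofReal C₁ ^ 4 *
              (6 ^ 3 * ∑' l, ((w l)⁻¹) ^ 3 *
                ‖ExtN (UN (fun i => 1 / (4 * g i)) (FF M R l G)) p‖ₑ ^ 4) := by
              rw [Measure.volume_eq_prod, lintegral_prod _ hm2.aemeasurable]
          _ = ENNReal.ofReal C₁ ^ 4 * (6 ^ 3 * ∑' l, ((w l)⁻¹) ^ 3 *
                f l (fun i => 1 / (4 * g i))) := by
              rw [lintegral_const_mul _ ((Measurable.tsum hm1).const_mul _),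
                lintegral_const_mul _ (Measurable.tsum hm1),
                lintegral_tsum fun l => (hm1 l).aemeasurable]
              congr 3
              funext l
              rw [lintegral_const_mul _ ((meas_p (hFn l).1 _).enorm.pow_const 4)]
    _ = ENNReal.ofReal C₁ ^ 4 * (6 ^ 3 * ∑' l, ((w l)⁻¹) ^ 3 *
          ∫⁻ g in box n, f l (fun i => 1 / (4 * g i))) := by
        have hm3 : ∀ l, Measurable fun g : Fin n → ℝ => f l (fun i => 1 / (4 * g i)) := fun l =>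
          (hfm l).comp meas_inv
        have hm4 : ∀ l, Measurable fun g : Fin n → ℝ =>
            ((w l)⁻¹) ^ 3 * f l (fun i => 1 / (4 * g i)) := fun l => (hm3 l).const_mul _
        rw [lintegral_const_mul _ ((Measurable.tsum hm4).const_mul _),
          lintegral_const_mul _ (Measurable.tsum hm4),
          lintegral_tsum fun l => (hm4 l).aemeasurable]
        congr 3
        funext l
        rw [lintegral_const_mul _ (hm3 l)]
    _ ≤ ENNReal.ofReal C₁ ^ 4 * (6 ^ 3 * ∑' l, (ENNReal.ofReal D * 16 ^ n * W) * w l) := by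
        refine mul_le_mul' le_rfl (mul_le_mul' le_rfl (ENNReal.tsum_le_tsum fun l => ?_))
        refine (mul_le_mul' le_rfl (hB l)).trans ?_
        have hwl := wt_pos hR0 l
        have e1 : ((w l)⁻¹) ^ 3 = ENNReal.ofReal (((wt R l)⁻¹) ^ 3) := by
          rw [hw]
          simp only
          rw [← ENNReal.ofReal_inv_of_pos hwl, ENNReal.ofReal_pow (inv_nonneg.mpr hwl.le)]
        have hτ : (0 : ℝ) < 1 + 2 ^ l / R := by positivity
        have x0 : 0 ≤ ((wt R l)⁻¹) ^ 3 := by positivity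
        have y0 : 0 ≤ C₂ * (1 + (2 : ℝ) ^ l / 2) ^ ε * (max 1 (8 * R / 2 ^ l)) ^ N := by positivity
        have z0 : 0 ≤ C₃ * (((2 : ℝ) ^ l) ^ (M - 1) * (1 + 2 ^ l / R) ^ (-(K : ℤ)) * R) ^ 4 := by
          positivity
        rw [e1]
        calc ENNReal.ofReal (((wt R l)⁻¹) ^ 3) *
              (16 ^ n * (ENNReal.ofReal (C₂ * (1 + (2 : ℝ) ^ l / 2) ^ ε *
                (max 1 (8 * R / 2 ^ l)) ^ N) *
              (ENNReal.ofReal (C₃ * (((2 : ℝ) ^ l) ^ (M - 1) * (1 + 2 ^ l / R) ^ (-(K : ℤ)) *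
                R) ^ 4) * W)))
            = ENNReal.ofReal (((wt R l)⁻¹) ^ 3 * (C₂ * (1 + (2 : ℝ) ^ l / 2) ^ ε *
                (max 1 (8 * R / 2 ^ l)) ^ N) *
              (C₃ * (((2 : ℝ) ^ l) ^ (M - 1) * (1 + 2 ^ l / R) ^ (-(K : ℤ)) * R) ^ 4)) *
                16 ^ n * W := by
              rw [ENNReal.ofReal_mul (mul_nonneg x0 y0), ENNReal.ofReal_mul x0]
              ring
          _ ≤ ENNReal.ofReal (D * wt R l) * 16 ^ n * W := by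
              refine mul_le_mul' (mul_le_mul' (ENNReal.ofReal_le_ofReal ?_) le_rfl) le_rfl
              exact piece hε hN hMN hK hC₂ hC₃ hR l
          _ = ENNReal.ofReal D * 16 ^ n * W * w l := by
              rw [ENNReal.ofReal_mul hD0]
              ring
    _ = ENNReal.ofReal C₁ ^ 4 * (6 ^ 3 * ((ENNReal.ofReal D * 16 ^ n * W) * ∑' l, w l)) := by
        rw [ENNReal.tsum_mul_left]
    _ ≤ ENNReal.ofReal C₁ ^ 4 * (6 ^ 3 * ((ENNReal.ofReal D * 16 ^ n * W) * 6)) := by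
        gcongr
    _ = ENNReal.ofReal (C₁ ^ 4 * 1296 * 16 ^ n * (C₂ * C₃ * (16 * 8 ^ N)) *
          R ^ (4 * (M : ℝ) + ε)) * W := by
        have e2 : C₁ ^ 4 * 1296 * 16 ^ n * (C₂ * C₃ * (16 * 8 ^ N)) * R ^ (4 * (M : ℝ) + ε) =
            C₁ ^ 4 * 1296 * 16 ^ n * D := by rw [hD]; ring
        have e3 : ENNReal.ofReal (C₁ ^ 4 * 1296 * 16 ^ n * D) =
            ENNReal.ofReal C₁ ^ 4 * 1296 * 16 ^ n * ENNReal.ofReal D := by
          rw [ENNReal.ofReal_mul (by positivity), ENNReal.ofReal_mul (by positivity),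
            ENNReal.ofReal_mul (by positivity), ENNReal.ofReal_pow hC₁.le,
            ENNReal.ofReal_pow (by norm_num), ENNReal.ofReal_ofNat, ENNReal.ofReal_ofNat]
        rw [e2, e3]
        ring

end Pool.Agent.T9h70.LG
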