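import Pool.Agent.T9h89.LG.Ort

/-!
# The correlations of the pieces as oscillatory integrals (helper70)
-/

set_option autoImplicit false

namespace Pool.Agent.T9h70.LG

open Pool.Agent.T9h44.LG MeasureTheory Real
open scoped ENNReal ComplexConjugate

lemma chi_ne {x : ℝ} (h : chi x ≠ 0) : |x| ≤ 1 := by
  by_contra hcon
  push Not at hcon
  apply h
  unfold chi
  rcases lt_abs.mp hcon with h1 | h1
  · rw [Real.smoothTransition.one_of_one_le (by linarith),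
      Real.smoothTransition.one_of_one_le (by linarith), sub_self]
  · rw [Real.smoothTransition.zero_of_nonpos (by linarith),
      Real.smoothTransition.zero_of_nonpos (by linarith), sub_self]

lemma abs_chi_le (x : ℝ) : |chi x| ≤ 1 := by
  unfold chi
  have h1 := Real.smoothTransition.nonneg (x + 1)
  have h2 := Real.smoothTransition.nonneg x
  have h3 := Real.smoothTransition.le_one (x + 1)
  have h4 := Real.smoothTransition.le_one x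
  rw [abs_le]; constructor <;> linarith

lemma continuous_chi : Continuous chi := by
  unfold chi
  exact (Real.smoothTransition.continuous.comp (continuous_id.add continuous_const)).sub
    Real.smoothTransition.continuous

lemma measurable_al : Measurable al := by
  unfold al
  exact measurable_snd.div measurable_fst

lemma measurable_qq : Measurable qq := by
  unfold qq
  exact (measurable_snd.pow_const 2).div measurable_fst

lemma measurable_ph (h : ℝ × ℝ) : Measurable (ph h) := by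
  unfold ph
  exact (measurable_qq.comp (measurable_id.add_const h)).sub measurable_qq

lemma nice_Gp (m : ℕ) (i : ℤ) {G : ℝ × ℝ → ℂ} (hG : Nice G) : Nice (Gp m i G) := by
  obtain ⟨h1, ⟨B, hB⟩, r, hr⟩ := hG
  refine ⟨?_, ⟨B, fun ζ => ?_⟩, r, fun ζ hζ => hr ζ fun h0 => hζ (by unfold Gp; rw [h0, mul_zero])⟩
  · unfold Gp
    refine Measurable.mul ?_ h1
    refine Complex.measurable_ofReal.comp (continuous_chi.measurable.comp ?_)
    exact (measurable_al.const_mul _).sub_const _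
  · unfold Gp
    rw [norm_mul, Complex.norm_real, Real.norm_eq_abs]
    calc |chi _| * ‖G ζ‖ ≤ 1 * ‖G ζ‖ := mul_le_mul_of_nonneg_right (abs_chi_le _) (norm_nonneg _)
      _ ≤ B := by rw [one_mul]; exact hB ζ

/-- the correlation of two nice functions is integrable -/
lemma corr_integrable {A B : ℝ × ℝ → ℂ} (hA : Nice A) (hB : Nice B) (h : ℝ × ℝ) :
    Integrable (fun ζ => A (ζ + h) * conj (B ζ)) := by
  obtain ⟨mA, ⟨bA, hbA⟩, rA, hrA⟩ := hA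
  obtain ⟨mB, ⟨bB, hbB⟩, rB, hrB⟩ := hB
  have hm : Measurable (fun ζ => A (ζ + h) * conj (B ζ)) :=
    (mA.comp (measurable_id.add_const h)).mul (Complex.continuous_conj.measurable.comp mB)
  have hs : Function.support (fun ζ => A (ζ + h) * conj (B ζ)) ⊆
      Set.Icc (-rB) rB ×ˢ Set.Icc (-rB) rB := by
    intro ζ hζ
    have h1 : B ζ ≠ 0 := by
      intro h0
      apply hζ
      show A (ζ + h) * conj (B ζ) = 0
      rw [h0, map_zero, mul_zero]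
    have h2 := hrB ζ h1
    exact ⟨⟨by linarith [(abs_le.mp h2.1).1], (abs_le.mp h2.1).2⟩,
      ⟨by linarith [(abs_le.mp h2.2).1], (abs_le.mp h2.2).2⟩⟩
  rw [← integrableOn_iff_integrable_of_support_subset hs]
  refine Measure.integrableOn_of_bounded (M := bA * bB) ?_ hm.aestronglyMeasurable
    (Filter.Eventually.of_forall fun ζ => ?_)
  · exact ((isCompact_Icc.prod isCompact_Icc).measure_lt_top).ne
  · rw [norm_mul, RCLike.norm_conj]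
    exact mul_le_mul (hbA _) (hbB _) (norm_nonneg _) ((norm_nonneg _).trans (hbA (ζ + h)))

/-- the product of the pieces -/
noncomputable def tt (m : ℕ) (G : ℝ × ℝ → ℂ) (h : ℝ × ℝ) (i₁ i₂ : ℤ) (ζ : ℝ × ℝ) : ℂ :=
  Gp m i₁ G (ζ + h) * conj (Gp m i₂ G ζ)

lemma tt_integrable (m : ℕ) {G : ℝ × ℝ → ℂ} (hG : Nice G) (h : ℝ × ℝ) (i₁ i₂ : ℤ) :
    Integrable (tt m G h i₁ i₂) := corr_integrable (nice_Gp m i₁ hG) (nice_Gp m i₂ hG) h

lemma tt_ne {m : ℕ} {G : ℝ × ℝ → ℂ} {h : ℝ × ℝ} {i₁ i₂ : ℤ} {ζ : ℝ × ℝ}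
    (hne : tt m G h i₁ i₂ ζ ≠ 0) :
    G (ζ + h) ≠ 0 ∧ G ζ ≠ 0 ∧ |2 ^ m * al (ζ + h) - i₁| ≤ 1 ∧ |2 ^ m * al ζ - i₂| ≤ 1 := by
  unfold tt Gp at hne
  have h1 := left_ne_zero_of_mul hne
  have h2 := right_ne_zero_of_mul hne
  have h2' : ((chi (2 ^ m * al ζ - i₂) : ℝ) : ℂ) * G ζ ≠ 0 := by
    intro h0
    rw [h0, map_zero] at h2
    exact h2 rfl
  refine ⟨right_ne_zero_of_mul h1, right_ne_zero_of_mul h2', ?_, ?_⟩
  · apply chi_ne
    intro h0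
    have := left_ne_zero_of_mul h1
    rw [h0] at this
    exact this Complex.ofReal_zero
  · apply chi_ne
    intro h0
    have := left_ne_zero_of_mul h2'
    rw [h0] at this
    exact this Complex.ofReal_zero

lemma cc_Uo (m : ℕ) (G : ℝ × ℝ → ℂ) (h : ℝ × ℝ) (i₁ i₂ : ℤ) (γ : ℝ) :
    cc (Gp m i₁ (Uo γ G)) (Gp m i₂ (Uo γ G)) h =
      ∫ ζ : ℝ × ℝ, ee (γ * ph h ζ) * tt m G h i₁ i₂ ζ := by
  unfold cc
  congr 1
  funext ζ
  unfold tt Gp Uo ph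
  have e1 : ee (γ * (qq (ζ + h) - qq ζ)) = ee (γ * qq (ζ + h)) * conj (ee (γ * qq ζ)) := by
    rw [T9h89.LG.conj_ee, ← T9h89.LG.ee_add]
    congr 1
    ring
  rw [e1]
  simp only [map_mul, Complex.conj_ofReal]
  ring

lemma ee_mul_integrable {φ : ℝ × ℝ → ℝ} (hφ : Measurable φ) {a : ℝ × ℝ → ℂ} (ha : Integrable a)
    (γ : ℝ) : Integrable (fun ζ => ee (γ * φ ζ) * a ζ) := T9h89.LG.int_mul hφ ha γ

lemma sum_tt_integrable (m : ℕ) {G : ℝ × ℝ → ℂ} (hG : Nice G) (h : ℝ × ℝ) (A B : Finset ℤ)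
    (c : ℤ → ℤ → ℂ) :
    Integrable (fun ζ => ∑ i₁ ∈ A, ∑ i₂ ∈ B, c i₁ i₂ * tt m G h i₁ i₂ ζ) :=
  integrable_finsetSum _ fun i₁ _ => integrable_finsetSum _ fun i₂ _ =>
    (tt_integrable m hG h i₁ i₂).const_mul _

lemma sum_cc (m : ℕ) {G : ℝ × ℝ → ℂ} (hG : Nice G) (h : ℝ × ℝ) (A B : Finset ℤ)
    (c : ℤ → ℤ → ℂ) (γ : ℝ) :
    ∑ i₁ ∈ A, ∑ i₂ ∈ B, c i₁ i₂ * cc (Gp m i₁ (Uo γ G)) (Gp m i₂ (Uo γ G)) h =
      ∫ ζ : ℝ × ℝ, ee (γ * ph h ζ) * ∑ i₁ ∈ A, ∑ i₂ ∈ B, c i₁ i₂ * tt m G h i₁ i₂ ζ := by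
  have hφ := measurable_ph h
  have e1 : ∀ ζ : ℝ × ℝ, ee (γ * ph h ζ) * ∑ i₁ ∈ A, ∑ i₂ ∈ B, c i₁ i₂ * tt m G h i₁ i₂ ζ =
      ∑ i₁ ∈ A, ∑ i₂ ∈ B, c i₁ i₂ * (ee (γ * ph h ζ) * tt m G h i₁ i₂ ζ) := by
    intro ζ
    rw [Finset.mul_sum]
    refine Finset.sum_congr rfl fun i₁ _ => ?_
    rw [Finset.mul_sum]
    refine Finset.sum_congr rfl fun i₂ _ => ?_
    ring
  have hint : ∀ i₁ i₂, Integrable (fun ζ => c i₁ i₂ * (ee (γ * ph h ζ) * tt m G h i₁ i₂ ζ)) :=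
    fun i₁ i₂ => (ee_mul_integrable hφ (tt_integrable m hG h i₁ i₂) γ).const_mul _
  simp_rw [e1]
  rw [integral_finsetSum _ fun i₁ _ => integrable_finsetSum _ fun i₂ _ => hint i₁ i₂]
  refine Finset.sum_congr rfl fun i₁ _ => ?_
  rw [integral_finsetSum _ fun i₂ _ => hint i₁ i₂]
  refine Finset.sum_congr rfl fun i₂ _ => ?_
  rw [integral_const_mul, cc_Uo]

/-- (ORT) centred at `γ₀` -/
lemma ort_shift {κ κh : ℝ → ℝ} (hκ : Kap κ κh) {ι : Type} [Fintype ι] (a : ι → ℝ × ℝ → ℂ)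
    (φ : ℝ × ℝ → ℝ) (R γ₀ : ℝ) (M : ℕ) (hR : 0 < R) (hφ : Measurable φ)
    (ha : ∀ p, Integrable (a p))
    (hM : ∀ p, Set.ncard {p' | ∃ ζ ζ', a p ζ ≠ 0 ∧ a p' ζ' ≠ 0 ∧ |φ ζ - φ ζ'| < 1 / R} ≤ M) :
    ∫⁻ γ : ℝ, ENNReal.ofReal (κ ((γ - γ₀) / R)) * ‖∑ p, ∫ ζ, ee (γ * φ ζ) * a p ζ‖ₑ ^ 2 ≤
      M * ∑ p, ∫⁻ γ : ℝ, ENNReal.ofReal (κ ((γ - γ₀) / R)) *
        ‖∫ ζ, ee (γ * φ ζ) * a p ζ‖ₑ ^ 2 := by
  set b : ι → ℝ × ℝ → ℂ := fun p ζ => ee (γ₀ * φ ζ) * a p ζ with hb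
  have hne : ∀ x, ee x ≠ 0 := fun x h0 => by
    have := T9h89.LG.norm_ee x
    rw [h0, norm_zero] at this
    exact zero_ne_one this
  have hbne : ∀ p ζ, b p ζ ≠ 0 ↔ a p ζ ≠ 0 := fun p ζ =>
    ⟨fun h1 => right_ne_zero_of_mul h1, fun h1 => mul_ne_zero (hne _) h1⟩
  have key := T9h89.LG.s_ort κ κh hκ ι b φ R M hR hφ
    (fun p => ee_mul_integrable hφ (ha p) γ₀) (by
      intro p
      simp only [hbne]
      exact hM p)
  have e1 : ∀ (p : ι) (γ : ℝ), ∫ ζ, ee (γ * φ ζ) * b p ζ = ∫ ζ, ee ((γ + γ₀) * φ ζ) * a p ζ := by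
    intro p γ
    congr 1
    funext ζ
    rw [hb]
    simp only
    rw [← mul_assoc, ← T9h89.LG.ee_add, add_mul]
  simp only [e1] at key
  have e2 : ∀ f : ℝ → ℝ≥0∞, ∫⁻ γ, ENNReal.ofReal (κ (γ / R)) * f (γ + γ₀) =
      ∫⁻ γ, ENNReal.ofReal (κ ((γ - γ₀) / R)) * f γ := by
    intro f
    rw [← lintegral_add_right_eq_self (fun γ => ENNReal.ofReal (κ ((γ - γ₀) / R)) * f γ) γ₀]
    congr 1
    funext γ
    rw [add_sub_cancel_right]
  have e3 := e2 fun γ => ‖∑ p, ∫ ζ, ee (γ * φ ζ) * a p ζ‖ₑ ^ 2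
  have e4 : ∀ p, ∫⁻ γ, ENNReal.ofReal (κ (γ / R)) * ‖∫ ζ, ee ((γ + γ₀) * φ ζ) * a p ζ‖ₑ ^ 2 =
      ∫⁻ γ, ENNReal.ofReal (κ ((γ - γ₀) / R)) * ‖∫ ζ, ee (γ * φ ζ) * a p ζ‖ₑ ^ 2 := fun p =>
    e2 fun γ => ‖∫ ζ, ee (γ * φ ζ) * a p ζ‖ₑ ^ 2
  simp only [e4] at key
  rw [← e3]
  exact key

end Pool.Agent.T9h70.LG
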