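import Pool.Agent.T9h44.LG.Spec4
import Pool.Agent.T9h70.LG.Sm

/-!
# (SMI): summation over the dyadic pieces, the mean over the variables of `I` (helper70)
-/

set_option autoImplicit false

namespace Pool.Agent.T9h70.LG

open Pool.Agent.T9h44.LG Pool.Agent.T9h44.LS4 Pool.Agent.T9h44.LS5 MeasureTheory Real
open scoped ENNReal ComplexConjugate

variable {n : ℕ}

lemma meas_mixinv (I : Finset (Fin n)) (g₀ : Fin n → ℝ) :
    Measurable (fun g : Fin n → ℝ => fun i => 1 / (4 * mix I g₀ g i)) :=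
  meas_inv.comp (mix_cont I g₀).measurable

/-- (SMI) -/
theorem s_smI (n : ℕ) (hit : S_itI n) (hfu : S_fuI n) (htr : S_tr n) (hkf : S_kf n) :
    S_smI n := by
  intro hn ε₀ hε₀
  obtain ⟨C₂, N, hC₂, hN, hit⟩ := hit ε₀ hε₀
  refine ⟨⌈8 + N⌉₊ + 2, fun M hM => ?_⟩
  have hM2 : 2 ≤ M := by omega
  have hMN : 8 + N ≤ 4 * (M : ℝ) := by
    have h1 : 8 + N ≤ (⌈8 + N⌉₊ : ℝ) := Nat.le_ceil _
    have h2 : ((⌈8 + N⌉₊ + 2 : ℕ) : ℝ) ≤ M := by exact_mod_cast hM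
    push_cast at h2
    have h3 : (0 : ℝ) ≤ M := Nat.cast_nonneg _
    linarith
  set K : ℕ := M + ⌈ε₀ + n⌉₊ with hKd
  have hK : 4 * (M : ℝ) + (ε₀ + n) ≤ 4 * (K : ℝ) := by
    have h1 : ε₀ + n ≤ (⌈ε₀ + n⌉₊ : ℝ) := Nat.le_ceil _
    have h2 : (0 : ℝ) ≤ n := Nat.cast_nonneg _
    rw [hKd]
    push_cast
    linarith
  obtain ⟨C₃, hC₃, htr⟩ := htr M K hM2
  obtain ⟨C₁, hC₁, hkf⟩ := hkf hn M
  refine ⟨C₁ ^ 4 * 1296 * 16 ^ n * (C₂ * C₃ * (16 * 8 ^ N)), by positivity, ?_⟩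
  intro I j g₀ hg₀ R hR G H hG hH hGH hsupp
  have hR0 : 0 < R := by linarith
  have hcard : ((I.erase j).card : ℝ) + 1 ≤ n := by
    have h1 : (I.erase j).card < Fintype.card (Fin n) := by
      rw [← Finset.card_univ]
      refine Finset.card_lt_card (Finset.ssubset_univ_iff.2 ?_)
      intro h
      have h2 := Finset.mem_univ j
      rw [← h] at h2
      exact Finset.notMem_erase j I h2
    rw [Fintype.card_fin] at h1
    exact_mod_cast h1
  have hcard2 : (I.card : ℝ) ≤ (I.erase j).card + 1 := by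
    have h1 := Finset.pred_card_le_card_erase (s := I) (a := j)
    have h2 : I.card ≤ (I.erase j).card + 1 := by omega
    exact_mod_cast h2
  set ε : ℝ := ε₀ + ((n : ℝ) - 1 - (I.erase j).card) with hεd
  have hε : 0 < ε := by rw [hεd]; linarith
  replace hK : 4 * (M : ℝ) + ε ≤ 4 * (K : ℝ) := by
    have h3 : (0 : ℝ) ≤ (I.erase j).card := Nat.cast_nonneg _
    rw [hεd]; linarith
  have hεn : ε ≤ ε₀ + ((n : ℝ) - I.card) := by rw [hεd]; linarith
  set W : ℝ≥0∞ := (∫⁻ x : Fin n → ℝ, ‖ExV G x‖ₑ ^ 4) +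
        ENNReal.ofReal (R ^ 4) * ∫⁻ x : Fin n → ℝ, ‖ExV H x‖ₑ ^ 4 with hW
  set D : ℝ := C₂ * C₃ * (16 * 8 ^ N) * R ^ (4 * (M : ℝ) + ε) with hD
  have hD0 : 0 ≤ D := by positivity
  set w : ℤ → ℝ≥0∞ := fun l => ENNReal.ofReal (wt R l) with hw
  have hwpos : ∀ l, w l ≠ 0 := fun l => by
    rw [hw]; simp only [ne_eq, ENNReal.ofReal_eq_zero, not_le]; exact wt_pos hR0 l
  have hwtop : ∀ l, w l ≠ ∞ := fun l => ENNReal.ofReal_ne_top
  have hΛ : ∑' l, w l ≤ 6 := tsum_wt_le hR0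
  set f : ℤ → (Fin n → ℝ) → ℝ≥0∞ := fun l c =>
    ∫⁻ p : ℝ × (Fin n → ℝ), ‖ExtN (UN c (FF M R l G)) p‖ₑ ^ 4 with hf
  have hFn : ∀ l, NiceN (FF M R l G) := fun l => FF_nice (by omega) hR0 l hG
  have hfm : ∀ l, Measurable (f l) := fun l => meas_f (hFn l).1
  -- the bound of a piece
  have hB : ∀ l, ∫⁻ g in box n, f l (fun i => 1 / (4 * mix I g₀ g i)) ≤
      16 ^ n * (ENNReal.ofReal (C₂ * (1 + (2 : ℝ) ^ l / 2) ^ ε * (max 1 (8 * R / 2 ^ l)) ^ N) *
        (ENNReal.ofReal (C₃ * (((2 : ℝ) ^ l) ^ (M - 1) * (1 + 2 ^ l / R) ^ (-(K : ℤ)) * R) ^ 4) *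
          W)) := by
    intro l
    have hp : (0 : ℝ) < 2 ^ l := by positivity
    refine hfu (f l) I j _ (hfm l) g₀ hg₀ fun c₀ hc₀ => ?_
    have h1 := hit (I.erase j) j (Finset.notMem_erase j I) c₀
      (fun i => ⟨by linarith [(hc₀ i).1], by linarith [(hc₀ i).2]⟩)
      ((2 : ℝ) ^ l / 2) (max 1 (8 * R / 2 ^ l)) (by positivity) (le_max_left _ _)
      (FF M R l G) (hFn l) (by
        intro ζ hζ
        obtain ⟨a1, a2, a3⟩ := FF_ne hζ
        refine ⟨a1, by linarith, fun i => ?_⟩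
        have a4 := hsupp _ a3 i
        have a5 : 4 * R ≤ 8 * R / 2 ^ l * ζ.1 := by
          rw [div_mul_eq_mul_div, le_div_iff₀ hp]
          nlinarith
        have a6 : 8 * R / 2 ^ l * ζ.1 ≤ max 1 (8 * R / 2 ^ l) * ζ.1 :=
          mul_le_mul_of_nonneg_right (le_max_right _ _) (by linarith)
        linarith)
    refine h1.trans (mul_le_mul' le_rfl ?_)
    exact htr j (c₀ j) R l (hc₀ j) hR G H hG hH hGH
  -- pointwise
  have hpt : ∀ g ∈ box n, ∀ (v : ℝ) (x : Fin n → ℝ),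
      ‖∫ u : Fin n → ℝ, KM M n R⁻¹ v g (x - u) * ExV G u‖ₑ ^ 4 ≤
        ENNReal.ofReal C₁ ^ 4 * (6 ^ 3 * ∑' l, ((w l)⁻¹) ^ 3 *
          ‖ExtN (UN (fun i => 1 / (4 * g i)) (FF M R l G)) (v, x)‖ₑ ^ 4) := by
    intro g hg v x
    refine (pow_le_pow_left' (hkf g hg v R x hR G hG) 4).trans ?_
    rw [mul_pow]
    refine mul_le_mul' le_rfl ?_
    refine (tsum_pow_four_le _ w hwpos hwtop).trans ?_
    exact mul_le_mul' (pow_le_pow_left' hΛ 3) le_rfl
  calc ∫⁻ g in box n, ∫⁻ v : ℝ, ∫⁻ x : Fin n → ℝ,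
        ‖∫ u : Fin n → ℝ, KM M n R⁻¹ v (mix I g₀ g) (x - u) * ExV G u‖ₑ ^ 4
      ≤ ∫⁻ g in box n, ENNReal.ofReal C₁ ^ 4 * (6 ^ 3 * ∑' l, ((w l)⁻¹) ^ 3 *
          f l (fun i => 1 / (4 * mix I g₀ g i))) := by
        refine setLIntegral_mono' measurableSet_box fun g' hg' => ?_
        have hg := mix_mem I g₀ g' hg₀ hg'
        set g := mix I g₀ g' with hgd
        have hm1 : ∀ l, Measurable fun p : ℝ × (Fin n → ℝ) =>
            ((w l)⁻¹) ^ 3 * ‖ExtN (UN (fun i => 1 / (4 * g i)) (FF M R l G)) p‖ₑ ^ 4 := fun l =>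
          ((meas_p (hFn l).1 _).enorm.pow_const 4).const_mul _
        have hm2 : Measurable fun p : ℝ × (Fin n → ℝ) => ENNReal.ofReal C₁ ^ 4 *
            (6 ^ 3 * ∑' l, ((w l)⁻¹) ^ 3 *
              ‖ExtN (UN (fun i => 1 / (4 * g i)) (FF M R l G)) p‖ₑ ^ 4) :=
          ((Measurable.tsum hm1).const_mul _).const_mul _
        calc ∫⁻ v : ℝ, ∫⁻ x : Fin n → ℝ,
              ‖∫ u : Fin n → ℝ, KM M n R⁻¹ v g (x - u) * ExV G u‖ₑ ^ 4
            ≤ ∫⁻ v : ℝ, ∫⁻ x : Fin n → ℝ, ENNReal.ofReal C₁ ^ 4 *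
              (6 ^ 3 * ∑' l, ((w l)⁻¹) ^ 3 *
                ‖ExtN (UN (fun i => 1 / (4 * g i)) (FF M R l G)) (v, x)‖ₑ ^ 4) :=
              lintegral_mono fun v => lintegral_mono fun x => hpt g hg v x
          _ = ∫⁻ p : ℝ × (Fin n → ℝ), ENNReal.ofReal C₁ ^ 4 *
              (6 ^ 3 * ∑' l, ((w l)⁻¹) ^ 3 *
                ‖ExtN (UN (fun i => 1 / (4 * g i)) (FF M R l G)) p‖ₑ ^ 4) := by
              rw [Measure.volume_eq_prod, lintegral_prod _ hm2.aemeasurable]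
          _ = ENNReal.ofReal C₁ ^ 4 * (6 ^ 3 * ∑' l, ((w l)⁻¹) ^ 3 *
                f l (fun i => 1 / (4 * g i))) := by
              rw [lintegral_const_mul _ ((Measurable.tsum hm1).const_mul _),
                lintegral_const_mul _ (Measurable.tsum hm1),
                lintegral_tsum fun l => (hm1 l).aemeasurable]
              congr 3
              funext l
              rw [lintegral_const_mul _ ((meas_p (hFn l).1 _).enorm.pow_const 4)]
    _ = ENNReal.ofReal C₁ ^ 4 * (6 ^ 3 * ∑' l, ((w l)⁻¹) ^ 3 *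
          ∫⁻ g in box n, f l (fun i => 1 / (4 * mix I g₀ g i))) := by
        have hm3 : ∀ l, Measurable fun g : Fin n → ℝ => f l (fun i => 1 / (4 * mix I g₀ g i)) :=
          fun l => (hfm l).comp (meas_mixinv I g₀)
        have hm4 : ∀ l, Measurable fun g : Fin n → ℝ =>
            ((w l)⁻¹) ^ 3 * f l (fun i => 1 / (4 * mix I g₀ g i)) := fun l => (hm3 l).const_mul _
        rw [lintegral_const_mul _ ((Measurable.tsum hm4).const_mul _),
          lintegral_const_mul _ (Measurable.tsum hm4),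
          lintegral_tsum fun l => (hm4 l).aemeasurable]
        congr 3
        funext l
        rw [lintegral_const_mul _ (hm3 l)]
    _ ≤ ENNReal.ofReal C₁ ^ 4 * (6 ^ 3 * ∑' l, (ENNReal.ofReal D * 16 ^ n * W) * w l) := by
        refine mul_le_mul' le_rfl (mul_le_mul' le_rfl (ENNReal.tsum_le_tsum fun l => ?_))
        refine (mul_le_mul' le_rfl (hB l)).trans ?_
        have hwl := wt_pos hR0 l
        have e1 : ((w l)⁻¹) ^ 3 = ENNReal.ofReal (((wt R l)⁻¹) ^ 3) := by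
          rw [hw]
          simp only
          rw [← ENNReal.ofReal_inv_of_pos hwl, ENNReal.ofReal_pow (inv_nonneg.mpr hwl.le)]
        have hτ : (0 : ℝ) < 1 + 2 ^ l / R := by positivity
        have x0 : 0 ≤ ((wt R l)⁻¹) ^ 3 := by positivity
        have y0 : 0 ≤ C₂ * (1 + (2 : ℝ) ^ l / 2) ^ ε * (max 1 (8 * R / 2 ^ l)) ^ N := by positivity
        have z0 : 0 ≤ C₃ * (((2 : ℝ) ^ l) ^ (M - 1) * (1 + 2 ^ l / R) ^ (-(K : ℤ)) * R) ^ 4 := by
          positivity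
        rw [e1]
        calc ENNReal.ofReal (((wt R l)⁻¹) ^ 3) *
              (16 ^ n * (ENNReal.ofReal (C₂ * (1 + (2 : ℝ) ^ l / 2) ^ ε *
                (max 1 (8 * R / 2 ^ l)) ^ N) *
              (ENNReal.ofReal (C₃ * (((2 : ℝ) ^ l) ^ (M - 1) * (1 + 2 ^ l / R) ^ (-(K : ℤ)) *
                R) ^ 4) * W)))
            = ENNReal.ofReal (((wt R l)⁻¹) ^ 3 * (C₂ * (1 + (2 : ℝ) ^ l / 2) ^ ε *
                (max 1 (8 * R / 2 ^ l)) ^ N) *
              (C₃ * (((2 : ℝ) ^ l) ^ (M - 1) * (1 + 2 ^ l / R) ^ (-(K : ℤ)) * R) ^ 4)) *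
                16 ^ n * W := by
              rw [ENNReal.ofReal_mul (mul_nonneg x0 y0), ENNReal.ofReal_mul x0]
              ring
          _ ≤ ENNReal.ofReal (D * wt R l) * 16 ^ n * W := by
              refine mul_le_mul' (mul_le_mul' (ENNReal.ofReal_le_ofReal ?_) le_rfl) le_rfl
              exact piece hε hN hMN hK hC₂ hC₃ hR l
          _ = ENNReal.ofReal D * 16 ^ n * W * w l := by
              rw [ENNReal.ofReal_mul hD0]
              ring
    _ = ENNReal.ofReal C₁ ^ 4 * (6 ^ 3 * ((ENNReal.ofReal D * 16 ^ n * W) * ∑' l, w l)) := by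
        rw [ENNReal.tsum_mul_left]
    _ ≤ ENNReal.ofReal C₁ ^ 4 * (6 ^ 3 * ((ENNReal.ofReal D * 16 ^ n * W) * 6)) := by
        gcongr
    _ = ENNReal.ofReal (C₁ ^ 4 * 1296 * 16 ^ n * (C₂ * C₃ * (16 * 8 ^ N)) *
          R ^ (4 * (M : ℝ) + ε)) * W := by
        have e2 : C₁ ^ 4 * 1296 * 16 ^ n * (C₂ * C₃ * (16 * 8 ^ N)) * R ^ (4 * (M : ℝ) + ε) =
            C₁ ^ 4 * 1296 * 16 ^ n * D := by rw [hD]; ring
        have e3 : ENNReal.ofReal (C₁ ^ 4 * 1296 * 16 ^ n * D) =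
            ENNReal.ofReal C₁ ^ 4 * 1296 * 16 ^ n * ENNReal.ofReal D := by
          rw [ENNReal.ofReal_mul (by positivity), ENNReal.ofReal_mul (by positivity),
            ENNReal.ofReal_mul (by positivity), ENNReal.ofReal_pow hC₁.le,
            ENNReal.ofReal_pow (by norm_num), ENNReal.ofReal_ofNat, ENNReal.ofReal_ofNat]
        rw [e2, e3]
        ring
    _ ≤ _ := by
        refine mul_le_mul' (ENNReal.ofReal_le_ofReal ?_) le_rfl
        refine mul_le_mul_of_nonneg_left ?_ (by positivity)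
        exact Real.rpow_le_rpow_of_exponent_le hR (by linarith)

end Pool.Agent.T9h70.LG
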