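import Pool.Agent.T9h44.LG.Spec2

/-!
# Corrected forms of (TR) and (SM) (helper70): the sum of the two integrals
-/

set_option autoImplicit false

namespace Pool.Agent.T9h70.LG

open Pool.Agent.T9h44.LG Pool.Agent.T9h44.LS4 MeasureTheory Real
open scoped ENNReal ComplexConjugate

/-- (TR), with the parentheses around the first integral -/
def TrP (n : ℕ) : Prop :=
  ∀ M K : ℕ, 2 ≤ M → ∃ C : ℝ, 0 < C ∧ ∀ (j : Fin n) (b R : ℝ) (l : ℤ),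
    b ∈ Set.Icc (1 / 8 : ℝ) (1 / 4) → 1 ≤ R → ∀ G H : (Fin n → ℝ) → ℂ, NiceV G → NiceV H →
    (∀ ξ, G ξ = 2 * π * Complex.I * ξ j * H ξ) →
    ∫⁻ p : ℝ × (Fin n → ℝ), ‖ExtN (UN (Function.update 0 j b) fun ζ =>
        ((bet (ζ.1 / 2 ^ l) * am M R ζ.1 : ℝ) : ℂ) * G ζ.2) p‖ₑ ^ 4 ≤
      ENNReal.ofReal (C * (((2 : ℝ) ^ l) ^ (M - 1) * (1 + 2 ^ l / R) ^ (-(K : ℤ)) * R) ^ 4) *
        ((∫⁻ x : Fin n → ℝ, ‖ExV G x‖ₑ ^ 4) +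
          ENNReal.ofReal (R ^ 4) * ∫⁻ x : Fin n → ℝ, ‖ExV H x‖ₑ ^ 4)

/-- (SM), with the parentheses around the first integral -/
def SmP (n : ℕ) : Prop :=
  1 ≤ n → ∀ ε : ℝ, 0 < ε → ∃ M₀ : ℕ, ∀ M : ℕ, M₀ ≤ M → ∃ C : ℝ, 0 < C ∧ ∀ (j : Fin n) (R : ℝ), 1 ≤ R →
    ∀ G H : (Fin n → ℝ) → ℂ, NiceV G → NiceV H →
    (∀ ξ, G ξ = 2 * π * Complex.I * ξ j * H ξ) → (∀ ξ, G ξ ≠ 0 → ∀ i, |ξ i| ≤ 4 * R) →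
    ∫⁻ g in box n, ∫⁻ w : ℝ, ∫⁻ x : Fin n → ℝ,
        ‖∫ u : Fin n → ℝ, KM M n R⁻¹ w g (x - u) * ExV G u‖ₑ ^ 4 ≤
      ENNReal.ofReal (C * R ^ (4 * M + ε)) * ((∫⁻ x : Fin n → ℝ, ‖ExV G x‖ₑ ^ 4) +
        ENNReal.ofReal (R ^ 4) * ∫⁻ x : Fin n → ℝ, ‖ExV H x‖ₑ ^ 4)

end Pool.Agent.T9h70.LG
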